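import Mathlib

/-!
Linear matroid parity: basic notions. A linear map `φ` from coefficient vectors (two coefficients
for each index) to a space `V` describes a family of pairs of vectors. Everything is relative to a
subspace `Z` that is contracted.
-/

open Module Finset

namespace Pool.Agent.MP_0c5eb8_lc.H40

variable {F V : Type} [Field F] [AddCommGroup V] [Module F V]

/-- Coefficient vectors supported on `S`. -/
def Sub (F : Type) [Field F] (S : Finset ℕ) : Submodule F (ℕ → F × F) where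
  carrier := {ξ | ∀ e, e ∉ S → ξ e = 0}
  add_mem' := fun {a b} ha hb e he => by simp [ha e he, hb e he]
  zero_mem' := fun _ _ => rfl
  smul_mem' := fun c a ha e he => by simp [ha e he]

lemma mem_Sub {S : Finset ℕ} {ξ : ℕ → F × F} : ξ ∈ Sub F S ↔ ∀ e, e ∉ S → ξ e = 0 := Iff.rfl

lemma Sub_mono {S T : Finset ℕ} (h : S ⊆ T) : Sub F S ≤ Sub F T :=
  fun _ hξ e he => hξ e fun h' => he (h h')

lemma mem_of_ne {S : Finset ℕ} {ξ : ℕ → F × F} (h : ξ ∈ Sub F S) {e : ℕ} (he : ξ e ≠ 0) :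
    e ∈ S := by
  by_contra h'; exact he (h e h')

lemma single_mem_Sub {S : Finset ℕ} {e : ℕ} (he : e ∈ S) (y : F × F) :
    (Pi.single e y : ℕ → F × F) ∈ Sub F S := fun x hx => by
  rw [Pi.single_eq_of_ne]; rintro rfl; exact hx he

lemma mem_Sub_erase {S : Finset ℕ} {ξ : ℕ → F × F} (h : ξ ∈ Sub F S) {e : ℕ} (he : ξ e = 0) :
    ξ ∈ Sub F (S.erase e) := fun x hx => by
  by_cases hxe : x = e
  · rw [hxe, he]
  · exact h x fun h' => hx (mem_erase.2 ⟨hxe, h'⟩)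

lemma mem_Sub_of_insert {S : Finset ℕ} {ξ : ℕ → F × F} {e : ℕ} (h : ξ ∈ Sub F (insert e S))
    (he : ξ e = 0) : ξ ∈ Sub F S := fun x hx => by
  by_cases hxe : x = e
  · rw [hxe, he]
  · exact h x fun h' => by
      rcases mem_insert.1 h' with h1 | h1
      exacts [hxe h1, hx h1]

lemma sub_single_mem {S : Finset ℕ} {ξ : ℕ → F × F} (h : ξ ∈ Sub F S) (e : ℕ) :
    ξ - Pi.single e (ξ e) ∈ Sub F (S.erase e) := fun x hx => by
  by_cases hxe : x = e
  · subst hxe; simp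
  · have : x ∉ S := fun h' => hx (mem_erase.2 ⟨hxe, h'⟩)
    simp [h x this, Pi.single_eq_of_ne hxe]

/-- Coefficient vectors supported on `S` are the functions on `S`. -/
noncomputable def subEquiv (S : Finset ℕ) : Sub F S ≃ₗ[F] (S → F × F) where
  toFun ξ := fun e => ξ.1 e
  map_add' _ _ := rfl
  map_smul' _ _ := rfl
  invFun f := ⟨fun e => if h : e ∈ S then f ⟨e, h⟩ else 0, fun e he => by simp [he]⟩
  left_inv ξ := by
    ext1; funext e
    by_cases h : e ∈ S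
    · simp [h]
    · simp [h, ξ.2 e h]
  right_inv f := by funext e; simp

instance (S : Finset ℕ) : FiniteDimensional F (Sub F S) :=
  (subEquiv S).symm.finiteDimensional

lemma finrank_Sub (S : Finset ℕ) : finrank F (Sub F S) = 2 * S.card := by
  rw [(subEquiv S).finrank_eq, finrank_pi_fintype]
  simp [mul_comm]

variable (φ : (ℕ → F × F) →ₗ[F] V)

/-- The span of `Z` and of the pairs with index in `S`. -/
def sp (Z : Submodule F V) (S : Finset ℕ) : Submodule F V := Z ⊔ (Sub F S).map φ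

/-- `S` is a matching modulo `Z`. -/
def Mt (Z : Submodule F V) (S : Finset ℕ) : Prop := ∀ ξ ∈ Sub F S, φ ξ ∈ Z → ξ = 0

/-- Both vectors of the pair `e` lie in `T`. -/
def Lin (e : ℕ) (T : Submodule F V) : Prop := ∀ y : F × F, φ (Pi.single e y) ∈ T

/-- The relations modulo `Z` supported on `S`. -/
def Nul (Z : Submodule F V) (S : Finset ℕ) : Submodule F (ℕ → F × F) := Sub F S ⊓ Z.comap φ

/-- `n` spans the relations modulo `Z` supported on `S`. -/
structure Fl (Z : Submodule F V) (S : Finset ℕ) (n : ℕ → F × F) : Prop where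
  mem : n ∈ Sub F S
  ker : φ n ∈ Z
  ne : n ≠ 0
  gen : ∀ ξ ∈ Sub F S, φ ξ ∈ Z → ∃ c : F, ξ = c • n

instance (Z : Submodule F V) [FiniteDimensional F Z] (S : Finset ℕ) :
    FiniteDimensional F (sp φ Z S) := by
  unfold sp; infer_instance

instance (Z : Submodule F V) (S : Finset ℕ) : FiniteDimensional F (Nul φ Z S) :=
  Submodule.finiteDimensional_of_le inf_le_left

variable {φ} {Z : Submodule F V}

lemma mem_sp {S : Finset ℕ} {x : V} : x ∈ sp φ Z S ↔ ∃ ξ ∈ Sub F S, x - φ ξ ∈ Z := by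
  simp only [sp, Submodule.mem_sup, Submodule.mem_map]
  constructor
  · rintro ⟨z, hz, _, ⟨ξ, hξ, rfl⟩, rfl⟩
    exact ⟨ξ, hξ, by simpa using hz⟩
  · rintro ⟨ξ, hξ, h⟩
    exact ⟨_, h, _, ⟨ξ, hξ, rfl⟩, by simp⟩

lemma apply_mem_sp {S : Finset ℕ} {ξ : ℕ → F × F} (h : ξ ∈ Sub F S) : φ ξ ∈ sp φ Z S :=
  mem_sp.2 ⟨ξ, h, by simp⟩

lemma le_sp (S : Finset ℕ) : Z ≤ sp φ Z S := le_sup_left

lemma sp_mono {S T : Finset ℕ} (h : S ⊆ T) : sp φ Z S ≤ sp φ Z T :=
  sup_le_sup_left (Submodule.map_mono (Sub_mono h)) _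

lemma sp_mono_left {Z' : Submodule F V} (h : Z ≤ Z') (S : Finset ℕ) : sp φ Z S ≤ sp φ Z' S :=
  sup_le_sup_right h _

lemma Lin.mono {e : ℕ} {T T' : Submodule F V} (h : Lin φ e T) (hT : T ≤ T') : Lin φ e T' :=
  fun y => hT (h y)

lemma lin_sp {S : Finset ℕ} {e : ℕ} (he : e ∈ S) : Lin φ e (sp φ Z S) :=
  fun y => apply_mem_sp (single_mem_Sub he y)

lemma not_mem_of_not_lin {S : Finset ℕ} {e : ℕ} (he : ¬ Lin φ e (sp φ Z S)) : e ∉ S :=
  fun h => he (lin_sp h)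

lemma apply_mem_of_lin {S : Finset ℕ} {T : Submodule F V} (h : ∀ e ∈ S, Lin φ e T)
    {ξ : ℕ → F × F} (hξ : ξ ∈ Sub F S) : φ ξ ∈ T := by
  have : ξ = ∑ e ∈ S, Pi.single e (ξ e) := by
    funext x
    by_cases hx : x ∈ S
    · rw [Finset.sum_apply, Finset.sum_eq_single x (fun b _ hb => Pi.single_eq_of_ne' hb _)
        (fun h => (h hx).elim)]
      simp
    · rw [hξ x hx, Finset.sum_apply]
      exact (Finset.sum_eq_zero fun b hb => Pi.single_eq_of_ne (by rintro rfl; exact hx hb) _).symm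
  rw [this, map_sum]
  exact T.sum_mem fun e he => h e he _

lemma sp_le {S : Finset ℕ} {T : Submodule F V} (hZ : Z ≤ T) (h : ∀ e ∈ S, Lin φ e T) :
    sp φ Z S ≤ T :=
  sup_le hZ (by rintro _ ⟨ξ, hξ, rfl⟩; exact apply_mem_of_lin h hξ)

lemma sp_empty : sp φ Z ∅ = Z :=
  le_antisymm (sp_le le_rfl (by simp)) (le_sp _)

lemma Mt.mono {S T : Finset ℕ} (h : Mt φ Z T) (hST : S ⊆ T) : Mt φ Z S :=
  fun ξ hξ => h ξ (Sub_mono hST hξ)

lemma Mt.mono_left {Z' : Submodule F V} {S : Finset ℕ} (h : Mt φ Z' S) (hZ : Z ≤ Z') :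
    Mt φ Z S := fun ξ hξ h' => h ξ hξ (hZ h')

lemma mt_empty : Mt φ Z ∅ := fun ξ hξ _ => by funext e; exact hξ e (by simp)

lemma mem_Nul {S : Finset ℕ} {ξ : ℕ → F × F} : ξ ∈ Nul φ Z S ↔ ξ ∈ Sub F S ∧ φ ξ ∈ Z := Iff.rfl

lemma mt_iff_nul {S : Finset ℕ} : Mt φ Z S ↔ finrank F (Nul φ Z S) = 0 := by
  rw [Submodule.finrank_eq_zero, Submodule.eq_bot_iff]
  exact ⟨fun h ξ hξ => h ξ hξ.1 hξ.2, fun h ξ h1 h2 => h ξ ⟨h1, h2⟩⟩

/-- Rank and nullity. -/
lemma rank_nul [FiniteDimensional F Z] (S : Finset ℕ) :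
    finrank F (sp φ Z S) + finrank F (Nul φ Z S) = finrank F Z + 2 * S.card := by
  let ψ : (Z × Sub F S) →ₗ[F] V :=
    LinearMap.coprod Z.subtype (φ ∘ₗ (Sub F S).subtype)
  have h1 := LinearMap.finrank_range_add_finrank_ker ψ
  have h2 : LinearMap.range ψ = sp φ Z S := by
    simp only [ψ, LinearMap.range_coprod, Submodule.range_subtype, LinearMap.range_comp,
      sp]
  have h3 : finrank F (LinearMap.ker ψ) = finrank F (Nul φ Z S) := by
    refine LinearEquiv.finrank_eq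
      { toFun := fun u => ⟨u.1.2.1, u.1.2.2, ?_⟩
        map_add' := fun _ _ => rfl
        map_smul' := fun _ _ => rfl
        invFun := fun ξ => ⟨(⟨-φ ξ.1, Z.neg_mem ξ.2.2⟩, ⟨ξ.1, ξ.2.1⟩), by simp [ψ]⟩
        left_inv := fun u => ?_
        right_inv := fun _ => rfl }
    · have : (u.1.1 : V) + φ u.1.2.1 = 0 := u.2
      have h' : φ u.1.2.1 = -(u.1.1 : V) := eq_neg_of_add_eq_zero_right this
      show φ u.1.2.1 ∈ Z
      rw [h']; exact Z.neg_mem u.1.1.2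
    · have : (u.1.1 : V) + φ u.1.2.1 = 0 := u.2
      ext1
      refine Prod.ext (Subtype.ext ?_) rfl
      exact (eq_neg_of_add_eq_zero_left this).symm
  rw [h2, h3, finrank_prod, finrank_Sub] at h1
  exact h1

lemma mt_iff_rank [FiniteDimensional F Z] {S : Finset ℕ} :
    Mt φ Z S ↔ finrank F (sp φ Z S) = finrank F Z + 2 * S.card := by
  have := rank_nul (φ := φ) (Z := Z) S
  rw [mt_iff_nul]; omega

lemma rank_le [FiniteDimensional F Z] (S : Finset ℕ) :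
    finrank F (sp φ Z S) ≤ finrank F Z + 2 * S.card := by
  have := rank_nul (φ := φ) (Z := Z) S
  omega

lemma rank_lt_of_not_mt [FiniteDimensional F Z] {S : Finset ℕ} (h : ¬ Mt φ Z S) :
    finrank F (sp φ Z S) < finrank F Z + 2 * S.card :=
  lt_of_le_of_ne (rank_le S) fun h' => h (mt_iff_rank.2 h')

lemma rank_insert_lt [FiniteDimensional F Z] {S : Finset ℕ} {e : ℕ} (h : ¬ Lin φ e (sp φ Z S)) :
    finrank F (sp φ Z S) < finrank F (sp φ Z (insert e S)) :=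
  Submodule.finrank_lt_finrank_of_lt (lt_of_le_of_ne (sp_mono (subset_insert _ _))
    fun h' => h (h' ▸ lin_sp (mem_insert_self _ _)))

/-- A set of larger rank has a pair outside a given subspace. -/
lemma exists_not_lin {S : Finset ℕ} {T : Submodule F V} [FiniteDimensional F T] (hZ : Z ≤ T)
    (h : finrank F T < finrank F (sp φ Z S)) : ∃ e ∈ S, ¬ Lin φ e T := by
  by_contra h'
  push Not at h'
  exact absurd (Submodule.finrank_mono (sp_le hZ h')) (not_le.2 h)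

lemma pair_dep {u w : F × F} (hw : w ≠ 0) (h : ∀ c : F, u ≠ c • w) (y : F × F) :
    ∃ s t : F, y = s • u + t • w := by
  have hd : u.1 * w.2 - u.2 * w.1 ≠ 0 := by
    intro hd
    by_cases h1 : w.1 = 0
    · have h2 : w.2 ≠ 0 := fun h2 => hw (Prod.ext h1 h2)
      refine h (u.2 / w.2) (Prod.ext ?_ ?_)
      · have : u.1 * w.2 = 0 := by rw [h1] at hd; simpa using hd
        simp [h1, (mul_eq_zero.1 this).resolve_right h2]
      · simp [h2]
    · refine h (u.1 / w.1) (Prod.ext ?_ ?_)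
      · simp [h1]
      · simp only [Prod.smul_snd, smul_eq_mul]
        field_simp
        linear_combination -hd
  refine ⟨(y.1 * w.2 - y.2 * w.1) / (u.1 * w.2 - u.2 * w.1),
    (u.1 * y.2 - u.2 * y.1) / (u.1 * w.2 - u.2 * w.1), Prod.ext ?_ ?_⟩
  · simp only [Prod.fst_add, Prod.smul_fst, smul_eq_mul]
    rw [div_mul_eq_mul_div, div_mul_eq_mul_div, ← add_div, eq_div_iff hd]; ring
  · simp only [Prod.snd_add, Prod.smul_snd, smul_eq_mul]
    rw [div_mul_eq_mul_div, div_mul_eq_mul_div, ← add_div, eq_div_iff hd]; ring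

/-- If two vectors of `T` have independent components at `e`, the pair `e` lies in `T`. -/
lemma lin_of_two {S : Finset ℕ} {T : Submodule F V} {e : ℕ} (hS : ∀ x ∈ S.erase e, Lin φ x T)
    {ξ η : ℕ → F × F} (hξ : ξ ∈ Sub F S) (hη : η ∈ Sub F S) (h1 : φ ξ ∈ T) (h2 : φ η ∈ T)
    (hw : η e ≠ 0) (h : ∀ c : F, ξ e ≠ c • η e) : Lin φ e T := by
  intro y
  obtain ⟨s, t, rfl⟩ := pair_dep hw h y
  have key : ∀ ζ ∈ Sub F S, φ ζ ∈ T → φ (Pi.single e (ζ e)) ∈ T := fun ζ hζ hT => by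
    have := T.sub_mem hT (apply_mem_of_lin hS (sub_single_mem hζ e))
    simpa using this
  rw [Pi.single_add, Pi.single_smul, Pi.single_smul, map_add, map_smul, map_smul]
  exact T.add_mem (T.smul_mem _ (key ξ hξ h1)) (T.smul_mem _ (key η hη h2))

/-- Adding a pair outside the span of a matching gives a matching or a flower. -/
lemma exists_fl {B : Finset ℕ} {g : ℕ} (hB : Mt φ Z B) (hg : ¬ Lin φ g (sp φ Z B))
    (h : ¬ Mt φ Z (insert g B)) : ∃ n, Fl φ Z (insert g B) n ∧ n g ≠ 0 := by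
  unfold Mt at h
  push Not at h
  obtain ⟨n, h1, h2, h3⟩ := h
  have hng : n g ≠ 0 := fun h0 => h3 (hB n (mem_Sub_of_insert h1 h0) h2)
  refine ⟨n, ⟨h1, h2, h3, fun ξ hξ hZ => ?_⟩, hng⟩
  by_cases hc : ∃ c : F, ξ g = c • n g
  · obtain ⟨c, hc⟩ := hc
    refine ⟨c, sub_eq_zero.1 (hB _ (mem_Sub_of_insert (e := g)
      (Submodule.sub_mem _ hξ (Submodule.smul_mem _ c h1)) (by simp [hc])) ?_)⟩
    rw [map_sub, map_smul]
    exact Z.sub_mem hZ (Z.smul_mem c h2)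
  · push Not at hc
    refine absurd (lin_of_two (S := insert g B) (fun x hx => lin_sp ?_) hξ h1 (le_sp _ hZ)
      (le_sp _ h2) hng hc) hg
    rcases mem_erase.1 hx with ⟨h4, h5⟩
    exact (mem_insert.1 h5).resolve_left h4

lemma Fl.mt_erase {S : Finset ℕ} {n : ℕ → F × F} (h : Fl φ Z S n) {f : ℕ} (hf : n f ≠ 0) :
    Mt φ Z (S.erase f) := by
  intro ξ hξ hZ
  obtain ⟨c, rfl⟩ := h.gen ξ (Sub_mono (erase_subset _ _) hξ) hZ
  have : c • n f = 0 := hξ f (by simp)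
  rw [(smul_eq_zero.1 this).resolve_right hf, zero_smul]

lemma Fl.not_mt {S T : Finset ℕ} {n : ℕ → F × F} (h : Fl φ Z S n) (hT : n ∈ Sub F T) :
    ¬ Mt φ Z T := fun h' => h.ne (h' n hT h.ker)

lemma Fl.ne_of_mt {S : Finset ℕ} {n : ℕ → F × F} (h : Fl φ Z S n) {f : ℕ}
    (hf : Mt φ Z (S.erase f)) : n f ≠ 0 := fun h0 => h.not_mt (mem_Sub_erase h.mem h0) hf

lemma Fl.exists_not_mem {S T : Finset ℕ} {n : ℕ → F × F} (h : Fl φ Z S n) (hT : Mt φ Z T) :
    ∃ f, n f ≠ 0 ∧ f ∉ T := by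
  by_contra h'
  push Not at h'
  exact h.not_mt (fun e he => by by_contra h0; exact he (h' e h0)) hT

/-- A vector of the span of a flower with `f` removed has a component at `f` along `n f`. -/
lemma Fl.comp {S : Finset ℕ} {n : ℕ → F × F} (h : Fl φ Z S n) {f : ℕ} {ξ : ℕ → F × F}
    (hξ : ξ ∈ Sub F S) (hx : φ ξ ∈ sp φ Z (S.erase f)) :
    ∃ c : F, ξ f = c • n f ∧ ξ - c • n ∈ Sub F (S.erase f) := by
  obtain ⟨η, hη, hZ⟩ := mem_sp.1 hx
  obtain ⟨c, hc⟩ := h.gen (ξ - η) (Submodule.sub_mem _ hξ (Sub_mono (erase_subset _ _) hη))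
    (by rwa [map_sub])
  have e1 : ξ - c • n = η := by rw [← hc]; abel
  refine ⟨c, ?_, e1 ▸ hη⟩
  have := congrFun hc f
  simpa [hη f (by simp)] using this

lemma Fl.not_lin {S : Finset ℕ} {n : ℕ → F × F} (h : Fl φ Z S n) {f : ℕ} (hf : n f ≠ 0) :
    ¬ Lin φ f (sp φ Z (S.erase f)) := by
  intro hl
  have hfS := mem_of_ne h.mem hf
  obtain ⟨c, hc, -⟩ := h.comp (single_mem_Sub hfS (1, 0)) (hl _)
  obtain ⟨d, hd, -⟩ := h.comp (single_mem_Sub hfS (0, 1)) (hl _)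
  simp only [Pi.single_eq_same, Prod.ext_iff, Prod.smul_fst, Prod.smul_snd, smul_eq_mul] at hc hd
  have h1 : (c * (n f).1) * (d * (n f).2) = (c * (n f).2) * (d * (n f).1) := by ring
  rw [← hc.1, ← hc.2, ← hd.1, ← hd.2] at h1
  simp at h1

lemma Fl.rank [FiniteDimensional F Z] {S : Finset ℕ} {n : ℕ → F × F} (h : Fl φ Z S n) :
    finrank F (sp φ Z S) + 1 = finrank F Z + 2 * S.card := by
  rw [← rank_nul (φ := φ) S]
  congr 1
  symm
  have : Nul φ Z S = Submodule.span F {n} := by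
    refine le_antisymm (fun ξ hξ => ?_) (Submodule.span_le.2 (by
      rintro _ rfl; exact ⟨h.mem, h.ker⟩))
    obtain ⟨c, rfl⟩ := h.gen ξ hξ.1 hξ.2
    exact Submodule.smul_mem _ _ (Submodule.subset_span rfl)
  rw [this, finrank_span_singleton h.ne]

lemma fl_of_nul_le {S : Finset ℕ} {n : ℕ → F × F} (h1 : n ∈ Sub F S) (h2 : φ n ∈ Z) (h3 : n ≠ 0)
    (h4 : finrank F (Nul φ Z S) ≤ 1) : Fl φ Z S n := by
  refine ⟨h1, h2, h3, fun ξ hξ hZ => ?_⟩
  have hle : Submodule.span F {n} ≤ Nul φ Z S := Submodule.span_le.2 (by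
    rintro _ rfl; exact ⟨h1, h2⟩)
  have := Submodule.eq_of_le_of_finrank_le hle (by rw [finrank_span_singleton h3]; exact h4)
  have hm : ξ ∈ Submodule.span F {n} := this ▸ (⟨hξ, hZ⟩ : ξ ∈ Nul φ Z S)
  obtain ⟨c, hc⟩ := Submodule.mem_span_singleton.1 hm
  exact ⟨c, hc.symm⟩

lemma Fl.nul_eq [FiniteDimensional F Z] {S : Finset ℕ} {n : ℕ → F × F} (h : Fl φ Z S n) :
    finrank F (Nul φ Z S) = 1 := by
  have h1 := h.rank
  have h2 := rank_nul (φ := φ) (Z := Z) S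
  omega

lemma nul_erase_lt {S : Finset ℕ} (h : ¬ Mt φ Z S) :
    ∃ e ∈ S, finrank F (Nul φ Z (S.erase e)) < finrank F (Nul φ Z S) := by
  unfold Mt at h
  push Not at h
  obtain ⟨n, h1, h2, h3⟩ := h
  obtain ⟨e, he⟩ := Function.ne_iff.1 h3
  refine ⟨e, mem_of_ne h1 he, Submodule.finrank_lt_finrank_of_lt (lt_of_le_of_ne
    (inf_le_inf_right _ (Sub_mono (erase_subset _ _))) fun h' => ?_)⟩
  have : n ∈ Nul φ Z (S.erase e) := h' ▸ (⟨h1, h2⟩ : n ∈ Nul φ Z S)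
  exact he (this.1 e (by simp))

lemma nul_mono {S T : Finset ℕ} (h : S ⊆ T) :
    finrank F (Nul φ Z S) ≤ finrank F (Nul φ Z T) :=
  Submodule.finrank_mono (inf_le_inf_right _ (Sub_mono h))

end Pool.Agent.MP_0c5eb8_lc.H40
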