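import Pool.Agent.Shared.H56.Lists

/-!
Polynomial time operations on finite sets of natural numbers, and hill climbing.
-/

namespace Pool.Agent.MP_0c5eb8_lc.H40

open Pool.Agent.Shared.H56 Polynomial

variable {α β γ σ : Type} [N487b59b3 α] [N487b59b3 β] [N487b59b3 γ] [N487b59b3 σ]

/-- Polynomially bounded functions. -/
def PB (f : α → ℕ) : Prop := ∃ P : Polynomial ℕ, ∀ a, f a ≤ P.eval (sz a)

lemma PB.const (c : ℕ) : PB (fun _ : α => c) := ⟨C c, by simp⟩

lemma PB.add {f g : α → ℕ} (hf : PB f) (hg : PB g) : PB (fun a => f a + g a) := by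
  obtain ⟨P, hP⟩ := hf
  obtain ⟨Q, hQ⟩ := hg
  exact ⟨P + Q, fun a => by simpa using add_le_add (hP a) (hQ a)⟩

lemma PB.mul {f g : α → ℕ} (hf : PB f) (hg : PB g) : PB (fun a => f a * g a) := by
  obtain ⟨P, hP⟩ := hf
  obtain ⟨Q, hQ⟩ := hg
  exact ⟨P * Q, fun a => by simpa using Nat.mul_le_mul (hP a) (hQ a)⟩

lemma PB.sz {f : α → β} (hf : PT f) : PB (fun a => sz (f a)) := hf.size

lemma sz_list_le {l : List β} {n k : ℕ} (hn : l.length ≤ n) (h : ∀ x ∈ l, sz x ≤ k) :
    sz l ≤ n * (2 * k + 1) := by
  refine le_trans ?_ (Nat.mul_le_mul_right _ hn)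
  clear hn
  induction l with
  | nil => simp
  | cons x l ih =>
    have h1 := h x List.mem_cons_self
    have h2 := ih fun y hy => h y (List.mem_cons_of_mem _ hy)
    simp only [sz_cons, List.length_cons]
    nlinarith

theorem pt_foldl_inv {f : α → γ → β → γ} {i : α → γ} {l : α → List β}
    (hf : PT fun p : α × γ × β => f p.1 p.2.1 p.2.2) (hi : PT i) (hl : PT l)
    (I : α → γ → Prop) (b : α → ℕ) (hb : PB b) (h0 : ∀ a, I a (i a))
    (h1 : ∀ a c x, x ∈ l a → I a c → I a (f a c x)) (h2 : ∀ a c, I a c → sz c ≤ b a) :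
    PT (fun a => (l a).foldl (f a) (i a)) := by
  obtain ⟨P, hP⟩ := hb
  refine PT.foldl hf hi hl ⟨P, fun a k => (h2 a _ ?_).trans (hP a)⟩
  have key : ∀ (t : List β) (c : γ), (∀ x ∈ t, x ∈ l a) → I a c → I a (t.foldl (f a) c) := by
    intro t
    induction t with
    | nil => intro c _ h; exact h
    | cons x t ih =>
      intro c ht h
      exact ih _ (fun y hy => ht y (List.mem_cons_of_mem _ hy)) (h1 a c x (ht x List.mem_cons_self) h)
  exact key _ _ (fun x hx => List.mem_of_mem_take hx) (h0 a)

/-! ### Finite sets -/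

lemma enc_finset (s : Finset ℕ) : enc s = enc (s.sort (· ≤ ·)) := rfl

lemma sz_finset (s : Finset ℕ) : sz s = ∑ x ∈ s, (2 * sz x + 1) := by
  have : ∀ l : List ℕ, sz l = (l.map fun x => 2 * sz x + 1).sum := by
    intro l; induction l with
    | nil => simp
    | cons x l ih => simp [ih]
  rw [show sz s = sz (s.sort (· ≤ ·)) from rfl, this, ← Finset.sum_map_toList]
  exact ((Finset.sort_perm_toList s _).map _).sum_eq

lemma sz_mono {s t : Finset ℕ} (h : s ⊆ t) : sz s ≤ sz t := by
  rw [sz_finset, sz_finset]; exact Finset.sum_le_sum_of_subset h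

lemma card_le_sz (s : Finset ℕ) : s.card ≤ sz s := by
  rw [← Finset.length_sort (· ≤ ·)]; exact length_le_sz _

@[fun_prop] theorem pt_sort {s : α → Finset ℕ} (hs : PT s) : PT (fun a => (s a).sort (· ≤ ·)) :=
  hs.congr' fun _ => rfl

theorem pt_of_list {s : α → Finset ℕ} {l : α → List ℕ} (hl : PT l)
    (h1 : ∀ a, (l a).Pairwise (· < ·)) (h2 : ∀ a x, x ∈ s a ↔ x ∈ l a) : PT s :=
  hl.congr' fun a => by
    have e : s a = (l a).toFinset := by ext x; simp [h2]
    rw [enc_finset, e, (List.toFinset_sort (· ≤ ·) ((h1 a).imp ne_of_lt)).2 ((h1 a).imp le_of_lt)]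

lemma pairwise_lt_sort (s : Finset ℕ) : (s.sort (· ≤ ·)).Pairwise (· < ·) :=
  (Finset.sortedLT_sort s).pairwise

@[fun_prop] theorem pt_filter {s : α → Finset ℕ} {p : α → ℕ → Prop} [∀ a, DecidablePred (p a)]
    (hp : PT fun x : α × ℕ => decide (p x.1 x.2)) (hs : PT s) :
    PT (fun a => (s a).filter (p a)) :=
  pt_of_list (PT.filter (f := fun a x => decide (p a x)) hp (pt_sort hs))
    (fun a => (pairwise_lt_sort _).filter _) (fun a x => by simp)

@[fun_prop] theorem pt_mem {s : α → Finset ℕ} {x : α → ℕ} [∀ a, Decidable (x a ∈ s a)]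
    (hx : PT x) (hs : PT s) : PT (fun a => decide (x a ∈ s a)) :=
  (PT.decMem hx (pt_sort hs)).congr fun a => by simp

@[fun_prop] theorem pt_notMem {s : α → Finset ℕ} {x : α → ℕ} [∀ a, Decidable (x a ∉ s a)]
    (hx : PT x) (hs : PT s) : PT (fun a => decide (x a ∉ s a)) :=
  (pt_mem hx hs).not.congr fun a => by simp

@[fun_prop] theorem pt_card {s : α → Finset ℕ} (hs : PT s) : PT (fun a => (s a).card) :=
  (pt_sort hs).length.congr fun a => by simp

@[fun_prop] theorem pt_un_card {s : α → Finset ℕ} (hs : PT s) : PT (fun a => un (s a).card) :=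
  (pt_sort hs).un_length.congr fun a => by simp

@[fun_prop] theorem pt_insert {s : α → Finset ℕ} {x : α → ℕ} (hx : PT x) (hs : PT s) :
    PT (fun a => insert (x a) (s a)) := by
  refine pt_of_list (l := fun a => ((s a).sort (· ≤ ·)).filter (fun y => decide (y < x a)) ++
    x a :: ((s a).sort (· ≤ ·)).filter (fun y => decide (x a < y))) (by fun_prop) (fun a => ?_)
    (fun a y => ?_)
  · rw [List.pairwise_append, List.pairwise_cons]
    refine ⟨(pairwise_lt_sort _).filter _, ⟨fun y hy => by simpa using (List.mem_filter.1 hy).2,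
      (pairwise_lt_sort _).filter _⟩, fun y hy z hz => ?_⟩
    have h1 : y < x a := by simpa using (List.mem_filter.1 hy).2
    rcases List.mem_cons.1 hz with rfl | hz
    · exact h1
    · exact h1.trans (by simpa using (List.mem_filter.1 hz).2)
  · simp only [Finset.mem_insert, List.mem_append, List.mem_filter, Finset.mem_sort,
      decide_eq_true_eq, List.mem_cons]
    rcases lt_trichotomy y (x a) with h | h | h
    · simp [h, h.ne, h.not_gt]
    · simp [h]
    · simp [h, h.ne', h.not_gt]

@[fun_prop] theorem pt_toFinset {l : α → List ℕ} (hl : PT l) : PT (fun a => (l a).toFinset) := by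
  refine (PT.foldl_add (f := fun _ (c : Finset ℕ) x => insert x c) (i := fun _ => ∅) (by fun_prop)
    (by fun_prop) hl.reverse ⟨2 * X + 1, fun a c x _ => ?_⟩).congr fun a => ?_
  · by_cases h : x ∈ c
    · rw [Finset.insert_eq_of_mem h]; omega
    · rw [sz_finset, Finset.sum_insert h, ← sz_finset]; simp; omega
  · rw [List.foldl_reverse]
    induction l a with
    | nil => rfl
    | cons x t ih => simp [ih]

@[fun_prop] theorem pt_union {s t : α → Finset ℕ} (hs : PT s) (ht : PT t) :
    PT (fun a => s a ∪ t a) :=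
  (pt_toFinset ((pt_sort hs).append (pt_sort ht))).congr fun a => by ext x; simp

@[fun_prop] theorem pt_erase {s : α → Finset ℕ} {x : α → ℕ} (hs : PT s) (hx : PT x) :
    PT (fun a => (s a).erase (x a)) :=
  (pt_filter (p := fun a y => y ≠ x a) (by fun_prop) hs).congr fun a => by
    ext y; simp [and_comm]

@[fun_prop] theorem pt_sdiff {s t : α → Finset ℕ} (hs : PT s) (ht : PT t) :
    PT (fun a => s a \ t a) :=
  (pt_filter (p := fun a y => y ∉ t a) (by fun_prop) hs).congr fun a => by ext y; simp

@[fun_prop] theorem pt_inter {s t : α → Finset ℕ} (hs : PT s) (ht : PT t) :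
    PT (fun a => s a ∩ t a) :=
  (pt_filter (p := fun a y => y ∈ t a) (by fun_prop) hs).congr fun a => by ext y; simp

@[fun_prop] theorem pt_symmDiff {s t : α → Finset ℕ} (hs : PT s) (ht : PT t) :
    PT (fun a => symmDiff (s a) (t a)) :=
  (pt_union (pt_sdiff hs ht) (pt_sdiff ht hs)).congr fun _ => rfl

@[fun_prop] theorem pt_subset {s t : α → Finset ℕ} [∀ a, Decidable (s a ⊆ t a)] (hs : PT s)
    (ht : PT t) : PT (fun a => decide (s a ⊆ t a)) :=
  (PT.decEq (pt_sdiff hs ht) (PT.const ∅)).congr fun a => by simp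

@[fun_prop] theorem pt_range {n : α → ℕ} (hn : PT fun a => un (n a)) :
    PT (fun a => Finset.range (n a)) :=
  (PT.range hn).congr' fun a => by rw [enc_finset, Finset.sort_range]

@[fun_prop] theorem pt_singleton {x : α → ℕ} (hx : PT x) : PT (fun a => ({x a} : Finset ℕ)) :=
  (pt_insert hx (PT.const ∅)).congr fun _ => rfl

/-! ### Hill climbing -/

/-- One step: the first candidate of larger potential, if any. -/
def climbStep {σ : Type} (cands : σ → List σ) (pot : σ → ℕ) (s : σ) : σ :=
  ((cands s).filter fun t => decide (pot s < pot t)).headD s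

/-- `N` steps of hill climbing. -/
def climb {σ : Type} (cands : σ → List σ) (pot : σ → ℕ) (N : ℕ) (s : σ) : σ :=
  (climbStep cands pot)^[N] s

lemma climbStep_cases {σ : Type} (cands : σ → List σ) (pot : σ → ℕ) (s : σ) :
    (climbStep cands pot s = s ∧ ∀ t ∈ cands s, pot t ≤ pot s) ∨
      (climbStep cands pot s ∈ cands s ∧ pot s < pot (climbStep cands pot s)) := by
  unfold climbStep
  cases h : (cands s).filter fun t => decide (pot s < pot t) with
  | nil =>
    refine Or.inl ⟨rfl, fun t ht => ?_⟩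
    by_contra h'
    have : t ∈ (cands s).filter fun t => decide (pot s < pot t) :=
      List.mem_filter.2 ⟨ht, by simpa using h'⟩
    simp [h] at this
  | cons x l =>
    have : x ∈ (cands s).filter fun t => decide (pot s < pot t) := by simp [h]
    exact Or.inr ⟨(List.mem_filter.1 this).1, by simpa using (List.mem_filter.1 this).2⟩

lemma climb_inv {σ : Type} {cands : σ → List σ} {pot : σ → ℕ} (I : σ → Prop)
    (h : ∀ s t, I s → t ∈ cands s → pot s < pot t → I t) (N : ℕ) {s : σ} (h0 : I s) :
    I (climb cands pot N s) := by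
  induction N with
  | zero => exact h0
  | succ N ih =>
    rw [climb, Function.iterate_succ_apply']
    rcases climbStep_cases cands pot (climb cands pot N s) with h1 | h1
    · exact h1.1.symm ▸ ih
    · exact h _ _ ih h1.1 h1.2

theorem climb_spec {σ : Type} {cands : σ → List σ} {pot : σ → ℕ} (I : σ → Prop)
    (h : ∀ s t, I s → t ∈ cands s → pot s < pot t → I t) {N : ℕ} (hN : ∀ s, I s → pot s < N)
    {s : σ} (h0 : I s) (r : σ) (hr : r = climb cands pot N s) :
    I r ∧ ∀ t ∈ cands r, pot t ≤ pot r := by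
  subst hr
  refine ⟨climb_inv I h N h0, ?_⟩
  have key : ∀ k, (∀ t ∈ cands (climb cands pot k s), pot t ≤ pot (climb cands pot k s)) ∨
      k ≤ pot (climb cands pot k s) := by
    intro k
    induction k with
    | zero => exact Or.inr (Nat.zero_le _)
    | succ k ih =>
      have e : climb cands pot (k + 1) s = climbStep cands pot (climb cands pot k s) :=
        Function.iterate_succ_apply' _ _ _
      rcases climbStep_cases cands pot (climb cands pot k s) with h1 | h1
      · rw [e, h1.1]; exact Or.inl h1.2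
      · rcases ih with h2 | h2
        · exact absurd (h2 _ h1.1) (not_le.2 h1.2)
        · rw [e]; exact Or.inr (by omega)
  exact (key N).resolve_right (not_le.2 (hN _ (climb_inv I h N h0)))

theorem pt_climb {cands : α → σ → List σ} {pot : α → σ → ℕ} {N : α → ℕ} {i : α → σ}
    (hc : PT fun p : α × σ => cands p.1 p.2) (hp : PT fun p : α × σ => pot p.1 p.2)
    (hN : PT fun a => un (N a)) (hi : PT i) (I : α → σ → Prop) (b : α → ℕ) (hb : PB b)
    (h0 : ∀ a, I a (i a))
    (h1 : ∀ a s t, I a s → t ∈ cands a s → pot a s < pot a t → I a t)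
    (h2 : ∀ a s, I a s → sz s ≤ b a) :
    PT (fun a => climb (cands a) (pot a) (N a) (i a)) := by
  have hs : PT fun p : α × σ × Bool => climbStep (cands p.1) (pot p.1) p.2.1 := by
    unfold climbStep
    have h3 : PT fun p : α × σ × Bool => cands p.1 p.2.1 :=
      hc.comp (g := fun p : α × σ × Bool => (p.1, p.2.1)) (by fun_prop)
    have h4 : PT fun p : (α × σ × Bool) × σ => pot p.1.1 p.1.2.1 :=
      hp.comp (g := fun p : (α × σ × Bool) × σ => (p.1.1, p.1.2.1)) (by fun_prop)
    have h5 : PT fun p : (α × σ × Bool) × σ => pot p.1.1 p.2 :=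
      hp.comp (g := fun p : (α × σ × Bool) × σ => (p.1.1, p.2)) (by fun_prop)
    exact PT.headD (PT.filter (f := fun p t => decide (pot p.1 p.2.1 < pot p.1 t))
      (PT.decLt h4 h5) h3) (by fun_prop)
  refine (pt_foldl_inv (f := fun a s (_ : Bool) => climbStep (cands a) (pot a) s) hs hi hN I b hb h0
    (fun a s _ _ h => ?_) h2).congr fun a => ?_
  · rcases climbStep_cases (cands a) (pot a) s with h3 | h3
    · exact h3.1.symm ▸ h
    · exact h1 a _ _ h h3.1 h3.2
  · simp only [un, climb]
    generalize i a = s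
    induction N a generalizing s with
    | zero => rfl
    | succ k ih => rw [List.replicate_succ, List.foldl_cons, ih, Function.iterate_succ_apply]

end Pool.Agent.MP_0c5eb8_lc.H40
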