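import Pool.Agent.MP_0c5eb8_lc.H40.Moves

/-!
Double flowers, removal of pairs, and the invariants of the top level.
-/

open Module Finset

namespace Pool.Agent.MP_0c5eb8_lc.H40

variable {F V : Type} [Field F] [AddCommGroup V] [Module F V] {φ : (ℕ → F × F) →ₗ[F] V}
variable {Z K : Submodule F V} {E B : Finset ℕ} {lab : ℕ → ℕ}

variable (φ) in
/-- The point `p` lies in the span of every relation supported on `D`. -/
def PtOK (Z : Submodule F V) (D : Finset ℕ) (p : V) : Prop :=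
  ∀ ξ ∈ Sub F D, φ ξ ∈ Z → ξ ≠ 0 → ∀ T, ξ ∈ Sub F T → p ∈ sp φ Z T

/-- End of the search for an augmentation along a point. -/
theorem point_end [FiniteDimensional F Z] {D : Finset ℕ} {p : V} (hp : PtOK φ Z D p)
    (hD : finrank F Z + 2 * B.card + 2 ≤ finrank F (sp φ Z D)) (hB : Mt φ Z B)
    (hpB : p ∉ sp φ Z B)
    (hmax : ∀ e ∈ D, e ∉ B → ∀ g ∈ B, Mt φ Z (insert e (B.erase g)) →
      p ∉ sp φ Z (insert e (B.erase g)) → (insert e (B.erase g) ∩ D).card ≤ (B ∩ D).card) :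
    ∃ e ∈ D, e ∉ B ∧ Mt φ Z (insert e B) := by
  have hT : finrank F (sp φ Z B ⊔ Submodule.span F {p} : Submodule F V) < finrank F (sp φ Z D) := by
    have h1 := Submodule.finrank_add_le_finrank_add_finrank (sp φ Z B) (Submodule.span F {p})
    have h2 : finrank F (Submodule.span F {p}) ≤ 1 := by
      simpa using finrank_span_le_card (R := F) ({p} : Set V)
    have h3 := rank_le (φ := φ) (Z := Z) B
    omega
  obtain ⟨e, he, hl⟩ := exists_not_lin ((le_sp B).trans le_sup_left) hT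
  have hl' : ¬ Lin φ e (sp φ Z B) := fun h => hl (h.mono le_sup_left)
  have heB := not_mem_of_not_lin hl'
  by_contra hcon
  obtain ⟨n, hn, hne⟩ := exists_fl hB hl' fun h => hcon ⟨e, he, heB, h⟩
  have hp2 : p ∉ sp φ Z (insert e B) := by
    intro h
    obtain ⟨ξ, hξ, hZ⟩ := mem_sp.1 h
    by_cases hc : ∃ c : F, ξ e = c • n e
    · obtain ⟨c, hc⟩ := hc
      refine hpB (mem_sp.2 ⟨ξ - c • n, mem_Sub_of_insert (e := e)
        (Submodule.sub_mem _ hξ (Submodule.smul_mem _ c hn.mem)) (by simp [hc]), ?_⟩)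
      rw [map_sub, map_smul, ← sub_add]
      exact Z.add_mem hZ (Z.smul_mem c hn.ker)
    · push Not at hc
      refine hl (lin_of_two (S := insert e B) (fun x hx => ?_) hξ hn.mem ?_
        (Submodule.mem_sup_left (le_sp _ hn.ker)) hne hc)
      · rw [erase_insert heB] at hx
        exact (lin_sp hx).mono le_sup_left
      · have : φ ξ = p - (p - φ ξ) := by abel
        rw [this]
        exact Submodule.sub_mem _ (Submodule.mem_sup_right (Submodule.subset_span rfl))
          (Submodule.mem_sup_left (le_sp _ hZ))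
  have : ∃ g, n g ≠ 0 ∧ g ∉ D := by
    by_contra h
    push Not at h
    exact hp2 (hp n (fun x hx => by by_contra h0; exact hx (h x h0)) hn.ker hn.ne _ hn.mem)
  obtain ⟨g, hg, hgD⟩ := this
  have hge : g ≠ e := fun h => hgD (h ▸ he)
  have hgB : g ∈ B := (mem_insert.1 (mem_of_ne hn.mem hg)).resolve_left hge
  have := hmax e he heB g hgB (erase_ins hge B ▸ hn.mt_erase hg)
    (fun h => hp2 (sp_mono (insert_subset_insert _ (erase_subset _ _)) h))
  rw [card_inter_swap heB he hgD] at this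
  omega

variable (φ) in
/-- The relations supported on `D` are spanned by two relations with disjoint supports. -/
structure Triv (Z : Submodule F V) (D : Finset ℕ) (n n' : ℕ → F × F) : Prop where
  mem : n ∈ Sub F D
  mem' : n' ∈ Sub F D
  ker : φ n ∈ Z
  ker' : φ n' ∈ Z
  ne : n ≠ 0
  ne' : n' ≠ 0
  disj : ∀ x, n x = 0 ∨ n' x = 0
  gen : ∀ ξ ∈ Sub F D, φ ξ ∈ Z → ∃ a b : F, ξ = a • n + b • n'

lemma Triv.mt {D : Finset ℕ} {n n' : ℕ → F × F} (h : Triv φ Z D n n') {x y : ℕ} (hx : n x ≠ 0)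
    (hy : n' y ≠ 0) : Mt φ Z ((D.erase x).erase y) := by
  intro ξ hξ hZ
  obtain ⟨a, b, rfl⟩ := h.gen ξ (Sub_mono ((erase_subset _ _).trans (erase_subset _ _)) hξ) hZ
  have h1 := hξ x (by simp)
  have h2 := hξ y (by simp)
  simp only [Pi.add_apply, Pi.smul_apply, (h.disj x).resolve_left hx, (h.disj y).resolve_right hy,
    smul_zero, add_zero, zero_add, smul_eq_zero, hx, hy, or_false] at h1 h2
  simp [h1, h2]

lemma Triv.ne_of {D : Finset ℕ} {n n' : ℕ → F × F} (h : Triv φ Z D n n') {x y : ℕ} (hx : n x ≠ 0)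
    (hy : n' y ≠ 0) : x ≠ y := fun e => hy (e ▸ (h.disj x).resolve_left hx)

/-- A nonzero relation meets every pair whose removal leaves a matching. -/
lemma meets_of_mt {D : Finset ℕ} {x y : ℕ} (h : Mt φ Z ((D.erase x).erase y)) {ξ : ℕ → F × F}
    (h1 : ξ ∈ Sub F D) (h2 : φ ξ ∈ Z) (h3 : ξ ≠ 0) : ξ x ≠ 0 ∨ ξ y ≠ 0 := by
  by_contra h'
  push Not at h'
  exact h3 (h ξ (mem_Sub_erase (mem_Sub_erase h1 h'.1) h'.2) h2)

variable (φ) in
open Classical in
/-- The pairs whose removal leaves a matching. -/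
noncomputable def circ (Z : Submodule F V) (T : Finset ℕ) : Finset ℕ :=
  T.filter fun x => Mt φ Z (T.erase x)

lemma Fl.mem_circ {T : Finset ℕ} {n : ℕ → F × F} (h : Fl φ Z T n) {x : ℕ} :
    x ∈ circ φ Z T ↔ n x ≠ 0 := by
  simp only [circ, mem_filter]
  exact ⟨fun h' => h.ne_of_mt h'.2, fun h' => ⟨mem_of_ne h.mem h', h.mt_erase h'⟩⟩

variable (φ) in
/-- `D` contains a large matching or is a nontrivial double flower. -/
def Found (Z : Submodule F V) (D : Finset ℕ) : Prop :=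
  (∃ h ∈ D, Mt φ Z (D.erase h)) ∨ ∃ e ∈ D, ∃ f ∈ D,
    (¬ sp φ Z (circ φ Z (D.erase e) \ circ φ Z (D.erase f)) ⊓ sp φ Z (circ φ Z (D.erase f)) ≤ Z) ∧
    ∀ p ∈ sp φ Z (circ φ Z (D.erase e) \ circ φ Z (D.erase f)) ⊓ sp φ Z (circ φ Z (D.erase f)),
      p ∉ Z → PtOK φ Z D p

theorem dichotomy {T : Finset ℕ} {n : ℕ → F × F} (hn : Fl φ Z T n) {e : ℕ}
    (he : ¬ Lin φ e (sp φ Z T)) :
    Found φ Z (insert e T) ∨ ∃ n', n' e ≠ 0 ∧ Triv φ Z (insert e T) n n' := by
  classical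
  by_cases hA : ∃ h ∈ insert e T, Mt φ Z ((insert e T).erase h)
  · exact Or.inl (Or.inl hA)
  have heT := not_mem_of_not_lin he
  obtain ⟨f, hf⟩ := Function.ne_iff.1 hn.ne
  replace hf : n f ≠ 0 := hf
  have hfT := mem_of_ne hn.mem hf
  have hfe : f ≠ e := fun h => heT (h ▸ hfT)
  obtain ⟨n', hn', hn'e⟩ := exists_fl (hn.mt_erase hf)
    (fun h => he (h.mono (sp_mono (erase_subset _ _))))
    (fun h => hA ⟨f, mem_insert_of_mem hfT, erase_ins hfe T ▸ h⟩)
  rw [← erase_ins hfe] at hn'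
  have hn'f : n' f = 0 := hn'.mem f (by simp)
  have hne0 : n e = 0 := hn.mem e heT
  have m1 : n ∈ Sub F (insert e T) := Sub_mono (subset_insert _ _) hn.mem
  have m2 : n' ∈ Sub F (insert e T) := Sub_mono (erase_subset _ _) hn'.mem
  have hgen : ∀ ξ ∈ Sub F (insert e T), φ ξ ∈ Z → ∃ a b : F, ξ = a • n + b • n' := by
    intro ξ hξ hZ
    by_cases hc : ∃ c : F, ξ e = c • n' e
    · obtain ⟨c, hc⟩ := hc
      obtain ⟨a, ha⟩ := hn.gen (ξ - c • n') (mem_Sub_of_insert (e := e)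
        (Submodule.sub_mem _ hξ (Submodule.smul_mem _ c m2)) (by simp [hc])) (by
          rw [map_sub, map_smul]; exact Z.sub_mem hZ (Z.smul_mem c hn'.ker))
      exact ⟨a, c, by rw [← ha]; abel⟩
    · push Not at hc
      refine absurd (lin_of_two (S := insert e T) (fun x hx => ?_) hξ m2 (le_sp _ hZ)
        (le_sp _ hn'.ker) hn'e hc) he
      rw [erase_insert heT] at hx
      exact lin_sp hx
  by_cases hd : ∀ x, n x = 0 ∨ n' x = 0
  · exact Or.inr ⟨n', hn'e, m1, m2, hn.ker, hn'.ker, hn.ne, hn'.ne, hd, hgen⟩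
  push Not at hd
  obtain ⟨x0, hx0, hx0'⟩ := hd
  refine Or.inl (Or.inr ⟨e, mem_insert_self _ _, f, mem_insert_of_mem hfT, ?_⟩)
  rw [erase_insert heT]
  set C := circ φ Z T
  set C' := circ φ Z ((insert e T).erase f)
  have hC : ∀ x, x ∈ C ↔ n x ≠ 0 := fun x => hn.mem_circ
  have hC' : ∀ x, x ∈ C' ↔ n' x ≠ 0 := fun x => hn'.mem_circ
  let η : ℕ → F × F := fun x => if n' x = 0 then n x else 0
  have hη1 : η ∈ Sub F (C \ C') := fun x hx => by
    simp only [mem_sdiff, hC, hC', not_and, not_not] at hx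
    by_cases h1 : n' x = 0
    · by_cases h2 : n x = 0
      · simp [η, h2]
      · exact absurd h1 (hx h2)
    · simp [η, h1]
  have hη2 : η - n ∈ Sub F C' := fun x hx => by
    simp only [hC', not_not] at hx
    simp [η, hx]
  have hη3 : φ η ∈ sp φ Z C' := mem_sp.2 ⟨η - n, hη2, by simpa using hn.ker⟩
  have hη4 : φ η ∉ Z := fun h => by
    obtain ⟨c, hc⟩ := hn.gen η (fun x hx => by simp [η, hn.mem x hx]) h
    have h1 := congrFun hc f
    have h2 := congrFun hc x0
    simp only [η, hn'f, if_true, Pi.smul_apply, hx0', if_false] at h1 h2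
    rw [(smul_eq_zero.1 h2.symm).resolve_right hx0, zero_smul] at h1
    exact hf h1
  refine ⟨fun h => hη4 (h ⟨apply_mem_sp hη1, hη3⟩), fun p hp _ ξ hξ hZ hξ0 U hU => ?_⟩
  -- `p` is a multiple of `φ η` modulo `Z`
  obtain ⟨ξ1, h1, h1Z⟩ := mem_sp.1 hp.1
  obtain ⟨ξ2, h2, h2Z⟩ := mem_sp.1 hp.2
  have s1 : C \ C' ⊆ insert e T := fun x hx =>
    mem_of_ne m1 ((hC x).1 (mem_sdiff.1 hx).1)
  have s2 : C' ⊆ insert e T := fun x hx => mem_of_ne m2 ((hC' x).1 hx)
  obtain ⟨a, b, hab⟩ := hgen (ξ1 - ξ2) (Submodule.sub_mem _ (Sub_mono s1 h1) (Sub_mono s2 h2)) (by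
    have := Z.sub_mem h2Z h1Z
    rw [map_sub]; convert this using 1; abel)
  have h3 : ξ1 = a • η := by
    funext x
    by_cases hx : n' x = 0
    · have := congrFun hab x
      simp only [Pi.sub_apply, Pi.add_apply, Pi.smul_apply, hx, smul_zero, add_zero,
        h2 x (by simp [hC', hx]), sub_zero] at this
      simp [η, hx, this]
    · simp [η, hx, h1 x (by simp [hC', hx])]
  have h4 : φ η ∈ sp φ Z U := by
    obtain ⟨s, t, rfl⟩ := hgen ξ hξ hZ
    by_cases hs : s = 0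
    · have ht : t ≠ 0 := by rintro rfl; exact hξ0 (by simp [hs])
      refine sp_mono (fun x hx => mem_of_ne hU ?_) hη3
      simp [hs, ht, (hC' x).1 hx]
    · refine sp_mono (fun x hx => mem_of_ne hU ?_) (apply_mem_sp hη1)
      simp only [mem_sdiff, hC, hC', not_not] at hx
      simp [hs, hx.1, hx.2]
  have : p = (p - φ ξ1) + a • φ η := by rw [h3, map_smul]; abel
  rw [this]
  exact Submodule.add_mem _ (le_sp _ h1Z) (Submodule.smul_mem _ _ h4)

variable (φ) in
/-- Two pairs of equal label whose removal leaves a matching. -/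
def SepLab (Z : Submodule F V) (lb : ℕ → ℕ) (D : Finset ℕ) : Prop :=
  ∃ x ∈ D, ∃ y ∈ D, x ≠ y ∧ Mt φ Z ((D.erase x).erase y) ∧ lb x = lb y

/-- End of the exchange of a flower towards a double flower. -/
theorem flower_end [FiniteDimensional F Z] {D T : Finset ℕ} {n : ℕ → F × F} {lb : ℕ → ℕ}
    (hn : Fl φ Z T n) (hD : finrank F Z + 2 * T.card ≤ finrank F (sp φ Z D))
    {x y c c' : ℕ} (hxy : Mt φ Z ((D.erase x).erase y)) (hc : n c ≠ 0) (hc' : n c' ≠ 0)
    (hcx : lb c = lb x) (hcy : lb c' = lb y)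
    (hmax : ∀ e ∈ D, e ∉ T → ∀ g ∈ T, n g = 0 → finrank F (Nul φ Z (insert e (T.erase g))) ≤ 1 →
      (insert e (T.erase g) ∩ D).card ≤ (T ∩ D).card) :
    ∃ e ∈ D, ¬ Lin φ e (sp φ Z T) ∧ (Found φ Z (insert e T) ∨ SepLab φ Z lb (insert e T)) := by
  have hr := hn.rank
  obtain ⟨e, he, hl⟩ := exists_not_lin (φ := φ) (Z := Z) (S := D) (le_sp (φ := φ) T) (by omega)
  refine ⟨e, he, hl, ?_⟩
  rcases dichotomy hn hl with h | ⟨n', hn'e, ht⟩
  · exact Or.inl h
  right
  have heT := not_mem_of_not_lin hl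
  have hsub : n' ∈ Sub F D := by
    intro g hgD
    by_contra hg
    have hge : g ≠ e := fun h => hgD (h ▸ he)
    have hgT : g ∈ T := (mem_insert.1 (mem_of_ne ht.mem' hg)).resolve_left hge
    have hng : n g = 0 := (ht.disj g).resolve_right hg
    have hfl : Fl φ Z (insert e (T.erase g)) n := by
      refine ⟨Sub_mono (subset_insert _ _) (mem_Sub_erase hn.mem hng), hn.ker, hn.ne,
        fun ξ hξ hZ => ?_⟩
      obtain ⟨a, b, rfl⟩ := ht.gen ξ (Sub_mono (insert_subset_insert _ (erase_subset _ _)) hξ) hZ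
      have := hξ g (by simp [hge])
      simp only [Pi.add_apply, Pi.smul_apply, hng, smul_zero, zero_add, smul_eq_zero, hg,
        or_false] at this
      exact ⟨a, by simp [this]⟩
    have := hmax e he heT g hgT hng hfl.nul_eq.le
    rw [card_inter_swap heT he hgD] at this
    omega
  rcases meets_of_mt hxy hsub ht.ker' ht.ne' with h | h
  · exact ⟨c, mem_of_ne ht.mem hc, x, mem_of_ne ht.mem' h, ht.ne_of hc h, ht.mt hc h, hcx⟩
  · exact ⟨c', mem_of_ne ht.mem hc', y, mem_of_ne ht.mem' h, ht.ne_of hc' h, ht.mt hc' h, hcy⟩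

/-! ### Removal of pairs -/

lemma nul_le_of_mt [FiniteDimensional F Z] {S : Finset ℕ} (h : Mt φ ⊥ S) :
    finrank F (Nul φ Z S) ≤ finrank F Z := by
  have h1 := rank_nul (φ := φ) (Z := Z) S
  have h2 := mt_iff_rank.1 h
  have h3 := Submodule.finrank_mono (sp_mono_left (φ := φ) (bot_le : ⊥ ≤ Z) S)
  rw [finrank_bot] at h2
  omega

lemma exists_sub_mt (S : Finset ℕ) :
    ∃ S' ⊆ S, Mt φ Z S' ∧ S.card ≤ S'.card + finrank F (Nul φ Z S) := by
  induction' hk : finrank F (Nul φ Z S) using Nat.strong_induction_on with k ih generalizing S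
  by_cases h : Mt φ Z S
  · exact ⟨S, Subset.rfl, h, by omega⟩
  · obtain ⟨e, he, hlt⟩ := nul_erase_lt h
    obtain ⟨S', h1, h2, h3⟩ := ih _ (hk ▸ hlt) (S.erase e) rfl
    refine ⟨S', h1.trans (erase_subset _ _), h2, ?_⟩
    rw [card_erase_of_mem he] at h3
    omega

lemma drop_step {S : Finset ℕ} {s q : ℕ} (hq : q ≤ s) (h1 : finrank F (Nul φ Z S) + s ≤ q + S.card)
    (h2 : s < S.card + q) : ∃ e ∈ S, finrank F (Nul φ Z (S.erase e)) + s ≤ q + (S.erase e).card := by
  by_cases h : Mt φ Z S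
  · obtain ⟨e, he⟩ := card_pos.1 (show 0 < S.card by omega)
    refine ⟨e, he, ?_⟩
    rw [mt_iff_nul.1 (h.mono (erase_subset _ _)), card_erase_of_mem he]
    omega
  · obtain ⟨e, he, hlt⟩ := nul_erase_lt h
    refine ⟨e, he, ?_⟩
    have := card_pos.2 ⟨e, he⟩
    rw [card_erase_of_mem he]
    omega

lemma rank_add_le [FiniteDimensional F Z] {U Y : Finset ℕ} (X : Finset ℕ) (hX : X ⊆ U) (hY : Y ⊆ U)
    (hd : Disjoint X Y) (h : ∀ t ∈ X, ¬ Lin φ t (sp φ Z (U.erase t))) :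
    finrank F (sp φ Z Y) + X.card ≤ finrank F (sp φ Z (X ∪ Y)) := by
  induction X using Finset.induction_on with
  | empty => rw [empty_union]; simp
  | insert t X ht ih =>
    have h1 := ih ((subset_insert _ _).trans hX) (hd.mono_left (subset_insert _ _))
      fun x hx => h x (mem_insert_of_mem hx)
    have h2 : ¬ Lin φ t (sp φ Z (X ∪ Y)) := fun hl => h t (mem_insert_self _ _) (hl.mono
      (sp_mono fun x hx => mem_erase.2 ⟨?_, ?_⟩))
    · have := rank_insert_lt h2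
      rw [card_insert_of_notMem ht, insert_union]
      omega
    · rintro rfl
      rcases mem_union.1 hx with h' | h'
      exacts [ht h', disjoint_left.1 hd (mem_insert_self _ _) h']
    · rcases mem_union.1 hx with h' | h'
      exacts [hX (mem_insert_of_mem h'), hY h']

/-- If no pair of `B1` has a two dimensional component of `Z`, a matching modulo `Z` inside `B1`
misses at least `dim Z` pairs. -/
lemma card_add_le [FiniteDimensional F Z] {B1 M : Finset ℕ} (hB : B1 ⊆ B)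
    (hZ : Z ≤ sp φ ⊥ B1) (hM : M ⊆ B1) (hmt : Mt φ Z M)
    (h : ∀ t ∈ B1, ¬ Lin φ t (sp φ Z (B.erase t))) : M.card + finrank F Z ≤ B1.card := by
  have h1 := rank_add_le (φ := φ) (Z := Z) (U := B) (Y := M) (B1 \ M) (sdiff_subset.trans hB)
    (hM.trans hB) sdiff_disjoint fun t ht => h t (mem_sdiff.1 ht).1
  rw [sdiff_union_of_subset hM, mt_iff_rank.1 hmt, card_sdiff_of_subset hM] at h1
  have h2 : finrank F (sp φ Z B1) ≤ finrank F (sp φ ⊥ B1) :=
    Submodule.finrank_mono (sp_le hZ fun e he => lin_sp he)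
  have h3 := rank_le (φ := φ) (Z := ⊥) B1
  have h4 := card_le_card hM
  rw [finrank_bot] at h3
  omega

/-! ### Invariants of the top level -/

variable (φ) in
/-- Invariant of the matchings reached at the top level. -/
structure Good (E : Finset ℕ) (K Z : Submodule F V) (B0 : Finset ℕ) (ν : ℕ) (B : Finset ℕ) :
    Prop where
  sub : B ⊆ E
  mt : Mt φ ⊥ B
  card : B.card = ν
  le : K ≤ sp φ ⊥ B
  fix : ∀ e, e ∈ B0 ↔ e ∈ B ∧ Lin φ e K
  leZ : Z ≤ sp φ ⊥ (B \ B0)

lemma Exch.fl {g f : ℕ} (hx : Exch φ Z E B g f) (hB : Mt φ Z B) (hs : ¬ Stop φ Z E K lab B) :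
    ∃ n, Fl φ Z (insert g B) n ∧ n g ≠ 0 ∧ n f ≠ 0 ∧
      ∀ h, n h ≠ 0 → h ≠ g → Exch φ Z E B g h := by
  obtain ⟨n, hn, hg, hex⟩ := exch_fl hB hs hx.mem hx.out
  exact ⟨n, hn, hg, hn.ne_of_mt (erase_ins hx.ne B ▸ hx.mt), hex⟩

lemma Good.not_lin {B0 : Finset ℕ} {ν : ℕ} (h : Good φ E K Z B0 ν B)
    (hs : ¬ Stop φ ⊥ E K lab B) {g f : ℕ} (hx : Exch φ ⊥ E B g f) : ¬ Lin φ f K ∧ ¬ Lin φ g K := by
  obtain ⟨n, hn, -, hf, -⟩ := hx.fl h.mt hs
  exact ⟨fun hl => hn.not_lin hf (erase_ins hx.ne B ▸ hl.mono (hx.le hs)),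
    fun hl => hx.out (hl.mono h.le)⟩

lemma Good.exch {B0 : Finset ℕ} {ν : ℕ} (h : Good φ E K Z B0 ν B) (hZK : Z ≤ K)
    (hs : ¬ Stop φ ⊥ E K lab B) {g f : ℕ} (hx : Exch φ ⊥ E B g f) :
    Good φ E K Z B0 ν (insert g (B.erase f)) := by
  obtain ⟨n, hn, -, hf, hex⟩ := hx.fl h.mt hs
  refine ⟨hx.subset h.sub, hx.mt, hx.card.trans h.card, hx.le hs, fun e => ?_, fun z hz => ?_⟩
  · rw [h.fix]
    constructor
    · rintro ⟨h1, h2⟩
      exact ⟨mem_insert_of_mem (mem_erase.2 ⟨fun e' => (h.not_lin hs hx).1 (e' ▸ h2), h1⟩), h2⟩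
    · rintro ⟨h1, h2⟩
      rcases mem_insert.1 h1 with rfl | h1
      exacts [((h.not_lin hs hx).2 h2).elim, ⟨mem_of_mem_erase h1, h2⟩]
  · obtain ⟨ξ, hξ, hz'⟩ := mem_sp.1 (h.leZ hz)
    have hz2 : z = φ ξ := sub_eq_zero.1 hz'
    obtain ⟨c, -, hc⟩ := hn.comp (f := f) (Sub_mono (sdiff_subset.trans (subset_insert _ _)) hξ)
      (by rw [← hz2, erase_ins hx.ne]; exact hx.le hs (hZK hz))
    rw [erase_ins hx.ne] at hc
    refine mem_sp.2 ⟨ξ - c • n, fun e he => ?_, ?_⟩
    · by_cases he0 : e ∈ B0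
      · have h1 : n e = 0 := by
          by_contra h0
          have heB := ((h.fix e).1 he0)
          exact (h.not_lin hs (hex e h0 fun e' => hx.not_mem (e' ▸ heB.1))).1 heB.2
        simp [h1, hξ e (by simp [he0])]
      · exact hc e fun h' => he (mem_sdiff.2 ⟨h', he0⟩)
    · have : φ n = 0 := hn.ker
      simp [hz2, this]

/-- A two dimensional component of `Z` survives an exchange. -/
lemma Good.keep {B0 : Finset ℕ} {ν : ℕ} (h : Good φ E K Z B0 ν B) (hZK : Z ≤ K)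
    (hs : ¬ Stop φ ⊥ E K lab B) {g f : ℕ} (hx : Exch φ ⊥ E B g f) {t : ℕ} (ht : t ∈ B)
    (hl : Lin φ t (sp φ Z (B.erase t))) :
    t ∈ insert g (B.erase f) ∧ Lin φ t (sp φ Z ((insert g (B.erase f)).erase t)) := by
  obtain ⟨n, hn, -, hf, hex⟩ := hx.fl h.mt hs
  have htg : t ≠ g := fun e => hx.not_mem (e ▸ ht)
  have hnt : n t = 0 := by
    by_contra h0
    refine hn.not_lin h0 (hl.mono (sp_le ?_ fun e he => lin_sp ?_))
    · rw [erase_ins htg]; exact hZK.trans ((hex t h0 htg).le hs)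
    · rw [erase_ins htg]; exact mem_insert_of_mem he
  have htf : t ≠ f := fun e => hf (e ▸ hnt)
  refine ⟨mem_insert_of_mem (mem_erase.2 ⟨htf, ht⟩), fun y => ?_⟩
  obtain ⟨ξ, hξ, hz⟩ := mem_sp.1 (hl y)
  rw [← map_sub] at hz
  obtain ⟨c, -, hc⟩ := hn.comp (f := f) (ξ := Pi.single t y - ξ)
    (Submodule.sub_mem _ (single_mem_Sub (mem_insert_of_mem ht) y)
      (Sub_mono ((erase_subset _ _).trans (subset_insert _ _)) hξ))
    (by rw [erase_ins hx.ne]; exact hx.le hs (hZK hz))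
  rw [erase_ins hx.ne] at hc
  refine mem_sp.2 ⟨ξ + c • n, fun e he => ?_, ?_⟩
  · by_cases het : e = t
    · subst het; simp [hnt, hξ e (by simp)]
    · have := hc e fun h' => he (mem_erase.2 ⟨het, h'⟩)
      simp only [Pi.sub_apply, Pi.single_eq_of_ne het, zero_sub] at this
      have h2 : ξ e + (c • n) e = -(-ξ e - (c • n) e) := by abel
      rw [Pi.add_apply, h2, this, neg_zero]
  · have : φ n = 0 := hn.ker
    rw [map_sub] at hz
    simpa [this] using hz

/-- Comparison of two sets through the classes of a labelling. -/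
lemma card_le_of_classes {M B' : Finset ℕ}
    (h : ∀ e ∈ M, (M.filter fun x => lab x = lab e).card ≤ (B'.filter fun x => lab x = lab e).card) :
    M.card ≤ B'.card := by
  rw [card_eq_sum_card_fiberwise (f := lab) (t := (M ∪ B').image lab)
    (fun x hx => mem_coe.2 (mem_image_of_mem _ (mem_union_left _ hx))),
    card_eq_sum_card_fiberwise (f := lab) (s := B') (t := (M ∪ B').image lab)
    (fun x hx => mem_coe.2 (mem_image_of_mem _ (mem_union_right _ hx)))]
  refine sum_le_sum fun l _ => ?_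
  rcases (M.filter fun x => lab x = l).eq_empty_or_nonempty with h0 | ⟨e, he⟩
  · simp [h0]
  · obtain ⟨h1, rfl⟩ := mem_filter.1 he
    exact h e h1

lemma class_card_eq {M B' : Finset ℕ} (hc : B'.card ≤ M.card)
    (h : ∀ e ∈ M, (M.filter fun x => lab x = lab e).card ≤ (B'.filter fun x => lab x = lab e).card)
    (l : ℕ) : (M.filter fun x => lab x = l).card = (B'.filter fun x => lab x = l).card := by
  have h1 : ∀ l, (M.filter fun x => lab x = l).card ≤ (B'.filter fun x => lab x = l).card := by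
    intro l
    rcases (M.filter fun x => lab x = l).eq_empty_or_nonempty with h0 | ⟨e, he⟩
    · simp [h0]
    · obtain ⟨h1, rfl⟩ := mem_filter.1 he
      exact h e h1
  refine le_antisymm (h1 l) ?_
  have h2 : (M.filter fun x => ¬ lab x = l).card ≤ (B'.filter fun x => ¬ lab x = l).card := by
    refine card_le_of_classes (lab := lab) fun e he => ?_
    have he' := (mem_filter.1 he).2
    have e1 : ∀ T : Finset ℕ, ((T.filter fun x => ¬ lab x = l).filter fun x => lab x = lab e) =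
        T.filter fun x => lab x = lab e := fun T => by
      ext x; simp only [mem_filter]
      exact ⟨fun h => ⟨h.1.1, h.2⟩, fun h => ⟨⟨h.1, fun h' => he' (h.2 ▸ h')⟩, h.2⟩⟩
    rw [e1, e1]; exact h1 _
  have h3 := card_filter_add_card_filter_not (s := M) (fun x => lab x = l)
  have h4 := card_filter_add_card_filter_not (s := B') (fun x => lab x = l)
  omega

/-- The upper bound at the top level. -/
theorem top_bound [FiniteDimensional F Z] {B0 : Finset ℕ} {ν : ℕ} (h : Good φ E K Z B0 ν B)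
    (hZ : K ⊓ sp φ ⊥ (B \ B0) ≤ Z) (hZK : Z ≤ K) {ν' : ℕ}
    (hν : ν' + finrank F Z ≤ (B \ B0).card)
    (hmax : ∀ M ⊆ E, (∀ e ∈ M, ¬ Lin φ e K) → Mt φ Z M → M.card ≤ ν')
    {S : Finset ℕ} (hS : S ⊆ E) (hmt : Mt φ ⊥ S) : S.card ≤ ν := by
  classical
  obtain ⟨S', h1, h2, h3⟩ := exists_sub_mt (φ := φ) (Z := Z) S
  have h4 := nul_le_of_mt (Z := Z) hmt
  have hB0 : B0 ⊆ B := fun e he => ((h.fix e).1 he).1
  have h5 : K ≤ sp φ Z B0 := by
    intro x hx
    obtain ⟨ξ, hξ, hx'⟩ := mem_sp.1 (h.le hx)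
    have hx2 : x = φ ξ := sub_eq_zero.1 hx'
    let η : ℕ → F × F := fun e => if e ∈ B0 then ξ e else 0
    have hη : η ∈ Sub F B0 := fun e he => by simp [η, he]
    refine mem_sp.2 ⟨η, hη, hZ ⟨K.sub_mem hx (apply_mem_of_lin (fun e he => ((h.fix e).1 he).2) hη),
      ?_⟩⟩
    rw [hx2, ← map_sub]
    refine apply_mem_sp fun e he => ?_
    by_cases he0 : e ∈ B0
    · simp [η, he0]
    · simp [η, he0, hξ e fun h' => he (mem_sdiff.2 ⟨h', he0⟩)]
  have h6 : (S'.filter fun e => Lin φ e K).card ≤ B0.card := by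
    have h7 := mt_iff_rank.1 (h2.mono (filter_subset (fun e => Lin φ e K) S'))
    have h8 := Submodule.finrank_mono
      ((sp_le (φ := φ) (S := S'.filter fun e => Lin φ e K) hZK
        fun e he => (mem_filter.1 he).2).trans h5)
    have h9 := rank_le (φ := φ) (Z := Z) B0
    omega
  have h7 := hmax (S'.filter fun e => ¬ Lin φ e K) ((filter_subset _ _).trans (h1.trans hS))
    (fun e he => (mem_filter.1 he).2) (h2.mono (filter_subset _ _))
  have h8 := card_filter_add_card_filter_not (s := S') (fun e => Lin φ e K)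
  have h9 := card_sdiff_add_card_eq_card hB0
  have h10 := h.card
  omega

end Pool.Agent.MP_0c5eb8_lc.H40
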