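import Pool.Agent.MP_0c5eb8_lc.H40.Level1

/-!
The top level of the matroid parity algorithm.
-/

namespace Pool.Agent.MP_0c5eb8_lc.H40

open Pool.Agent.Shared.H56 Polynomial Module Finset

variable {L : List Row} {fam : List (Finset ℕ)}

/-- The intersection of the spans of the family. -/
def kof (L : List Row) (fam : List (Finset ℕ)) : List (Finset ℕ) :=
  fam.foldl (fun K B => inter K (vecs L B)) (vecs L (fam.headD ∅))

/-- The pairs of the first matching inside the intersection. -/
def bof (L : List Row) (fam : List (Finset ℕ)) : Finset ℕ :=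
  (fam.headD ∅).filter fun e => lin L (kof L fam) ∅ e = true

/-- The pairs outside the intersection. -/
def eof (L : List Row) (fam : List (Finset ℕ)) : Finset ℕ :=
  (range L.length).filter fun e => lin L (kof L fam) ∅ e = false

/-- The subspace to be contracted. -/
def zof (L : List Row) (fam : List (Finset ℕ)) : List (Finset ℕ) :=
  inter (kof L fam) (vecs L (fam.headD ∅ \ bof L fam))

/-- Align `B` with all members of the family. -/
def alignAll (L : List Row) (fam : List (Finset ℕ)) (B : Finset ℕ) : List (Finset ℕ) :=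
  fam.map fun B' => align L (range L.length) (kof L fam) B' B

/-- The family of the contracted problem. -/
def famOf (L : List Row) (fam : List (Finset ℕ)) : List (Finset ℕ) :=
  (alignAll L fam (fam.headD ∅)).map fun B => drop L (zof L fam) (rk (zof L fam)) (B \ bof L fam)

/-- Lift the augmentations of the contracted problem. -/
def lifts (L : List Row) (fam : List (Finset ℕ)) : List (Finset ℕ) :=
  (level1 L (zof L fam) (eof L fam) (famOf L fam)).map fun M =>
    joint L [] (zof L fam) (range L.length) (kof L fam) [] (eof L fam) fam (fam.headD ∅) M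

/-- Matchings at which progress is looked for. -/
def finals0 (L : List Row) (fam : List (Finset ℕ)) : List (Finset ℕ) :=
  alignAll L fam (fam.headD ∅) ++ lifts L fam ++ (lifts L fam).flatMap (alignAll L fam)

/-- Better families. -/
def cands0 (L : List Row) (fam : List (Finset ℕ)) : List (List (Finset ℕ)) :=
  (finals0 L fam).flatMap fun B => (augs L [] (range L.length) B).map (fun T => [T]) ++
    (bad L [] (range L.length) (kof L fam) [] B).map fun p => fam ++ [sw B p]

/-- Potential of a family. -/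
def pot0 (L : List Row) (fam : List (Finset ℕ)) : ℕ :=
  (fam.headD ∅).card * (2 * L.length + 1) + (2 * L.length - rk (kof L fam))

/-- The size of a largest matching. -/
def solve (L : List Row) : ℕ :=
  ((climb (cands0 L) (pot0 L) ((L.length + 1) * (2 * L.length + 1)) [∅]).headD ∅).card

lemma mem_kof {x : VV} : x ∈ spanL (kof L fam) ↔
    x ∈ sp (phi L) ⊥ (fam.headD ∅) ∧ ∀ B ∈ fam, x ∈ sp (phi L) ⊥ B := by
  rw [← spanL_vecs', kof]
  generalize vecs L (fam.headD ∅) = K
  induction fam generalizing K with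
  | nil => simp
  | cons B fam ih => simp [ih, spanL_inter, spanL_vecs', and_assoc]

/-- Invariant of the top level. -/
structure Inv0 (L : List Row) (fam : List (Finset ℕ)) : Prop where
  ne : fam ≠ []
  mem : ∀ B ∈ fam, B ⊆ range L.length ∧ Mt (phi L) ⊥ B ∧ B.card = (fam.headD ∅).card

/-- The invariant of reached matchings for a family. -/
abbrev GoodOf (L : List Row) (fam : List (Finset ℕ)) (B : Finset ℕ) : Prop :=
  Good (phi L) (range L.length) (spanL (kof L fam)) (spanL (zof L fam)) (bof L fam)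
    (fam.headD ∅).card B

/-- The stopping condition for a family. -/
abbrev StopOf (L : List Row) (fam : List (Finset ℕ)) (B : Finset ℕ) : Prop :=
  Stop (phi L) ⊥ (range L.length) (spanL (kof L fam)) (labf []) B

lemma zof_eq : spanL (zof L fam) =
    spanL (kof L fam) ⊓ sp (phi L) ⊥ (fam.headD ∅ \ bof L fam) := by
  rw [zof, spanL_inter, spanL_vecs']

lemma zof_le : spanL (zof L fam) ≤ spanL (kof L fam) := zof_eq ▸ inf_le_left

lemma mem_eof {e : ℕ} : e ∈ eof L fam ↔ e ∈ range L.length ∧ ¬ Lin (phi L) e (spanL (kof L fam)) := by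
  simp [eof, sp_empty]

lemma good_head (h : Inv0 L fam) : GoodOf L fam (fam.headD ∅) := by
  have h1 := h.mem _ (headD_mem h.ne ∅)
  exact ⟨h1.1, h1.2.1, rfl, fun x hx => (mem_kof.1 hx).1, fun e => by simp [bof, sp_empty],
    zof_eq ▸ inf_le_right⟩

lemma cover_eof {e : ℕ} (he : ¬ Lin (phi L) e (spanL (kof L fam))) (h : Inv0 L fam) :
    ∃ B ∈ fam, ¬ Lin (phi L) e (sp (phi L) ⊥ B) := by
  by_contra h'
  push Not at h'
  exact he fun y => mem_kof.2 ⟨h' _ (headD_mem h.ne ∅) y, fun B hB => h' B hB y⟩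

lemma good_alignAll (h : Inv0 L fam) {B T : Finset ℕ} (hB : GoodOf L fam B)
    (hT : T ∈ alignAll L fam B) : GoodOf L fam T := by
  obtain ⟨B', hB', rfl⟩ := List.mem_map.1 hT
  exact (align_spec hB zof_le (h.mem B' hB').1 (h.mem B' hB').2.1 (h.mem B' hB').2.2).1

lemma small_of_align (h : Inv0 L fam) {B M : Finset ℕ} (hB : GoodOf L fam B)
    (hs : ∀ T ∈ alignAll L fam B, ¬ StopOf L fam T) (hM : M ⊆ B \ bof L fam)
    (hmt : Mt (phi L) (spanL (zof L fam)) M) :
    M.card + finrank F2 (spanL (zof L fam)) ≤ (B \ bof L fam).card := by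
  refine card_add_le (B := B) sdiff_subset hB.leZ hM hmt fun t ht hl => ?_
  obtain ⟨h1, h2⟩ := mem_sdiff.1 ht
  obtain ⟨B', hB', hl'⟩ := cover_eof (fun h' => h2 ((hB.fix t).2 ⟨h1, h'⟩)) h
  exact hl' (((align_spec hB zof_le (h.mem B' hB').1 (h.mem B' hB').2.1 (h.mem B' hB').2.2).2
    (hs _ (List.mem_map_of_mem hB'))).2 t h1 hl)

lemma card_sdiff_good {B B' : Finset ℕ} (hB : GoodOf L fam B) (hB' : GoodOf L fam B') :
    (B \ bof L fam).card = (B' \ bof L fam).card := by
  rw [card_sdiff_of_subset fun e he => ((hB.fix e).1 he).1,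
    card_sdiff_of_subset fun e he => ((hB'.fix e).1 he).1, hB.card, hB'.card]

lemma good_exch {B : Finset ℕ} {g f : ℕ} (hG : GoodOf L fam B)
    (hs : ¬ Stop (phi L) (spanL []) (range L.length) (spanL (kof L fam)) (labf []) B)
    (hx : Exch (phi L) (spanL []) (range L.length) B g f) :
    GoodOf L fam (insert g (B.erase f)) ∧ (f ∈ eof L fam ↔ g ∈ eof L fam) := by
  rw [spanL_nil] at hs hx
  have := hG.not_lin hs hx
  exact ⟨hG.exch zof_le hs hx, by simp only [mem_eof, this.1, this.2, hG.sub hx.memf, hx.mem]⟩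

lemma good_lifts (h : Inv0 L fam) {T : Finset ℕ} (hT : T ∈ lifts L fam) : GoodOf L fam T := by
  obtain ⟨M, -, rfl⟩ := List.mem_map.1 hT
  refine climb_inv (fun s : Finset ℕ × Finset ℕ × Finset ℕ => GoodOf L fam s.1)
    (fun s t hs ht _ => ?_) _ (good_head h)
  rcases (mem_jcands.1 ht).1 with h1 | ⟨hst, g, f, hx, h1⟩
  · exact h1 ▸ hs
  · exact h1 ▸ (good_exch hs hst hx).1

lemma good_finals0 (h : Inv0 L fam) {T : Finset ℕ} (hT : T ∈ finals0 L fam) : GoodOf L fam T := by
  rcases List.mem_append.1 hT with hT | hT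
  · rcases List.mem_append.1 hT with hT | hT
    exacts [good_alignAll h (good_head h) hT, good_lifts h hT]
  · obtain ⟨B, hB, hT⟩ := List.mem_flatMap.1 hT
    exact good_alignAll h (good_lifts h hB) hT

theorem optimal_of_not_stop (h : Inv0 L fam) (hs : ∀ T ∈ finals0 L fam, ¬ StopOf L fam T)
    {S : Finset ℕ} (hS : S ⊆ range L.length) (hmt : Mt (phi L) ⊥ S) :
    S.card ≤ (fam.headD ∅).card := by
  have hg := good_head h
  have hs1 : ∀ T ∈ alignAll L fam (fam.headD ∅), ¬ StopOf L fam T := fun T hT =>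
    hs T (List.mem_append_left _ (List.mem_append_left _ hT))
  have hq := small_of_align h hg hs1 (empty_subset _) mt_empty
  rw [card_empty, zero_add] at hq
  obtain ⟨ν', hν'⟩ := Nat.exists_eq_add_of_le' hq
  have hdrop : ∀ B ∈ alignAll L fam (fam.headD ∅),
      drop L (zof L fam) (rk (zof L fam)) (B \ bof L fam) ⊆ B \ bof L fam ∧
      Mt (phi L) (spanL (zof L fam)) (drop L (zof L fam) (rk (zof L fam)) (B \ bof L fam)) ∧
      (drop L (zof L fam) (rk (zof L fam)) (B \ bof L fam)).card = ν' := by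
    intro B hB
    have hB' := good_alignAll h hg hB
    have hc := card_sdiff_good hB' hg
    obtain ⟨k1, k2, k3⟩ := drop_spec (L := L) (Z := zof L fam) (S := B \ bof L fam)
      (q := rk (zof L fam)) (by rw [rk_eq]; omega)
      (by rw [rk_eq]; exact nul_le_of_mt (hB'.mt.mono sdiff_subset))
    refine ⟨k1, k2, ?_⟩
    have := rk_eq (zof L fam)
    omega
  have hsub : ∀ B, GoodOf L fam B → B \ bof L fam ⊆ eof L fam := fun B hB e he => by
    obtain ⟨h1, h2⟩ := mem_sdiff.1 he
    exact mem_eof.2 ⟨hB.sub h1, fun h' => h2 ((hB.fix e).2 ⟨h1, h'⟩)⟩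
  have hF : Fam L (zof L fam) (eof L fam) (famOf L fam) ν' := by
    refine ⟨filter_subset _ _, by simpa [famOf, alignAll] using h.ne, fun B hB => ?_,
      fun p hp => ?_, fun e he hl => (mem_eof.1 he).2 (hl.mono zof_le)⟩
    · obtain ⟨T, hT, rfl⟩ := List.mem_map.1 hB
      exact ⟨(hdrop T hT).1.trans (hsub T (good_alignAll h hg hT)), (hdrop T hT).2⟩
    · by_contra h'
      push Not at h'
      have key : ∀ T ∈ alignAll L fam (fam.headD ∅), p ∈ sp (phi L) ⊥ (T \ bof L fam) :=
        fun T hT => sp_le (good_alignAll h hg hT).leZ (fun e he => lin_sp ((hdrop T hT).1 he))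
          (h' _ (List.mem_map_of_mem hT))
      have h1 := key _ (List.mem_map_of_mem (headD_mem h.ne ∅))
      rw [align_self] at h1
      refine hp (zof_eq ▸ ⟨mem_kof.2 ⟨sp_mono sdiff_subset h1, fun B hB => ?_⟩, h1⟩)
      rw [((align_spec hg zof_le (h.mem B hB).1 (h.mem B hB).2.1 (h.mem B hB).2.2).2
        (hs1 _ (List.mem_map_of_mem hB))).1]
      exact sp_mono sdiff_subset (key _ (List.mem_map_of_mem hB))
  obtain ⟨l1, l2⟩ := level1_spec hF
  have h0 : level1 L (zof L fam) (eof L fam) (famOf L fam) = [] := by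
    by_contra hne
    obtain ⟨M, hM⟩ := List.exists_mem_of_ne_nil _ hne
    obtain ⟨m1, m2, m3⟩ := l1 M hM
    have hT : joint L [] (zof L fam) (range L.length) (kof L fam) [] (eof L fam) fam
      (fam.headD ∅) M ∈ lifts L fam := List.mem_map_of_mem hM
    obtain ⟨j1, j2⟩ := joint_spec (L := L) (Z := []) (Z2 := zof L fam) (K := kof L fam)
      (E := range L.length) (lab := []) (S := eof L fam) (fam := fam) (B := fam.headD ∅) (M := M)
      (ν := (fam.headD ∅).card) (GoodOf L fam) (fun B g f => good_exch)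
      (fun B hB => by
        rw [spanL_nil]; exact ⟨hB.sub, hB.mt, hB.card, hB.leZ.trans (sp_mono sdiff_subset)⟩)
      (by simp) zof_le (filter_subset _ _) h.ne (by rw [spanL_nil]; exact h.mem)
      (fun e he => by rw [spanL_nil]; exact cover_eof (mem_eof.1 he).2 h) hg m1 m2
    rw [spanL_nil] at j2
    obtain ⟨M', n1, n2, n3, n4⟩ := j2.resolve_left
      (hs _ (List.mem_append_left _ (List.mem_append_right _ hT)))
    have h2 := small_of_align h j1 (fun T hT' => hs T (List.mem_append_right _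
      (List.mem_flatMap.2 ⟨_, hT, hT'⟩))) (M := M') (fun e he => mem_sdiff.2 ⟨n4 he,
        fun h' => (mem_eof.1 (n1 he)).2 ((j1.fix e).1 h').2⟩) n2
    have h3 := card_sdiff_good j1 hg
    omega
  exact top_bound hg zof_eq.ge zof_le hν'.ge
    (fun M hM hl hm => l2 h0 M (fun e he => mem_eof.2 ⟨hM he, hl e he⟩) hm) hS hmt

lemma rk_kof_le (h : Inv0 L fam) : rk (kof L fam) ≤ 2 * L.length := by
  have hg := good_head h
  have h1 := Submodule.finrank_mono hg.le
  have h2 := rank_le (φ := phi L) (Z := ⊥) (fam.headD ∅)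
  have h3 := card_le_card hg.sub
  rw [finrank_bot] at h2
  rw [card_range] at h3
  rw [rk_eq]; omega

lemma mem_cands0 {t : List (Finset ℕ)} : t ∈ cands0 L fam ↔ ∃ B ∈ finals0 L fam,
    (∃ T ∈ augs L [] (range L.length) B, t = [T]) ∨
      ∃ p ∈ bad L [] (range L.length) (kof L fam) [] B, t = fam ++ [sw B p] := by
  simp [cands0, eq_comm]

lemma headD_append {β : Type} {l : List β} (h : l ≠ []) (l' : List β) (d : β) :
    (l ++ l').headD d = l.headD d := by
  cases l with
  | nil => exact (h rfl).elim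
  | cons x l => rfl

lemma cands0_spec (h : Inv0 L fam) {t : List (Finset ℕ)} (ht : t ∈ cands0 L fam) :
    Inv0 L t ∧ pot0 L fam < pot0 L t := by
  obtain ⟨B, hB, ⟨T, hT, rfl⟩ | ⟨p, hp, rfl⟩⟩ := mem_cands0.1 ht
  · have hg := good_finals0 h hB
    obtain ⟨g, h1, h2, rfl, h3⟩ := mem_augs.1 hT
    rw [spanL_nil] at h3
    refine ⟨⟨by simp, fun B' hB' => ?_⟩, ?_⟩
    · rw [List.mem_singleton.1 hB']
      exact ⟨insert_subset h1 hg.sub, h3, rfl⟩
    · unfold pot0
      refine lex_lt ?_ (by omega)
      simp only [List.headD_cons]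
      rw [card_insert_of_notMem h2, hg.card]; omega
  · have hg := good_finals0 h hB
    obtain ⟨hx, hl⟩ := mem_bad.1 hp
    rw [spanL_nil] at hx hl
    replace hl := hl.resolve_right (by simp [labf])
    refine ⟨⟨by simp, fun B' hB' => ?_⟩, ?_⟩
    · rw [headD_append h.ne]
      rcases List.mem_append.1 hB' with h1 | h1
      · exact h.mem B' h1
      · rw [List.mem_singleton.1 h1]
        exact ⟨hx.subset hg.sub, hx.mt, hx.card.trans hg.card⟩
    · unfold pot0
      rw [headD_append h.ne]
      have h1 := rk_kof_le h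
      have h2 : spanL (kof L (fam ++ [sw B p])) < spanL (kof L fam) := by
        refine lt_of_le_of_ne (fun x hx' => ?_) fun e => hl fun x hx' => ?_
        · rw [mem_kof, headD_append h.ne] at hx'
          exact mem_kof.2 ⟨hx'.1, fun T hT => hx'.2 T (List.mem_append_left _ hT)⟩
        · rw [← e] at hx'
          exact (mem_kof.1 hx').2 _ (by simp)
      have h3 := Submodule.finrank_lt_finrank_of_lt h2
      rw [← rk_eq, ← rk_eq] at h3
      omega

theorem solve_spec (L : List Row) :
    IsGreatest {k | ∃ S ⊆ range L.length, Mt (phi L) ⊥ S ∧ S.card = k} (solve L) := by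
  obtain ⟨h1, h2⟩ := climb_spec (cands := cands0 L) (pot := pot0 L) (Inv0 L)
    (fun s t hs ht _ => (cands0_spec hs ht).1) (N := (L.length + 1) * (2 * L.length + 1))
    (fun s hs => by
      have h1 := card_le_card (good_head hs).sub
      rw [card_range] at h1
      exact (lex_lt (c' := 0) (Nat.lt_succ_of_le h1) (by omega)).trans_le (by simp))
    (s := [∅]) ⟨by simp, fun B hB => by
      rw [List.mem_singleton.1 hB]; exact ⟨empty_subset _, mt_empty, rfl⟩⟩ _ rfl
  set fam := climb (cands0 L) (pot0 L) ((L.length + 1) * (2 * L.length + 1)) [∅] with hfam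
  refine ⟨⟨_, (good_head h1).sub, (good_head h1).mt, rfl⟩, ?_⟩
  rintro k ⟨S, hS, hmt, rfl⟩
  refine optimal_of_not_stop h1 (fun T hT hs => ?_) hS hmt
  have : ∃ t, t ∈ cands0 L fam := by
    rcases hs with ⟨g, k1, k2, k3⟩ | ⟨g, f, k⟩
    · exact ⟨_, mem_cands0.2 ⟨T, hT, Or.inl ⟨_, mem_augs.2 ⟨g, k1, k2, rfl, by
        rw [spanL_nil]; exact k3⟩, rfl⟩⟩⟩
    · exact ⟨_, mem_cands0.2 ⟨T, hT, Or.inr ⟨(g, f), mem_bad.2 (by
        rw [spanL_nil]; exact k), rfl⟩⟩⟩
  obtain ⟨t, ht⟩ := this
  exact absurd (cands0_spec h1 ht).2 (not_lt.2 (h2 t ht))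

end Pool.Agent.MP_0c5eb8_lc.H40
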