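import Pool.Agent.MP_0c5eb8_lc.H40.Procs

/-!
The algorithm for a family of matchings whose spans have trivial intersection.
-/

namespace Pool.Agent.MP_0c5eb8_lc.H40

open Pool.Agent.Shared.H56 Polynomial Module Finset

variable {L : List Row} {Z : List (Finset ℕ)} {E B : Finset ℕ} {fam : List (Finset ℕ)} {ν : ℕ}

/-- The class of `e`. -/
def cls (E : Finset ℕ) (lab : List ℕ) (e : ℕ) : Finset ℕ :=
  E.filter fun x => labf lab x = labf lab e

/-- Matchings inside `S` that are larger than the part of `B` in `S`. -/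
def classM (L : List Row) (Z : List (Finset ℕ)) (fam : List (Finset ℕ)) (hist : List Rec)
    (B S : Finset ℕ) : List (Finset ℕ) :=
  ((fam ++ hist.map fun r => r.1).map (fun T => T ∩ S) ++ augs L Z S (B ∩ S) ++
    (prs S S).flatMap fun p => ext L Z S (B ∩ S).card fam
      (hist.foldl (t2step L Z S (B ∩ S).card fam) (insert p.2 (insert p.1 (B ∩ S))))).filter
    (okM L Z S (B ∩ S).card)

/-- Matchings at which an augmentation or a merge is available. -/
def finals1 (L : List Row) (Z : List (Finset ℕ)) (E : Finset ℕ) (fam : List (Finset ℕ))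
    (s : List Rec × List ℕ) : List (Finset ℕ) :=
  (E.sort (· ≤ ·)).flatMap fun e => (classM L Z fam s.1 (fam.headD ∅) (cls E s.2 e)).map fun M =>
    joint L Z Z E Z s.2 (cls E s.2 e) fam (fam.headD ∅) M

/-- Augmentations found. -/
def augs1 (L : List Row) (Z : List (Finset ℕ)) (E : Finset ℕ) (fam : List (Finset ℕ))
    (s : List Rec × List ℕ) : List (Finset ℕ) :=
  (finals1 L Z E fam s).flatMap fun T => augs L Z E T

/-- Merge the classes that meet `C`. -/
def relab (L : List Row) (lab : List ℕ) (C : Finset ℕ) (g : ℕ) : List ℕ :=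
  (List.range L.length).map fun x =>
    bif (C.sort (· ≤ ·)).any (fun c => decide (labf lab c = labf lab x)) then labf lab g
    else labf lab x

/-- Merges found. -/
def cands1 (L : List Row) (Z : List (Finset ℕ)) (E : Finset ℕ) (fam : List (Finset ℕ))
    (s : List Rec × List ℕ) : List (List Rec × List ℕ) :=
  bif (augs1 L Z E fam s).isEmpty then (finals1 L Z E fam s).flatMap fun T =>
    (bad L Z E Z s.2 T).map fun p =>
      ((T, p.1, s.2) :: s.1, relab L s.2 (circL L Z (insert p.1 T)) p.1)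
  else []

/-- The number of merges, measured by the number of classes. -/
def pot1 (E : Finset ℕ) (s : List Rec × List ℕ) : ℕ :=
  E.card - ((E.sort (· ≤ ·)).map (labf s.2)).toFinset.card

/-- Larger matchings modulo `Z`. -/
def level1 (L : List Row) (Z : List (Finset ℕ)) (E : Finset ℕ) (fam : List (Finset ℕ)) :
    List (Finset ℕ) :=
  augs1 L Z E fam (climb (cands1 L Z E fam) (pot1 E) (E.card + 1) ([], List.range L.length))

lemma pot1_eq (s : List Rec × List ℕ) : pot1 E s = E.card - (E.image (labf s.2)).card := by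
  unfold pot1
  congr 2
  ext x; simp

lemma labf_relab {lab : List ℕ} {C : Finset ℕ} {g x : ℕ} (hx : x < L.length) :
    labf (relab L lab C g) x =
      if ∃ c ∈ C, labf lab c = labf lab x then labf lab g else labf lab x := by
  rw [labf, relab, List.getD_eq_getElem _ _ (by simpa using hx)]
  simp only [List.getElem_map, List.getElem_range]
  split_ifs with h
  · rw [(List.any_eq_true.2 (by simpa using h))]; rfl
  · have : (C.sort (· ≤ ·)).any (fun c => decide (labf lab c = labf lab x)) = false :=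
      Bool.eq_false_iff.2 (fun h' => h (by simpa using h'))
    rw [this]; rfl

lemma exists_not_lin_family (hcov : ∀ p, p ∉ spanL Z → ∃ B ∈ fam, p ∉ sp (phi L) (spanL Z) B)
    {e : ℕ} (he : ¬ Lin (phi L) e (spanL Z)) :
    ∃ B ∈ fam, ¬ Lin (phi L) e (sp (phi L) (spanL Z) B) := by
  unfold Lin at he
  push Not at he
  obtain ⟨y, hy⟩ := he
  obtain ⟨B, hB, h⟩ := hcov _ hy
  exact ⟨B, hB, fun h' => h (h' y)⟩

lemma card_inter_swap_eq {g f : ℕ} {B S : Finset ℕ} (hg : g ∉ B) (hf : f ∈ B)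
    (h : f ∈ S ↔ g ∈ S) : (insert g (B.erase f) ∩ S).card = (B ∩ S).card := by
  by_cases hgS : g ∈ S
  · rw [insert_inter_of_mem hgS, erase_inter,
      card_swap (fun h' => hg (mem_inter.1 h').1) (mem_inter.2 ⟨hf, h.2 hgS⟩)]
  · rw [insert_inter_of_notMem hgS, erase_inter,
      erase_eq_of_notMem fun h' => hgS (h.1 (mem_inter.1 h').2)]

/-- Hypotheses on the family. -/
structure Fam (L : List Row) (Z : List (Finset ℕ)) (E : Finset ℕ) (fam : List (Finset ℕ)) (ν : ℕ) :
    Prop where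
  sub : E ⊆ range L.length
  ne : fam ≠ []
  mem : ∀ B ∈ fam, B ⊆ E ∧ Mt (phi L) (spanL Z) B ∧ B.card = ν
  cov : ∀ p, p ∉ spanL Z → ∃ B ∈ fam, p ∉ sp (phi L) (spanL Z) B
  out : ∀ e ∈ E, ¬ Lin (phi L) e (spanL Z)

lemma finals1_spec (h : Fam L Z E fam ν) {s : List Rec × List ℕ} {T : Finset ℕ}
    (hT : T ∈ finals1 L Z E fam s) : T ⊆ E ∧ Mt (phi L) (spanL Z) T ∧ T.card = ν ∧
      Stop (phi L) (spanL Z) E (spanL Z) (labf s.2) T := by
  obtain ⟨e, -, hT⟩ := List.mem_flatMap.1 hT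
  obtain ⟨M, hM, rfl⟩ := List.mem_map.1 hT
  obtain ⟨h1, h2, h3⟩ := okM_iff.1 (List.mem_filter.1 hM).2
  have hB := h.mem _ (headD_mem h.ne ∅)
  obtain ⟨⟨k1, k2, k3, k4⟩, k5⟩ := joint_spec (L := L) (Z := Z) (Z2 := Z) (K := Z) (E := E)
    (lab := s.2) (S := cls E s.2 e) (ν := ν) (fun T => T ⊆ E ∧ Mt (phi L) (spanL Z) T ∧
      T.card = ν ∧ (T ∩ cls E s.2 e).card = (fam.headD ∅ ∩ cls E s.2 e).card)
    (fun B g f hG hs hx => by
      have : f ∈ cls E s.2 e ↔ g ∈ cls E s.2 e := by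
        simp only [cls, mem_filter, hG.1 hx.memf, hx.mem, true_and, hx.lab_eq hs]
      exact ⟨⟨hx.subset hG.1, hx.mt, hx.card.trans hG.2.2.1,
        (card_inter_swap_eq hx.not_mem hx.memf this).trans hG.2.2.2⟩, this⟩)
    (fun B hG => ⟨hG.1, hG.2.1, hG.2.2.1, le_sp _⟩) le_rfl le_rfl (filter_subset _ _) h.ne h.mem
    (fun x hx => exists_not_lin_family h.cov (h.out x (filter_subset _ _ hx)))
    ⟨hB.1, hB.2.1, hB.2.2, rfl⟩ h1 h3
  refine ⟨k1, k2, k3, k5.resolve_right ?_⟩
  rintro ⟨M', j1, -, j3, j4⟩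
  have := card_le_card (subset_inter j4 j1)
  omega

lemma merge_spec (h : Fam L Z E fam ν) {s : List Rec × List ℕ} (hH : Hist L Z E s.1 s.2)
    (ha : augs1 L Z E fam s = []) {T : Finset ℕ} (hT : T ∈ finals1 L Z E fam s) {p : ℕ × ℕ}
    (hp : p ∈ bad L Z E Z s.2 T) :
    Hist L Z E ((T, p.1, s.2) :: s.1) (relab L s.2 (circL L Z (insert p.1 T)) p.1) ∧
      pot1 E s < pot1 E ((T, p.1, s.2) :: s.1, relab L s.2 (circL L Z (insert p.1 T)) p.1) := by
  classical
  obtain ⟨k1, k2, -, -⟩ := finals1_spec h hT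
  obtain ⟨hx, hl⟩ := mem_bad.1 hp
  replace hl := hl.resolve_left (not_not.2 (le_sp _))
  obtain ⟨n, hn, hng⟩ := exists_fl k2 hx.out fun hm => List.ne_nil_of_mem
    (List.mem_flatMap.2 ⟨T, hT, mem_augs.2 ⟨p.1, hx.mem, hx.not_mem, rfl, hm⟩⟩) ha
  have hnf : n p.2 ≠ 0 := hn.ne_of_mt (erase_ins hx.ne T ▸ hx.mt)
  have hrel : ∀ x ∈ E, labf (relab L s.2 (circL L Z (insert p.1 T)) p.1) x =
      if ∃ c, n c ≠ 0 ∧ labf s.2 c = labf s.2 x then labf s.2 p.1 else labf s.2 x := by
    intro x hx'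
    rw [labf_relab (mem_range.1 (h.sub hx'))]
    simp only [circL_eq, hn.mem_circ]
  have hE : ∀ c, n c ≠ 0 → c ∈ E := fun c hc => insert_subset hx.mem k1 (mem_of_ne hn.mem hc)
  constructor
  · refine ⟨hH, k1, hx.mem, hx.not_mem, n, hn, hng, fun x hx' y hy' hxy => ?_,
      fun x hx' y hy' hxy => ?_, fun c hc => ?_⟩
    · rw [hrel x hx', hrel y hy'] at hxy
      split_ifs at hxy with h1 h2 h2
      · exact Or.inr ⟨h1, h2⟩
      · exact (h2 ⟨p.1, hng, hxy⟩).elim
      · exact (h1 ⟨p.1, hng, hxy.symm⟩).elim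
      · exact Or.inl hxy
    · rw [hrel x hx', hrel y hy']
      simp only at hxy
      rw [hxy]
    · rw [hrel c (hE c hc), hrel _ hx.mem, if_pos ⟨c, hc, rfl⟩, if_pos ⟨p.1, hng, rfl⟩]
  · rw [pot1_eq, pot1_eq]
    have h1 : E.image (labf (relab L s.2 (circL L Z (insert p.1 T)) p.1)) ⊂ E.image (labf s.2) := by
      refine ⟨fun l hl => ?_, fun hsub => ?_⟩
      · obtain ⟨x, hx', rfl⟩ := mem_image.1 hl
        rw [hrel x hx']
        split_ifs
        exacts [mem_image_of_mem _ hx.mem, mem_image_of_mem _ hx']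
      · obtain ⟨x, hx', hxe⟩ := mem_image.1 (hsub (mem_image_of_mem _ (k1 hx.memf)))
        rw [hrel x hx'] at hxe
        split_ifs at hxe with h1
        · exact hl hxe.symm
        · exact h1 ⟨p.2, hnf, hxe.symm⟩
    have h2 := card_lt_card h1
    have h3 : (E.image (labf s.2)).card ≤ E.card := card_image_le
    simp only
    omega

lemma mem_cands1 {s t : List Rec × List ℕ} : t ∈ cands1 L Z E fam s ↔
    augs1 L Z E fam s = [] ∧ ∃ T ∈ finals1 L Z E fam s, ∃ p ∈ bad L Z E Z s.2 T,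
      t = ((T, p.1, s.2) :: s.1, relab L s.2 (circL L Z (insert p.1 T)) p.1) := by
  unfold cands1
  cases h : augs1 L Z E fam s with
  | nil => simp [eq_comm]
  | cons x l => simp

lemma class_bound (h : Fam L Z E fam ν) {hist : List Rec} {lab : List ℕ}
    (hH : Hist L Z E hist lab)
    (hr : ∀ r ∈ hist, Mt (phi L) (spanL Z) r.1 ∧ r.1 ⊆ E ∧ r.1.card = ν)
    (h0 : ∀ e ∈ E, classM L Z fam hist (fam.headD ∅) (cls E lab e) = []) {M : Finset ℕ}
    (hME : M ⊆ E) (hM : Mt (phi L) (spanL Z) M) : M.card ≤ ν := by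
  set B := fam.headD ∅ with hBdef
  have hB := h.mem _ (headD_mem h.ne ∅)
  have hfil : ∀ T ⊆ E, ∀ e, T ∩ cls E lab e = T.filter fun x => labf lab x = labf lab e := by
    intro T hT e; ext x
    simp only [cls, mem_inter, mem_filter]
    exact ⟨fun h => ⟨h.1, h.2.2⟩, fun h => ⟨h.1, hT h.1, h.2⟩⟩
  have hno : ∀ e ∈ E, ∀ T, T ∈ ((fam ++ hist.map fun r => r.1).map (fun T => T ∩ cls E lab e) ++
      augs L Z (cls E lab e) (B ∩ cls E lab e) ++ (prs (cls E lab e) (cls E lab e)).flatMap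
        fun p => ext L Z (cls E lab e) (B ∩ cls E lab e).card fam (hist.foldl
          (t2step L Z (cls E lab e) (B ∩ cls E lab e).card fam)
          (insert p.2 (insert p.1 (B ∩ cls E lab e))))) →
      ¬ okM L Z (cls E lab e) (B ∩ cls E lab e).card T = true := fun e he T hT hok =>
    List.ne_nil_of_mem (List.mem_filter.2 ⟨hT, hok⟩) (h0 e he)
  have hcount : ∀ T ∈ fam ++ hist.map fun r => r.1, ∀ e,
      (T ∩ cls E lab e).card = (B ∩ cls E lab e).card := by
    intro T hT e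
    have hT' : T ⊆ E ∧ Mt (phi L) (spanL Z) T ∧ T.card = ν := by
      rcases List.mem_append.1 hT with h1 | h1
      · exact h.mem T h1
      · obtain ⟨r, hr', rfl⟩ := List.mem_map.1 h1
        exact ⟨(hr r hr').2.1, (hr r hr').1, (hr r hr').2.2⟩
    rw [hfil T hT'.1, hfil B hB.1]
    refine class_card_eq (by rw [hB.2.2, hT'.2.2]) (fun x hx => ?_) _
    rw [← hfil T hT'.1, ← hfil B hB.1]
    by_contra hlt
    exact hno x (hT'.1 hx) _ (List.mem_append_left _ (List.mem_append_left _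
      (List.mem_map_of_mem hT))) (okM_iff.2 ⟨inter_subset_right, not_le.1 hlt,
        hT'.2.1.mono inter_subset_left⟩)
  rw [← hB.2.2]
  refine card_le_of_classes (lab := labf lab) fun e he => ?_
  rw [← hfil M hME, ← hfil B hB.1]
  by_contra hlt
  set S := cls E lab e with hS
  have hBS : Mt (phi L) (spanL Z) (B ∩ S) := hB.2.1.mono inter_subset_left
  have hrank : finrank F2 (spanL Z) + 2 * (B ∩ S).card + 2 ≤
      finrank F2 (sp (phi L) (spanL Z) S) := by
    have h1 := mt_iff_rank.1 (hM.mono (inter_subset_left (s₂ := S)))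
    have h2 := Submodule.finrank_mono
      (sp_mono (φ := phi L) (Z := spanL Z) (inter_subset_right (s₁ := M) (s₂ := S)))
    omega
  have h1 := mt_iff_rank.1 hBS
  obtain ⟨e1, he1, hl1⟩ := exists_not_lin (φ := phi L) (Z := spanL Z) (S := S)
    (le_sp (φ := phi L) (B ∩ S)) (by omega)
  have he1B := not_mem_of_not_lin hl1
  obtain ⟨n, hn, -⟩ := exists_fl hBS hl1 fun hm => hno e (hME he) _ (List.mem_append_left _
    (List.mem_append_right _ (mem_augs.2 ⟨e1, he1, he1B, rfl, hm⟩)))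
    (okM_iff.2 ⟨insert_subset he1 inter_subset_right, by
      rw [card_insert_of_notMem he1B]; exact Nat.lt_succ_self _, hm⟩)
  have h2 := hn.rank
  rw [card_insert_of_notMem he1B] at h2
  obtain ⟨e2, he2, hl2⟩ := exists_not_lin (φ := phi L) (Z := spanL Z) (S := S)
    (le_sp (φ := phi L) (insert e1 (B ∩ S))) (by omega)
  have hDS : insert e2 (insert e1 (B ∩ S)) ⊆ S :=
    insert_subset he2 (insert_subset he1 inter_subset_right)
  have hDc : (insert e2 (insert e1 (B ∩ S))).card = (B ∩ S).card + 2 := by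
    rw [card_insert_of_notMem (not_mem_of_not_lin hl2), card_insert_of_notMem he1B]
  have hDr : finrank F2 (spanL Z) + 2 * (B ∩ S).card + 2 ≤
      finrank F2 (sp (phi L) (spanL Z) (insert e2 (insert e1 (B ∩ S)))) := by
    have := rank_insert_lt hl2
    omega
  have hfam : ∀ T ∈ fam, Mt (phi L) (spanL Z) T ∧ (T ∩ S).card = (B ∩ S).card := fun T hT =>
    ⟨(h.mem T hT).2.1, hcount T (List.mem_append_left _ hT) e⟩
  have hext := t2_spec (L := L) (Z := Z) (S := S) (E := E) (filter_subset _ _) hfam h.cov hist lab _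
    hH (fun x hx y hy hxy => mem_filter.2 ⟨hy, hxy ▸ (mem_filter.1 hx).2⟩)
    (fun r hr' => hcount r.1 (List.mem_append_right _ (List.mem_map_of_mem hr')) e) hDS hDc hDr (by
      rw [good2_iff]
      rcases dichotomy hn hl2 with hf | ⟨n', hn', ht⟩
      · exact Or.inl (ext_ne_nil hDS hDc hDr hfam h.cov hf)
      · obtain ⟨x, hx⟩ := Function.ne_iff.1 hn.ne
        replace hx : n x ≠ 0 := hx
        refine Or.inr ⟨x, mem_of_ne ht.mem hx, e2, mem_insert_self _ _, ht.ne_of hx hn',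
          ht.mt hx hn', ?_⟩
        rw [(mem_filter.1 (hDS (mem_of_ne ht.mem hx))).2, (mem_filter.1 he2).2])
  obtain ⟨T, hT⟩ := List.exists_mem_of_ne_nil _ hext
  exact hno e (hME he) T (List.mem_append_right _ (List.mem_flatMap.2
    ⟨(e1, e2), mem_prs.2 ⟨he1, he2⟩, hT⟩)) (List.mem_filter.1 hT).2

theorem level1_spec (h : Fam L Z E fam ν) :
    (∀ M ∈ level1 L Z E fam, M ⊆ E ∧ Mt (phi L) (spanL Z) M ∧ M.card = ν + 1) ∧
      (level1 L Z E fam = [] → ∀ M ⊆ E, Mt (phi L) (spanL Z) M → M.card ≤ ν) := by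
  constructor
  · intro M hM
    obtain ⟨T, hT, hM⟩ := List.mem_flatMap.1 hM
    obtain ⟨g, hg, hgT, rfl, hm⟩ := mem_augs.1 hM
    obtain ⟨k1, -, k3, -⟩ := finals1_spec h hT
    exact ⟨insert_subset hg k1, hm, by rw [card_insert_of_notMem hgT, k3]⟩
  intro h0 M hME hM
  obtain ⟨⟨h1, h2⟩, h3⟩ := climb_spec (cands := cands1 L Z E fam) (pot := pot1 E)
    (fun s => Hist L Z E s.1 s.2 ∧
      ∀ r ∈ s.1, Mt (phi L) (spanL Z) r.1 ∧ r.1 ⊆ E ∧ r.1.card = ν)
    (fun s t hs ht _ => by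
      obtain ⟨ha, T, hT, p, hp, rfl⟩ := mem_cands1.1 ht
      obtain ⟨k1, k2, k3, -⟩ := finals1_spec h hT
      refine ⟨(merge_spec h hs.1 ha hT hp).1, fun r hr => ?_⟩
      rcases List.mem_cons.1 hr with rfl | hr
      exacts [⟨k2, k1, k3⟩, hs.2 r hr])
    (N := E.card + 1) (fun s _ => by unfold pot1; omega) (s := ([], List.range L.length))
    ⟨fun x hx y hy hxy => by
      have e : ∀ z ∈ E, labf (List.range L.length) z = z := fun z hz => by
        rw [labf, List.getD_eq_getElem _ _ (by simpa using h.sub hz)]; simp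
      rwa [e x hx, e y hy] at hxy, by simp⟩ _ rfl
  set s := climb (cands1 L Z E fam) (pot1 E) (E.card + 1) ([], List.range L.length) with hs
  refine class_bound h h1 h2 (fun e he => ?_) hME hM
  by_contra hne
  obtain ⟨M', hM'⟩ := List.exists_mem_of_ne_nil _ hne
  have hT : joint L Z Z E Z s.2 (cls E s.2 e) fam (fam.headD ∅) M' ∈ finals1 L Z E fam s :=
    List.mem_flatMap.2 ⟨e, (mem_sort _).2 he, List.mem_map_of_mem hM'⟩
  rcases (finals1_spec h hT).2.2.2 with ⟨g, k1, k2, k3⟩ | ⟨g, f, k⟩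
  · exact List.ne_nil_of_mem (List.mem_flatMap.2 ⟨_, hT, mem_augs.2 ⟨g, k1, k2, rfl, k3⟩⟩) h0
  · have hp : (g, f) ∈ bad L Z E Z s.2 _ := mem_bad.2 k
    exact absurd (merge_spec h h1 h0 hT hp).2
      (not_lt.2 (h3 _ (mem_cands1.2 ⟨h0, _, hT, _, hp, rfl⟩)))

end Pool.Agent.MP_0c5eb8_lc.H40
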