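import Pool.Agent.MP_0c5eb8_lc.H40.FinPT
import Pool.Agent.MP_0c5eb8_lc.H40.Flowers

/-!
Linear algebra over the field with two elements; vectors are finite sets of coordinates.
-/

namespace Pool.Agent.MP_0c5eb8_lc.H40

open Pool.Agent.Shared.H56 Polynomial Module

/-- The field with two elements. -/
def F2 : Type := ZMod 2

instance : Field F2 := inferInstanceAs (Field (ZMod 2))

lemma one_add_one : (1 : F2) + 1 = 0 := show (1 : ZMod 2) + 1 = 0 from rfl

/-- The space of vectors. -/
abbrev VV := ℕ → F2

/-- The vector of a finite set. -/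
def chi (s : Finset ℕ) : VV := fun i => if i ∈ s then 1 else 0

lemma chi_symmDiff (s t : Finset ℕ) : chi (symmDiff s t) = chi s + chi t := by
  funext i
  by_cases h1 : i ∈ s <;> by_cases h2 : i ∈ t <;>
    simp [chi, Finset.mem_symmDiff, h1, h2, one_add_one]

@[simp] lemma chi_empty : chi ∅ = 0 := by funext i; simp [chi]

lemma chi_eq_zero {s : Finset ℕ} : chi s = 0 ↔ s = ∅ := by
  refine ⟨fun h => Finset.eq_empty_of_forall_notMem fun i hi => ?_, fun h => by simp [h]⟩
  have := congrFun h i
  simp [chi, hi] at this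

/-- The span of a list of vectors. -/
def spanL (R : List (Finset ℕ)) : Submodule F2 VV := Submodule.span F2 (chi '' {v | v ∈ R})

instance (R : List (Finset ℕ)) : FiniteDimensional F2 (spanL R) :=
  FiniteDimensional.span_of_finite _ ((List.finite_toSet R).image _)

lemma mem_spanL {R : List (Finset ℕ)} {v : Finset ℕ} (h : v ∈ R) : chi v ∈ spanL R :=
  Submodule.subset_span ⟨v, h, rfl⟩

lemma spanL_le {R : List (Finset ℕ)} {T : Submodule F2 VV} : spanL R ≤ T ↔ ∀ v ∈ R, chi v ∈ T := by
  rw [spanL, Submodule.span_le]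
  exact ⟨fun h v hv => h ⟨v, hv, rfl⟩, by rintro h _ ⟨v, hv, rfl⟩; exact h v hv⟩

@[simp] lemma spanL_nil : spanL [] = ⊥ := by simp [spanL]

lemma spanL_append (R R' : List (Finset ℕ)) : spanL (R ++ R') = spanL R ⊔ spanL R' := by
  refine le_antisymm (spanL_le.2 fun v hv => ?_) (sup_le (spanL_le.2 fun v hv => ?_)
    (spanL_le.2 fun v hv => ?_))
  · rcases List.mem_append.1 hv with h | h
    exacts [Submodule.mem_sup_left (mem_spanL h), Submodule.mem_sup_right (mem_spanL h)]
  · exact mem_spanL (List.mem_append_left _ hv)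
  · exact mem_spanL (List.mem_append_right _ hv)

lemma spanL_singleton (v : Finset ℕ) : spanL [v] = Submodule.span F2 {chi v} := by
  simp [spanL]

lemma spanL_cons (v : Finset ℕ) (R : List (Finset ℕ)) :
    spanL (v :: R) = Submodule.span F2 {chi v} ⊔ spanL R := by
  rw [← spanL_singleton, ← spanL_append]; rfl

lemma finrank_spanL_le (R : List (Finset ℕ)) : finrank F2 (spanL R) ≤ R.length := by
  induction R with
  | nil => simp
  | cons v R ih =>
    rw [spanL_cons]
    have h1 := Submodule.finrank_add_le_finrank_add_finrank (Submodule.span F2 {chi v}) (spanL R)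
    have h2 : finrank F2 (Submodule.span F2 {chi v}) ≤ 1 := by
      simpa using finrank_span_le_card (R := F2) ({chi v} : Set VV)
    simp only [List.length_cons]; omega

/-- A row with a tag. -/
abbrev Row := Finset ℕ × Finset ℕ

/-- The span of a list of rows. -/
def span2 (R : List Row) : Submodule F2 (VV × VV) :=
  Submodule.span F2 ((fun v : Row => (chi v.1, chi v.2)) '' {v | v ∈ R})

lemma mem_span2 {R : List Row} {v : Row} (h : v ∈ R) : (chi v.1, chi v.2) ∈ span2 R :=
  Submodule.subset_span ⟨v, h, rfl⟩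

lemma span2_le {R : List Row} {T : Submodule F2 (VV × VV)} :
    span2 R ≤ T ↔ ∀ v ∈ R, (chi v.1, chi v.2) ∈ T := by
  rw [span2, Submodule.span_le]
  exact ⟨fun h v hv => h ⟨v, hv, rfl⟩, by rintro h _ ⟨v, hv, rfl⟩; exact h v hv⟩

/-- Eliminate the coordinate `i`. -/
def elimStep (R : List Row) (i : ℕ) : List Row :=
  R.map fun v => if i ∈ v.1 then
    (symmDiff v.1 ((R.filter fun w => decide (i ∈ w.1)).headD (∅, ∅)).1,
      symmDiff v.2 ((R.filter fun w => decide (i ∈ w.1)).headD (∅, ∅)).2) else v

lemma pivot_spec {R : List Row} {i : ℕ} {v : Row} (hv : v ∈ R) (hi : i ∈ v.1) :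
    (R.filter fun w => decide (i ∈ w.1)).headD (∅, ∅) ∈ R ∧
      i ∈ ((R.filter fun w => decide (i ∈ w.1)).headD (∅, ∅)).1 := by
  cases h : R.filter fun w => decide (i ∈ w.1) with
  | nil =>
    have : v ∈ R.filter fun w => decide (i ∈ w.1) := List.mem_filter.2 ⟨hv, by simpa using hi⟩
    simp [h] at this
  | cons x l =>
    have : x ∈ R.filter fun w => decide (i ∈ w.1) := by simp [h]
    exact ⟨(List.mem_filter.1 this).1, by simpa using (List.mem_filter.1 this).2⟩

lemma mem_span2_elimStep {R : List Row} {i : ℕ} {x : VV × VV} :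
    x ∈ span2 (elimStep R i) ↔ x ∈ span2 R ∧ x.1 i = 0 := by
  set w := (R.filter fun w => decide (i ∈ w.1)).headD (∅, ∅) with hw
  let ev : (VV × VV) →ₗ[F2] F2 := (LinearMap.proj i).comp (LinearMap.fst F2 VV VV)
  constructor
  · intro hx
    have : span2 (elimStep R i) ≤ span2 R ⊓ LinearMap.ker ev := by
      refine span2_le.2 fun v hv => ?_
      obtain ⟨u, hu, rfl⟩ := List.mem_map.1 hv
      by_cases hi : i ∈ u.1
      · obtain ⟨h1, h2⟩ := pivot_spec hu hi
        rw [if_pos hi]
        refine ⟨?_, ?_⟩
        · simp only [chi_symmDiff]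
          exact (span2 R).add_mem (mem_span2 hu) (mem_span2 h1)
        · show chi _ i = 0
          simp only [chi_symmDiff, Pi.add_apply]
          simp only [chi, hi, if_true]
          rw [if_pos h2, one_add_one]
      · rw [if_neg hi]
        exact ⟨mem_span2 hu, show chi _ i = 0 by simp [chi, hi]⟩
    exact this hx
  · rintro ⟨hx, h0⟩
    let π : (VV × VV) →ₗ[F2] (VV × VV) := LinearMap.id + ev.smulRight (chi w.1, chi w.2)
    have : span2 R ≤ (span2 (elimStep R i)).comap π := by
      refine span2_le.2 fun u hu => ?_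
      have h1 := mem_span2 (List.mem_map_of_mem (f := fun v : Row => if i ∈ v.1 then
        (symmDiff v.1 w.1, symmDiff v.2 w.2) else v) hu)
      show π _ ∈ span2 (elimStep R i)
      have e : π (chi u.1, chi u.2) =
          (chi (if i ∈ u.1 then (symmDiff u.1 w.1, symmDiff u.2 w.2) else u).1,
            chi (if i ∈ u.1 then (symmDiff u.1 w.1, symmDiff u.2 w.2) else u).2) := by
        by_cases hi : i ∈ u.1
        · simp [π, ev, hi, chi_symmDiff, show chi u.1 i = 1 by simp [chi, hi]]
        · simp [π, ev, hi, show chi u.1 i = 0 by simp [chi, hi]]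
      rw [e]; exact h1
    have h2 : π x ∈ span2 (elimStep R i) := this hx
    simpa [π, ev, h0] using h2

/-- Eliminate all coordinates. -/
def elim (R : List Row) : List Row := (R.flatMap fun v => v.1.sort (· ≤ ·)).foldl elimStep R

lemma mem_span2_foldl {I : List ℕ} {R : List Row} {x : VV × VV} :
    x ∈ span2 (I.foldl elimStep R) ↔ x ∈ span2 R ∧ ∀ i ∈ I, x.1 i = 0 := by
  induction I generalizing R with
  | nil => simp
  | cons i I ih => simp [ih, mem_span2_elimStep, and_assoc]

lemma mem_span2_elim {R : List Row} {x : VV × VV} :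
    x ∈ span2 (elim R) ↔ x ∈ span2 R ∧ x.1 = 0 := by
  rw [elim, mem_span2_foldl]
  refine and_congr_right fun hx => ⟨fun h => funext fun i => ?_, fun h i _ => by simp [h]⟩
  by_cases hi : i ∈ R.flatMap fun v => v.1.sort (· ≤ ·)
  · exact h i hi
  · have : span2 R ≤ LinearMap.ker ((LinearMap.proj i).comp (LinearMap.fst F2 VV VV)) := by
      refine span2_le.2 fun v hv => ?_
      have : i ∉ v.1 := fun h' => hi (List.mem_flatMap.2 ⟨v, hv, by simpa using h'⟩)
      show chi _ i = 0
      simp [chi, this]
    exact this hx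

/-- Generators of the intersection of two spans. -/
def rawInter (K W : List (Finset ℕ)) : List (Finset ℕ) :=
  (elim (K.map (fun k => (k, ∅)) ++ W.map fun w => (w, w))).map fun v => v.2

lemma spanL_rawInter (K W : List (Finset ℕ)) : spanL (rawInter K W) = spanL K ⊓ spanL W := by
  set R : List Row := K.map (fun k => (k, ∅)) ++ W.map fun w => (w, w) with hR
  have h1 : span2 R ≤ (spanL W).comap (LinearMap.snd F2 VV VV) ⊓
      (spanL K).comap (LinearMap.fst F2 VV VV + LinearMap.snd F2 VV VV) := by
    refine span2_le.2 fun v hv => ?_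
    rcases List.mem_append.1 hv with h | h
    · obtain ⟨k, hk, rfl⟩ := List.mem_map.1 h
      exact ⟨by simp, by simpa using mem_spanL hk⟩
    · obtain ⟨w, hw, rfl⟩ := List.mem_map.1 h
      refine ⟨by simpa using mem_spanL hw, ?_⟩
      have : chi w + chi w = 0 := by rw [← chi_symmDiff]; simp
      simp [this]
  refine le_antisymm (spanL_le.2 fun v hv => ?_) fun y hy => ?_
  · obtain ⟨u, hu, rfl⟩ := List.mem_map.1 hv
    obtain ⟨h2, h3⟩ := mem_span2_elim.1 (mem_span2 hu)
    have h4 := h1 h2
    refine ⟨?_, h4.1⟩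
    have h5 : chi u.1 + chi u.2 ∈ spanL K := h4.2
    rwa [show chi u.1 = 0 from h3, zero_add] at h5
  · have h2 : spanL K ≤ (span2 R).comap (LinearMap.inl F2 VV VV) := spanL_le.2 fun k hk => by
      simpa using mem_span2 (R := R) (v := (k, ∅))
        (List.mem_append_left _ (List.mem_map_of_mem hk))
    have h3 : spanL W ≤ (span2 R).comap (LinearMap.prod LinearMap.id LinearMap.id) :=
      spanL_le.2 fun w hw => mem_span2 (R := R) (v := (w, w))
        (List.mem_append_right _ (List.mem_map_of_mem hw))
    have h4 : ((0, y) : VV × VV) ∈ span2 (elim R) := by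
      refine mem_span2_elim.2 ⟨?_, rfl⟩
      have := (span2 R).sub_mem (h3 hy.2) (h2 hy.1)
      simpa using this
    have h5 : span2 (elim R) ≤ (spanL (rawInter K W)).comap (LinearMap.snd F2 VV VV) :=
      span2_le.2 fun v hv => mem_spanL (List.mem_map_of_mem hv)
    exact h5 h4

/-- Membership in a span. -/
def inSp (x : Finset ℕ) (R : List (Finset ℕ)) : Bool :=
  decide (x = ∅) || (rawInter R [x]).any fun v => decide (v ≠ ∅)

lemma inSp_iff {x : Finset ℕ} {R : List (Finset ℕ)} : inSp x R = true ↔ chi x ∈ spanL R := by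
  simp only [inSp, Bool.or_eq_true, decide_eq_true_eq, List.any_eq_true]
  constructor
  · rintro (rfl | ⟨v, hv, h0⟩)
    · simp
    · have h1 := mem_spanL hv
      rw [spanL_rawInter, spanL_singleton] at h1
      obtain ⟨c, hc⟩ := Submodule.mem_span_singleton.1 h1.2
      have hc0 : c ≠ 0 := by
        rintro rfl
        exact h0 (chi_eq_zero.1 (by simpa using hc.symm))
      have := (spanL R).smul_mem c⁻¹ h1.1
      rwa [← hc, smul_smul, inv_mul_cancel₀ hc0, one_smul] at this
  · intro h
    by_contra h'
    rw [not_or] at h'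
    have h1 : chi x ∈ spanL (rawInter R [x]) := by
      rw [spanL_rawInter]; exact ⟨h, mem_spanL (by simp)⟩
    have h2 : spanL (rawInter R [x]) ≤ ⊥ := spanL_le.2 fun v hv => by
      have : v = ∅ := by by_contra h0; exact h'.2 ⟨v, hv, h0⟩
      simp [this]
    exact h'.1 (chi_eq_zero.1 (h2 h1))

/-- A basis of the span. -/
def basis (R : List (Finset ℕ)) : List (Finset ℕ) :=
  R.foldl (fun acc g => bif inSp g acc then acc else g :: acc) []

lemma basis_aux (R acc : List (Finset ℕ)) (h : finrank F2 (spanL acc) = acc.length) :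
    ∀ B, B = R.foldl (fun acc g => bif inSp g acc then acc else g :: acc) acc →
      spanL B = spanL acc ⊔ spanL R ∧ finrank F2 (spanL B) = B.length ∧
        ∀ v ∈ B, v ∈ acc ∨ v ∈ R := by
  induction R generalizing acc with
  | nil => rintro B rfl; exact ⟨by simp, h, fun v hv => Or.inl hv⟩
  | cons g R ih =>
    intro B hB
    rw [List.foldl_cons] at hB
    cases hg : inSp g acc with
    | true =>
      rw [hg, cond_true] at hB
      obtain ⟨h1, h2, h3⟩ := ih acc h B hB
      refine ⟨?_, h2, fun v hv => (h3 v hv).imp id (List.mem_cons_of_mem _)⟩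
      rw [h1, spanL_cons, ← sup_assoc, sup_eq_left.2
        ((Submodule.span_singleton_le_iff_mem _ _).2 (inSp_iff.1 hg))]
    | false =>
      rw [hg, cond_false] at hB
      have hg' : chi g ∉ spanL acc := fun h' => by simp [inSp_iff.2 h'] at hg
      have hr : finrank F2 (spanL (g :: acc)) = (g :: acc).length := by
        refine le_antisymm (finrank_spanL_le _) ?_
        have : spanL acc < spanL (g :: acc) := lt_of_le_of_ne
          (spanL_le.2 fun v hv => mem_spanL (List.mem_cons_of_mem _ hv))
          fun h' => hg' (h' ▸ mem_spanL List.mem_cons_self)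
        have := Submodule.finrank_lt_finrank_of_lt this
        simp only [List.length_cons]; omega
      obtain ⟨h1, h2, h3⟩ := ih (g :: acc) hr B hB
      refine ⟨?_, h2, fun v hv => ?_⟩
      · rw [h1, spanL_cons, spanL_cons, sup_comm _ (spanL acc), sup_assoc]
      · rcases h3 v hv with h4 | h4
        · rcases List.mem_cons.1 h4 with rfl | h4
          exacts [Or.inr List.mem_cons_self, Or.inl h4]
        · exact Or.inr (List.mem_cons_of_mem _ h4)

lemma spanL_basis (R : List (Finset ℕ)) : spanL (basis R) = spanL R := by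
  simpa using (basis_aux R [] (by simp) (basis R) rfl).1

lemma length_basis (R : List (Finset ℕ)) : (basis R).length = finrank F2 (spanL R) := by
  rw [← spanL_basis]; exact (basis_aux R [] (by simp) (basis R) rfl).2.1.symm

lemma mem_of_mem_basis {R : List (Finset ℕ)} {v : Finset ℕ} (h : v ∈ basis R) : v ∈ R := by
  simpa using (basis_aux R [] (by simp) (basis R) rfl).2.2 v h

/-- The rank. -/
def rk (R : List (Finset ℕ)) : ℕ := (basis R).length

lemma rk_eq (R : List (Finset ℕ)) : rk R = finrank F2 (spanL R) := length_basis R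

/-- A basis of the intersection of two spans. -/
def inter (K W : List (Finset ℕ)) : List (Finset ℕ) := basis (rawInter K W)

lemma spanL_inter (K W : List (Finset ℕ)) : spanL (inter K W) = spanL K ⊓ spanL W := by
  rw [inter, spanL_basis, spanL_rawInter]

/-! ### Polynomial time -/

variable {α : Type} [N487b59b3 α]

lemma elimStep_sub {R : List Row} {U U' : Finset ℕ} (h : ∀ v ∈ R, v.1 ⊆ U ∧ v.2 ⊆ U') (i : ℕ) :
    ∀ v ∈ elimStep R i, v.1 ⊆ U ∧ v.2 ⊆ U' := by
  intro v hv
  obtain ⟨u, hu, rfl⟩ := List.mem_map.1 hv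
  by_cases hi : i ∈ u.1
  · obtain ⟨h1, -⟩ := pivot_spec hu hi
    rw [if_pos hi]
    exact ⟨symmDiff_le_sup.trans (sup_le (h u hu).1 (h _ h1).1),
      symmDiff_le_sup.trans (sup_le (h u hu).2 (h _ h1).2)⟩
  · rw [if_neg hi]; exact h u hu

lemma elim_sub {R : List Row} {U U' : Finset ℕ} (h : ∀ v ∈ R, v.1 ⊆ U ∧ v.2 ⊆ U') :
    ∀ v ∈ elim R, v.1 ⊆ U ∧ v.2 ⊆ U' := by
  unfold elim
  generalize (R.flatMap fun v => v.1.sort (· ≤ ·)) = I
  induction I generalizing R with
  | nil => exact h
  | cons i I ih => exact ih (elimStep_sub h i)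

/-- The union of a list of sets. -/
def unionL (R : List (Finset ℕ)) : Finset ℕ := (R.flatMap fun v => v.sort (· ≤ ·)).toFinset

lemma subset_unionL {R : List (Finset ℕ)} {v : Finset ℕ} (h : v ∈ R) : v ⊆ unionL R :=
  fun x hx => by simpa [unionL] using ⟨v, h, hx⟩

@[fun_prop] theorem pt_unionL {R : α → List (Finset ℕ)} (hR : PT R) : PT fun a => unionL (R a) := by
  unfold unionL; fun_prop

@[fun_prop] theorem pt_elim {R : α → List Row} (hR : PT R) : PT fun a => elim (R a) := by
  have h1 : PT fun a => unionL ((R a).map fun v => v.1) := by fun_prop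
  have h2 : PT fun a => unionL ((R a).map fun v => v.2) := by fun_prop
  refine pt_foldl_inv (f := fun _ S i => elimStep S i) (by unfold elimStep; fun_prop) hR
    (by fun_prop) (fun a S => S.length = (R a).length ∧ ∀ v ∈ S,
      v.1 ⊆ unionL ((R a).map fun v => v.1) ∧ v.2 ⊆ unionL ((R a).map fun v => v.2))
    (fun a => sz (R a) * (2 * (2 * sz (unionL ((R a).map fun v => v.1)) + 1 +
      sz (unionL ((R a).map fun v => v.2))) + 1))
    ((PB.sz hR).mul ((((PB.const 2).mul ((((PB.const 2).mul (PB.sz h1)).add (PB.const 1)).add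
      (PB.sz h2)))).add (PB.const 1)))
    (fun a => ⟨rfl, fun v hv => ⟨subset_unionL (List.mem_map_of_mem hv),
      subset_unionL (List.mem_map_of_mem hv)⟩⟩)
    (fun a c x _ h => ⟨by simp [elimStep, h.1], elimStep_sub h.2 x⟩) fun a c h => ?_
  refine sz_list_le (h.1.le.trans (length_le_sz _)) fun v hv => ?_
  have h3 := sz_mono (h.2 v hv).1
  have h4 := sz_mono (h.2 v hv).2
  rw [show v = (v.1, v.2) from rfl, sz_pair]
  omega

@[fun_prop] theorem pt_rawInter {K W : α → List (Finset ℕ)} (hK : PT K) (hW : PT W) :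
    PT fun a => rawInter (K a) (W a) := by
  unfold rawInter; fun_prop

@[fun_prop] theorem pt_inSp {x : α → Finset ℕ} {R : α → List (Finset ℕ)} (hx : PT x) (hR : PT R) :
    PT fun a => inSp (x a) (R a) := by
  unfold inSp; fun_prop

@[fun_prop] theorem pt_basis {R : α → List (Finset ℕ)} (hR : PT R) : PT fun a => basis (R a) := by
  refine PT.foldl_add (f := fun _ acc g => bif inSp g acc then acc else g :: acc) (by fun_prop)
    (by fun_prop) hR ⟨2 * X + 1, fun a c x _ => ?_⟩
  cases inSp x c
  · simp; omega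
  · simp

@[fun_prop] theorem pt_rk {R : α → List (Finset ℕ)} (hR : PT R) : PT fun a => rk (R a) := by
  unfold rk; fun_prop

@[fun_prop] theorem pt_interL {K W : α → List (Finset ℕ)} (hK : PT K) (hW : PT W) :
    PT fun a => inter (K a) (W a) := by
  unfold inter; fun_prop

lemma inter_bound (K W : List (Finset ℕ)) :
    (inter K W).length ≤ W.length ∧ ∀ v ∈ inter K W, v ⊆ unionL W := by
  constructor
  · rw [inter, length_basis, spanL_rawInter]
    exact (Submodule.finrank_mono inf_le_right).trans (finrank_spanL_le W)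
  · intro v hv
    obtain ⟨u, hu, rfl⟩ := List.mem_map.1 (mem_of_mem_basis hv)
    refine (elim_sub (U := unionL K ∪ unionL W) (fun w hw => ?_) u hu).2
    rcases List.mem_append.1 hw with h | h
    · obtain ⟨k, hk, rfl⟩ := List.mem_map.1 h
      exact ⟨(subset_unionL hk).trans Finset.subset_union_left, Finset.empty_subset _⟩
    · obtain ⟨k, hk, rfl⟩ := List.mem_map.1 h
      exact ⟨(subset_unionL hk).trans Finset.subset_union_right, subset_unionL hk⟩

end Pool.Agent.MP_0c5eb8_lc.H40
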