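import Pool.Agent.MP_0c5eb8_lc.H40.Basic

/-!
Exchange arguments for linear matroid parity.
-/

open Module Finset

namespace Pool.Agent.MP_0c5eb8_lc.H40

variable {F V : Type} [Field F] [AddCommGroup V] [Module F V] (φ : (ℕ → F × F) →ₗ[F] V)

/-- `g` enters and `f` leaves the matching `B`. -/
structure Exch (Z : Submodule F V) (E B : Finset ℕ) (g f : ℕ) : Prop where
  mem : g ∈ E
  out : ¬ Lin φ g (sp φ Z B)
  memf : f ∈ B
  mt : Mt φ Z (insert g (B.erase f))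

/-- An augmentation, or an exchange that loses `K` or joins two labels, is available at `B`. -/
def Stop (Z : Submodule F V) (E : Finset ℕ) (K : Submodule F V) (lab : ℕ → ℕ) (B : Finset ℕ) :
    Prop :=
  (∃ g ∈ E, g ∉ B ∧ Mt φ Z (insert g B)) ∨
    ∃ g f, Exch φ Z E B g f ∧ (¬ K ≤ sp φ Z (insert g (B.erase f)) ∨ lab f ≠ lab g)

variable {φ} {Z K : Submodule F V} {E B : Finset ℕ} {lab : ℕ → ℕ}

lemma erase_ins {g f : ℕ} (h : f ≠ g) (B : Finset ℕ) :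
    (insert g B).erase f = insert g (B.erase f) := erase_insert_of_ne h.symm

lemma Exch.not_mem {g f : ℕ} (h : Exch φ Z E B g f) : g ∉ B := not_mem_of_not_lin h.out

lemma Exch.ne {g f : ℕ} (h : Exch φ Z E B g f) : f ≠ g := fun e => h.not_mem (e ▸ h.memf)

lemma card_swap {g f : ℕ} {B : Finset ℕ} (hg : g ∉ B) (hf : f ∈ B) :
    (insert g (B.erase f)).card = B.card := by
  rw [card_insert_of_notMem (fun h => hg (mem_of_mem_erase h)), card_erase_of_mem hf]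
  have := card_pos.2 ⟨f, hf⟩
  omega

lemma Exch.card {g f : ℕ} (h : Exch φ Z E B g f) : (insert g (B.erase f)).card = B.card :=
  card_swap h.not_mem h.memf

lemma Exch.subset {g f : ℕ} (h : Exch φ Z E B g f) (hB : B ⊆ E) : insert g (B.erase f) ⊆ E :=
  insert_subset h.mem ((erase_subset _ _).trans hB)

lemma exch_fl (hB : Mt φ Z B) (hs : ¬ Stop φ Z E K lab B) {g : ℕ} (hg : g ∈ E)
    (ho : ¬ Lin φ g (sp φ Z B)) :
    ∃ n, Fl φ Z (insert g B) n ∧ n g ≠ 0 ∧ ∀ f, n f ≠ 0 → f ≠ g → Exch φ Z E B g f := by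
  obtain ⟨n, hn, hng⟩ := exists_fl hB ho fun h => hs (Or.inl ⟨g, hg, not_mem_of_not_lin ho, h⟩)
  refine ⟨n, hn, hng, fun f hf hfg => ⟨hg, ho, ?_, ?_⟩⟩
  · exact (mem_insert.1 (mem_of_ne hn.mem hf)).resolve_left hfg
  · rw [← erase_ins hfg]; exact hn.mt_erase hf

lemma Exch.le (hs : ¬ Stop φ Z E K lab B) {g f : ℕ} (h : Exch φ Z E B g f) :
    K ≤ sp φ Z (insert g (B.erase f)) := by
  by_contra h'; exact hs (Or.inr ⟨g, f, h, Or.inl h'⟩)

lemma Exch.lab_eq (hs : ¬ Stop φ Z E K lab B) {g f : ℕ} (h : Exch φ Z E B g f) :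
    lab f = lab g := by
  by_contra h'; exact hs (Or.inr ⟨g, f, h, Or.inr h'⟩)

lemma card_inter_swap {g f : ℕ} {B T : Finset ℕ} (hg : g ∉ B) (hgT : g ∈ T) (hf : f ∉ T) :
    (insert g (B.erase f) ∩ T).card = (B ∩ T).card + 1 := by
  have : insert g (B.erase f) ∩ T = insert g (B ∩ T) := by
    ext x; simp only [mem_inter, mem_insert, mem_erase]
    constructor
    · rintro ⟨rfl | ⟨_, h⟩, h'⟩
      exacts [Or.inl rfl, Or.inr ⟨h, h'⟩]
    · rintro (rfl | ⟨h, h'⟩)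
      exacts [⟨Or.inl rfl, hgT⟩, ⟨Or.inr ⟨fun e => hf (e ▸ h'), h⟩, h'⟩]
  rw [this, card_insert_of_notMem (fun h => hg (mem_inter.1 h).1)]

lemma sp_eq_of_le [FiniteDimensional F Z] {B' : Finset ℕ} (hB' : Mt φ Z B')
    (hc : B'.card = B.card) (h : sp φ Z B' ≤ sp φ Z B) : sp φ Z B' = sp φ Z B :=
  Submodule.eq_of_le_of_finrank_le h (by
    rw [mt_iff_rank.1 hB', hc]; exact rank_le B)

/-- A matching with another span has a pair outside the span, and an exchange towards it. -/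
lemma exists_toward [FiniteDimensional F Z] {B' : Finset ℕ} (hB : Mt φ Z B) (hB' : Mt φ Z B')
    (hc : B'.card = B.card) (hE : B' ⊆ E) (hs : ¬ Stop φ Z E K lab B)
    (hne : sp φ Z B' ≠ sp φ Z B) :
    ∃ g n f, g ∈ B' ∧ f ∉ B' ∧ Fl φ Z (insert g B) n ∧ n g ≠ 0 ∧ n f ≠ 0 ∧
      ∀ f, n f ≠ 0 → f ≠ g → Exch φ Z E B g f := by
  have : ∃ g ∈ B', ¬ Lin φ g (sp φ Z B) := by
    by_contra h
    push Not at h
    exact hne (sp_eq_of_le hB' hc (sp_le (le_sp _) h))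
  obtain ⟨g, hg, ho⟩ := this
  obtain ⟨n, hn, hng, hex⟩ := exch_fl hB hs (hE hg) ho
  obtain ⟨f, hf, hfB⟩ := hn.exists_not_mem hB'
  exact ⟨g, n, f, hg, hfB, hn, hng, hf, hex⟩

/-- End of the alignment procedure. -/
lemma align_end [FiniteDimensional F Z] {B' : Finset ℕ} (hB : Mt φ Z B) (hB' : Mt φ Z B')
    (hc : B'.card = B.card) (hE : B' ⊆ E) (hs : ¬ Stop φ Z E K lab B)
    (hmax : ∀ g f, Exch φ Z E B g f → (insert g (B.erase f) ∩ B').card ≤ (B ∩ B').card) :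
    sp φ Z B' = sp φ Z B := by
  by_contra hne
  obtain ⟨g, n, f, hg, hf, -, -, hnf, hex⟩ := exists_toward hB hB' hc hE hs hne
  have hfg : f ≠ g := fun e => hf (e ▸ hg)
  have h1 := hmax g f (hex f hnf hfg)
  rw [card_inter_swap (hex f hnf hfg).not_mem hg hf] at h1
  omega

variable (φ) in
open Classical in
/-- Potential of the joint exchange procedure. -/
noncomputable def pot2 (Z : Submodule F V) (W : ℕ) (B M B' : Finset ℕ) : ℕ :=
  (((M ∩ B).card * 2 + if ∃ e ∈ M, ¬ Lin φ e (sp φ Z B) then 1 else 0) * 2 +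
    if ∃ t ∈ M, t ∉ B ∧ ¬ Lin φ t (sp φ Z B') then 1 else 0) * W + (B ∩ B').card

lemma lex_lt {a a' c c' W : ℕ} (h : a < a') (hc : c < W) : a * W + c < a' * W + c' := by
  nlinarith

lemma pot2_lt_of_card {W : ℕ} {B M B' B1 M1 B3 : Finset ℕ} (hW : B'.card < W)
    (h : (M ∩ B).card < (M1 ∩ B1).card) : pot2 φ Z W B M B' < pot2 φ Z W B1 M1 B3 := by
  refine lex_lt ?_ ((card_le_card inter_subset_right).trans_lt hW)
  split_ifs <;> omega

lemma pot2_lt_of_out {W : ℕ} {B M B' B1 M1 B3 : Finset ℕ} (hW : B'.card < W)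
    (h : (M ∩ B).card ≤ (M1 ∩ B1).card) (h1 : ¬ ∃ e ∈ M, ¬ Lin φ e (sp φ Z B))
    (h2 : ∃ e ∈ M1, ¬ Lin φ e (sp φ Z B1)) : pot2 φ Z W B M B' < pot2 φ Z W B1 M1 B3 := by
  refine lex_lt ?_ ((card_le_card inter_subset_right).trans_lt hW)
  rw [if_neg h1, if_pos h2]
  split_ifs <;> omega

lemma pot2_lt_of_target {W : ℕ} {B M B' B3 : Finset ℕ} (hW : B'.card < W)
    (h1 : ¬ ∃ t ∈ M, t ∉ B ∧ ¬ Lin φ t (sp φ Z B'))
    (h2 : ∃ t ∈ M, t ∉ B ∧ ¬ Lin φ t (sp φ Z B3)) : pot2 φ Z W B M B' < pot2 φ Z W B M B3 := by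
  refine lex_lt ?_ ((card_le_card inter_subset_right).trans_lt hW)
  rw [if_neg h1, if_pos h2]
  omega

lemma pot2_lt_of_near {W : ℕ} {B M B' B1 M1 : Finset ℕ}
    (h : (M ∩ B).card ≤ (M1 ∩ B1).card) (h1 : ¬ ∃ e ∈ M, ¬ Lin φ e (sp φ Z B))
    (h2 : ∃ t ∈ M1, t ∉ B1 ∧ ¬ Lin φ t (sp φ Z B')) (h3 : (B ∩ B').card < (B1 ∩ B').card) :
    pot2 φ Z W B M B' < pot2 φ Z W B1 M1 B' := by
  unfold pot2
  refine add_lt_add_of_le_of_lt (Nat.mul_le_mul_right _ ?_) h3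
  rw [if_neg h1, if_pos h2]
  split_ifs <;> omega

/-- The joint exchange step. -/
theorem joint_step [FiniteDimensional F Z] {Z2 : Submodule F V} {S M B' : Finset ℕ}
    {𝓑 : List (Finset ℕ)} {W : ℕ} (h12 : Z ≤ Z2) (h2K : Z2 ≤ K) (hZ : Z2 ≤ sp φ Z B)
    (hB : Mt φ Z B) (hs : ¬ Stop φ Z E K lab B) (hSE : S ⊆ E)
    (hS : ∀ g f, Exch φ Z E B g f → (f ∈ S ↔ g ∈ S)) (hMS : M ⊆ S) (hM : Mt φ Z2 M)
    (h𝓑 : ∀ B' ∈ 𝓑, B' ⊆ E ∧ Mt φ Z B' ∧ B'.card = B.card)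
    (hcov : ∀ e ∈ S, ∃ B' ∈ 𝓑, ¬ Lin φ e (sp φ Z B')) (hB' : B' ∈ 𝓑) (hW : B.card < W)
    (hMB : ¬ M ⊆ B) :
    ∃ B1 M1 B3, (B1 = B ∨ ∃ g f, Exch φ Z E B g f ∧ B1 = insert g (B.erase f)) ∧
      (M1 = M ∨ ∃ h ∈ S, h ∉ M ∧ ∃ f ∈ M, M1 = insert h (M.erase f) ∧ Mt φ Z2 M1) ∧
      B3 ∈ 𝓑 ∧ pot2 φ Z W B M B' < pot2 φ Z W B1 M1 B3 := by
  classical
  have hW' : B'.card < W := by rw [(h𝓑 B' hB').2.2]; exact hW
  by_cases hout : ∃ e ∈ M, ¬ Lin φ e (sp φ Z B)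
  · obtain ⟨e, heM, he⟩ := hout
    obtain ⟨n, hn, -, hex⟩ := exch_fl hB hs (hSE (hMS heM)) he
    obtain ⟨f, hf, hfM⟩ := hn.exists_not_mem (hM.mono_left h12)
    have hfe : f ≠ e := fun h => hfM (h ▸ heM)
    refine ⟨_, M, B', Or.inr ⟨e, f, hex f hf hfe, rfl⟩, Or.inl rfl, hB', pot2_lt_of_card hW' ?_⟩
    rw [inter_comm M, inter_comm M, card_inter_swap (not_mem_of_not_lin he) heM hfM]
    omega
  by_cases htar : ∃ t ∈ M, t ∉ B ∧ ¬ Lin φ t (sp φ Z B')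
  swap
  · obtain ⟨t, htM, htB⟩ := not_subset.1 hMB
    obtain ⟨B3, h3, ht3⟩ := hcov t (hMS htM)
    exact ⟨B, M, B3, Or.inl rfl, Or.inl rfl, h3, pot2_lt_of_target hW' htar ⟨t, htM, htB, ht3⟩⟩
  obtain ⟨t, htM, htB, htB'⟩ := htar
  have hin : ∀ e ∈ M, Lin φ e (sp φ Z B) := by
    intro e he; by_contra h; exact hout ⟨e, he, h⟩
  obtain ⟨g, n, f, hg, hf, hn, hng, hnf, hex⟩ := exists_toward hB (h𝓑 B' hB').2.1 (h𝓑 B' hB').2.2
    (h𝓑 B' hB').1 hs (fun h => htB' (h ▸ hin t htM))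
  have hfg : f ≠ g := fun e => hf (e ▸ hg)
  have hx := hex f hnf hfg
  have hgM : g ∉ M := fun h => hx.out (hin g h)
  have htg : t ≠ g := fun e => hgM (e ▸ htM)
  have hnear : (B ∩ B').card < (insert g (B.erase f) ∩ B').card := by
    rw [card_inter_swap hx.not_mem hg hf]; omega
  have ht1 : t ∉ insert g (B.erase f) := fun h => by
    rcases mem_insert.1 h with h | h
    exacts [htg h, htB (mem_of_mem_erase h)]
  by_cases hfM : f ∈ M
  swap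
  · refine ⟨_, M, B', Or.inr ⟨g, f, hx, rfl⟩, Or.inl rfl, hB',
      pot2_lt_of_near (card_le_card fun x hx' => ?_) hout ⟨t, htM, ht1, htB'⟩ hnear⟩
    rcases mem_inter.1 hx' with ⟨h1, h2⟩
    exact mem_inter.2 ⟨h1, mem_insert_of_mem (mem_erase.2 ⟨fun e => hfM (e ▸ h1), h2⟩)⟩
  -- the sets obtained by removing one element of the circuit
  have hrem : ∀ h, n h ≠ 0 → ((insert g B).erase h = B ∨
      ∃ g' f', Exch φ Z E B g' f' ∧ (insert g B).erase h = insert g' (B.erase f')) ∧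
      Z2 ≤ sp φ Z ((insert g B).erase h) ∧ h ∈ S := by
    intro h hh
    have hgS : g ∈ S := (hS g f hx).1 (hMS hfM)
    by_cases hhg : h = g
    · subst hhg
      rw [erase_insert hx.not_mem]
      exact ⟨Or.inl rfl, hZ, hgS⟩
    · rw [erase_ins hhg]
      exact ⟨Or.inr ⟨g, h, hex h hh hhg, rfl⟩, h2K.trans ((hex h hh hhg).le hs),
        (hS g h (hex h hh hhg)).2 hgS⟩
  have hkeep : ∀ h, h ∉ M → M ∩ B ⊆ M ∩ (insert g B).erase h := fun h hh x hx' => by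
    rcases mem_inter.1 hx' with ⟨h1, h2⟩
    exact mem_inter.2 ⟨h1, mem_erase.2 ⟨fun e => hh (e ▸ h1), mem_insert_of_mem h2⟩⟩
  by_cases hout2 : ∃ h, n h ≠ 0 ∧ h ∉ M ∧ ∃ e ∈ M, ¬ Lin φ e (sp φ Z ((insert g B).erase h))
  · obtain ⟨h, hh, hhM, h2⟩ := hout2
    exact ⟨_, M, B', (hrem h hh).1, Or.inl rfl, hB',
      pot2_lt_of_out hW' (card_le_card (hkeep h hhM)) hout h2⟩
  have hnl : ∀ h, n h ≠ 0 → h ∉ M → ¬ Lin φ h (sp φ Z2 M) := by
    intro h hh hhM hl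
    refine hn.not_lin hh (hl.mono (sp_le (hrem h hh).2.1 fun e he => ?_))
    by_contra h'
    exact hout2 ⟨h, hh, hhM, e, he, h'⟩
  by_cases hsw : ∃ h, n h ≠ 0 ∧ h ∉ M ∧ Mt φ Z2 (insert h (M.erase f))
  · obtain ⟨h, hh, hhM, hmt⟩ := hsw
    have htf : t ≠ f := fun e => htB (e ▸ hx.memf)
    refine ⟨_, _, B', Or.inr ⟨g, f, hx, rfl⟩, Or.inr ⟨h, (hrem h hh).2.2, hhM, f, hfM, rfl, hmt⟩,
      hB', pot2_lt_of_near ?_ hout
        ⟨t, mem_insert_of_mem (mem_erase.2 ⟨htf, htM⟩), ht1, htB'⟩ hnear⟩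
    have hhf : h ≠ f := fun e => hhM (e ▸ hfM)
    rw [← card_swap (B := M ∩ B) (g := h) (f := f) (fun h' => hhM (mem_inter.1 h').1)
      (mem_inter.2 ⟨hfM, hx.memf⟩)]
    refine card_le_card fun x hx' => ?_
    rcases mem_insert.1 hx' with rfl | hx'
    · refine mem_inter.2 ⟨mem_insert_self _ _, ?_⟩
      rw [← erase_ins hfg]
      exact mem_erase.2 ⟨hhf, mem_of_ne hn.mem hh⟩
    · rcases mem_erase.1 hx' with ⟨h1, h2⟩
      rcases mem_inter.1 h2 with ⟨h3, h4⟩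
      exact mem_inter.2 ⟨mem_insert_of_mem (mem_erase.2 ⟨h1, h3⟩),
        mem_insert_of_mem (mem_erase.2 ⟨h1, h4⟩)⟩
  have hfl : ∀ h, n h ≠ 0 → h ∉ M →
      ∃ m, Fl φ Z2 (insert h M) m ∧ m h ≠ 0 ∧ m f = 0 := by
    intro h hh hhM
    have hhf : f ≠ h := fun e => hhM (e ▸ hfM)
    have hnm : ¬ Mt φ Z2 (insert h (M.erase f)) := fun h' => hsw ⟨h, hh, hhM, h'⟩
    obtain ⟨m, hm, hmh⟩ := exists_fl hM (hnl h hh hhM)
      fun h' => hnm (h'.mono (insert_subset_insert _ (erase_subset _ _)))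
    refine ⟨m, hm, hmh, ?_⟩
    by_contra h0
    exact hnm (erase_ins hhf M ▸ hm.mt_erase h0)
  choose! m hm hmh hmf using hfl
  by_cases hfar : ∃ h, n h ≠ 0 ∧ h ∉ M ∧ ∃ f', m h f' ≠ 0 ∧ f' ∉ insert g B
  · obtain ⟨h, hh, hhM, f', hf', hf'B⟩ := hfar
    have hhF : h ∈ insert g B := mem_of_ne hn.mem hh
    have hf'h : f' ≠ h := fun e => hf'B (e ▸ hhF)
    have hf'M : f' ∈ M := (mem_insert.1 (mem_of_ne (hm h hh hhM).mem hf')).resolve_left hf'h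
    have : ∃ h', n h' ≠ 0 ∧ h' ∉ insert h M := by
      by_contra h'
      push Not at h'
      obtain ⟨c, hc⟩ := (hm h hh hhM).gen n (fun e he => by
        by_contra h0; exact he (h' e h0)) (h12 hn.ker)
      exact hnf (by rw [hc]; simp [hmf h hh hhM])
    obtain ⟨h', hh', hh'M⟩ := this
    refine ⟨_, _, B', (hrem h' hh').1, Or.inr ⟨h, (hrem h hh).2.2, hhM, f', hf'M, rfl, ?_⟩, hB',
      pot2_lt_of_card hW' ?_⟩
    · rw [← erase_ins hf'h]; exact (hm h hh hhM).mt_erase hf'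
    · rw [Nat.lt_iff_add_one_le, ← card_insert_of_notMem (s := M ∩ B) (a := h)
        (fun h' => hhM (mem_inter.1 h').1)]
      refine card_le_card fun x hx' => ?_
      rcases mem_insert.1 hx' with rfl | hx'
      · exact mem_inter.2 ⟨mem_insert_self _ _,
          mem_erase.2 ⟨fun e => hh'M (e ▸ mem_insert_self _ _), hhF⟩⟩
      · rcases mem_inter.1 hx' with ⟨h3, h4⟩
        exact mem_inter.2 ⟨mem_insert_of_mem (mem_erase.2
            ⟨fun e => hf'B (e ▸ mem_insert_of_mem h4), h3⟩),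
          mem_erase.2 ⟨fun e => hh'M (e ▸ mem_insert_of_mem h3), mem_insert_of_mem h4⟩⟩
  exfalso
  have hcoef : ∀ h, n h ≠ 0 → h ∉ M → ∃ c : F, c • m h h = n h := by
    intro h hh hhM
    have h1 : m h ∈ Sub F (insert g B) := fun e he => by
      by_contra h0; exact hfar ⟨h, hh, hhM, e, h0, he⟩
    obtain ⟨c, hc, -⟩ := hn.comp h1 ((hrem h hh).2.1 (hm h hh hhM).ker)
    have hc0 : c ≠ 0 := fun h0 => hmh h hh hhM (by rw [hc, h0, zero_smul])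
    exact ⟨c⁻¹, by rw [hc, smul_smul, inv_mul_cancel₀ hc0, one_smul]⟩
  choose! c hc using hcoef
  set H := (insert g B).filter fun h => n h ≠ 0 ∧ h ∉ M with hH
  have hHm : ∀ h ∈ H, n h ≠ 0 ∧ h ∉ M := fun h hh => (mem_filter.1 hh).2
  have hy := hM (n - ∑ h ∈ H, c h • m h) (fun x hxM => ?_) ?_
  · have := congrFun hy f
    rw [Pi.sub_apply, Finset.sum_apply, Finset.sum_eq_zero (fun h hh => by
      simp [hmf h (hHm h hh).1 (hHm h hh).2])] at this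
    exact hnf (by simpa using this)
  · have hz : ∀ h ∈ H, h ≠ x → (c h • m h) x = 0 := fun h hh hne => by
      have : m h x = 0 := (hm h (hHm h hh).1 (hHm h hh).2).mem x fun h' => by
        rcases mem_insert.1 h' with h' | h'
        exacts [hne h'.symm, hxM h']
      simp [this]
    rw [Pi.sub_apply, Finset.sum_apply]
    by_cases hnx : n x = 0
    · rw [hnx, Finset.sum_eq_zero fun h hh => hz h hh fun e => (hHm h hh).1 (e ▸ hnx), sub_zero]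
    · rw [Finset.sum_eq_single x hz
        (fun h' => (h' (mem_filter.2 ⟨mem_of_ne hn.mem hnx, hnx, hxM⟩)).elim)]
      simp [hc x hnx hxM]
  · rw [map_sub, map_sum]
    refine Z2.sub_mem (h12 hn.ker) (Z2.sum_mem fun h hh => ?_)
    rw [map_smul]
    exact Z2.smul_mem _ (hm h (hHm h hh).1 (hHm h hh).2).ker

end Pool.Agent.MP_0c5eb8_lc.H40
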