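import Pool.Agent.MP_0c5eb8_lc.H40.Tests

/-!
The inner procedures of the matroid parity algorithm.
-/

namespace Pool.Agent.MP_0c5eb8_lc.H40

open Pool.Agent.Shared.H56 Polynomial Module Finset

variable {L : List Row} {Z Z2 K : List (Finset ℕ)} {S E B : Finset ℕ} {lab : List ℕ}

lemma card_inter_lt (B D : Finset ℕ) : (B ∩ D).card < D.card + 1 :=
  Nat.lt_succ_of_le (card_le_card inter_subset_right)

/-! ### Alignment -/

/-- Move `B` towards `B'`. -/
def align (L : List Row) (E : Finset ℕ) (K : List (Finset ℕ)) (B' B : Finset ℕ) : Finset ℕ :=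
  climb (nbrs L [] E K []) (fun T => (T ∩ B').card) (B'.card + 1) B

lemma align_self : align L E K B B = B :=
  climb_inv (fun T => T = B) (fun s t hs _ h => by
    subst hs
    have := card_le_card (inter_subset_right (s₁ := t) (s₂ := s))
    simp only [inter_self] at h
    omega) _ rfl

lemma align_spec {Zs : Submodule F2 VV} {B0 B' : Finset ℕ} {ν : ℕ}
    (h : Good (phi L) E (spanL K) Zs B0 ν B) (hZK : Zs ≤ spanL K) (hE : B' ⊆ E)
    (hB' : Mt (phi L) ⊥ B') (hc : B'.card = ν) :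
    Good (phi L) E (spanL K) Zs B0 ν (align L E K B' B) ∧
      (¬ Stop (phi L) ⊥ E (spanL K) (labf []) (align L E K B' B) →
        sp (phi L) ⊥ B' = sp (phi L) ⊥ (align L E K B' B) ∧
        ∀ t ∈ B, Lin (phi L) t (sp (phi L) Zs (B.erase t)) → Lin (phi L) t (sp (phi L) ⊥ B')) := by
  obtain ⟨⟨h1, h2⟩, h3⟩ := climb_spec (cands := nbrs L [] E K []) (pot := fun T => (T ∩ B').card)
    (fun T => Good (phi L) E (spanL K) Zs B0 ν T ∧ ∀ t ∈ B,
      Lin (phi L) t (sp (phi L) Zs (B.erase t)) → t ∈ T ∧ Lin (phi L) t (sp (phi L) Zs (T.erase t)))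
    (fun s t hs ht _ => by
      obtain ⟨hst, g, f, hx, rfl⟩ := mem_nbrs.1 ht
      rw [spanL_nil] at hst hx
      exact ⟨hs.1.exch hZK hst hx, fun u hu hl =>
        hs.1.keep hZK hst hx (hs.2 u hu hl).1 (hs.2 u hu hl).2⟩)
    (N := B'.card + 1) (fun s _ => card_inter_lt _ _) (s := B) ⟨h, fun t ht hl => ⟨ht, hl⟩⟩
    (align L E K B' B) rfl
  refine ⟨h1, fun hs => ?_⟩
  have h4 : sp (phi L) ⊥ B' = sp (phi L) ⊥ (align L E K B' B) :=
    align_end h1.mt hB' (hc.trans h1.card.symm) hE hs fun g f hx =>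
      h3 _ (mem_nbrs.2 (by rw [spanL_nil]; exact ⟨hs, g, f, hx, rfl⟩))
  exact ⟨h4, fun t ht hl => h4 ▸ lin_sp (h2 t ht hl).1⟩

/-! ### Joint exchange -/

/-- Potential of the joint exchange. -/
def jpot (L : List Row) (Z : List (Finset ℕ)) (W : ℕ) (s : Finset ℕ × Finset ℕ × Finset ℕ) : ℕ :=
  (((s.2.1 ∩ s.1).card * 2 +
    bif (s.2.1.sort (· ≤ ·)).any (fun e => !lin L Z s.1 e) then 1 else 0) * 2 +
    bif ((s.2.1 \ s.1).sort (· ≤ ·)).any (fun t => !lin L Z s.2.2 t) then 1 else 0) * W +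
    (s.1 ∩ s.2.2).card

lemma jpot_eq {W : ℕ} {M B' : Finset ℕ} :
    jpot L Z W (B, M, B') = pot2 (phi L) (spanL Z) W B M B' := by
  have key : ∀ (b : Bool) (P : Prop) (_ : Decidable P), (b = true ↔ P) →
      (bif b then 1 else 0 : ℕ) = if P then 1 else 0 := by
    intro b P _ h
    cases b
    · rw [if_neg (fun h' => by simpa using h.2 h')]; rfl
    · rw [if_pos (h.1 rfl)]; rfl
  unfold jpot pot2
  congr 3
  · congr 2
    exact key _ _ _ (by simp)
  · exact key _ _ _ (by simp [and_assoc])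

/-- Candidates of the joint exchange. -/
def jcands (L : List Row) (Z Z2 : List (Finset ℕ)) (E : Finset ℕ) (K : List (Finset ℕ))
    (lab : List ℕ) (S : Finset ℕ) (fam : List (Finset ℕ)) (s : Finset ℕ × Finset ℕ × Finset ℕ) :
    List (Finset ℕ × Finset ℕ × Finset ℕ) :=
  (s.1 :: nbrs L Z E K lab s.1) ×ˢ
    ((s.2.1 :: ((prs (S \ s.2.1) s.2.1).map (sw s.2.1)).filter fun T => isM L Z2 T) ×ˢ fam)

/-- The joint exchange procedure. -/
def joint (L : List Row) (Z Z2 : List (Finset ℕ)) (E : Finset ℕ) (K : List (Finset ℕ))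
    (lab : List ℕ) (S : Finset ℕ) (fam : List (Finset ℕ)) (B M : Finset ℕ) : Finset ℕ :=
  (climb (jcands L Z Z2 E K lab S fam) (jpot L Z (E.card + 1))
    ((E.card * 4 + 4) * (E.card + 1)) (B, M, fam.headD ∅)).1

lemma mem_jcands {fam : List (Finset ℕ)} {s t : Finset ℕ × Finset ℕ × Finset ℕ} :
    t ∈ jcands L Z Z2 E K lab S fam s ↔
      (t.1 = s.1 ∨ (¬ Stop (phi L) (spanL Z) E (spanL K) (labf lab) s.1 ∧
        ∃ g f, Exch (phi L) (spanL Z) E s.1 g f ∧ t.1 = insert g (s.1.erase f))) ∧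
      (t.2.1 = s.2.1 ∨ ∃ h ∈ S, h ∉ s.2.1 ∧ ∃ f ∈ s.2.1, t.2.1 = insert h (s.2.1.erase f) ∧
        Mt (phi L) (spanL Z2) t.2.1) ∧ t.2.2 ∈ fam := by
  obtain ⟨t1, t2, t3⟩ := t
  simp only [jcands, List.mem_product, List.mem_cons, mem_nbrs, List.mem_filter, List.mem_map,
    mem_prs, mem_sdiff, isM_iff]
  refine and_congr Iff.rfl (and_congr (or_congr Iff.rfl ⟨?_, ?_⟩) Iff.rfl)
  · rintro ⟨⟨p, ⟨⟨h1, h2⟩, h3⟩, rfl⟩, h4⟩; exact ⟨p.1, h1, h2, p.2, h3, rfl, h4⟩
  · rintro ⟨h, h1, h2, f, h3, rfl, h4⟩; exact ⟨⟨(h, f), ⟨⟨h1, h2⟩, h3⟩, rfl⟩, h4⟩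

lemma headD_mem {β : Type} {l : List β} (h : l ≠ []) (d : β) : l.headD d ∈ l := by
  cases l with
  | nil => exact (h rfl).elim
  | cons x l => simp

lemma joint_spec {fam : List (Finset ℕ)} {M : Finset ℕ} {ν : ℕ} (G : Finset ℕ → Prop)
    (hG : ∀ B g f, G B → ¬ Stop (phi L) (spanL Z) E (spanL K) (labf lab) B →
      Exch (phi L) (spanL Z) E B g f → G (insert g (B.erase f)) ∧ (f ∈ S ↔ g ∈ S))
    (hG' : ∀ B, G B → B ⊆ E ∧ Mt (phi L) (spanL Z) B ∧ B.card = ν ∧
      spanL Z2 ≤ sp (phi L) (spanL Z) B)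
    (h12 : spanL Z ≤ spanL Z2) (h2K : spanL Z2 ≤ spanL K) (hSE : S ⊆ E) (hne : fam ≠ [])
    (hfam : ∀ B' ∈ fam, B' ⊆ E ∧ Mt (phi L) (spanL Z) B' ∧ B'.card = ν)
    (hcov : ∀ e ∈ S, ∃ B' ∈ fam, ¬ Lin (phi L) e (sp (phi L) (spanL Z) B'))
    (hB : G B) (hMS : M ⊆ S) (hM : Mt (phi L) (spanL Z2) M) :
    G (joint L Z Z2 E K lab S fam B M) ∧
      (Stop (phi L) (spanL Z) E (spanL K) (labf lab) (joint L Z Z2 E K lab S fam B M) ∨
        ∃ M' ⊆ S, Mt (phi L) (spanL Z2) M' ∧ M'.card = M.card ∧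
          M' ⊆ joint L Z Z2 E K lab S fam B M) := by
  obtain ⟨⟨h1, h2, h3, h4, h5⟩, h6⟩ := climb_spec (cands := jcands L Z Z2 E K lab S fam)
    (pot := jpot L Z (E.card + 1))
    (fun s => G s.1 ∧ s.2.1 ⊆ S ∧ Mt (phi L) (spanL Z2) s.2.1 ∧ s.2.1.card = M.card ∧ s.2.2 ∈ fam)
    (fun s t hs ht _ => by
      obtain ⟨h1, h2, h3⟩ := mem_jcands.1 ht
      refine ⟨?_, ?_⟩
      · rcases h1 with h1 | ⟨hst, g, f, hx, h1⟩
        · exact h1 ▸ hs.1
        · exact h1 ▸ (hG _ g f hs.1 hst hx).1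
      · rcases h2 with h2 | ⟨h, hS, hh, f, hf, h2, hm⟩
        · rw [h2]; exact ⟨hs.2.1, hs.2.2.1, hs.2.2.2.1, h3⟩
        · refine ⟨h2 ▸ insert_subset hS ((erase_subset _ _).trans hs.2.1), hm, ?_, h3⟩
          rw [h2, card_swap hh hf]; exact hs.2.2.2.1)
    (N := (E.card * 4 + 4) * (E.card + 1)) (fun s hs => by
      have h1 : (s.2.1 ∩ s.1).card ≤ E.card :=
        card_le_card (inter_subset_right.trans (hG' _ hs.1).1)
      have h2 : (s.1 ∩ s.2.2).card ≤ E.card :=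
        card_le_card (inter_subset_left.trans (hG' _ hs.1).1)
      refine (lex_lt (a' := E.card * 4 + 4) (c' := 0) ?_ (Nat.lt_succ_of_le h2)).trans_le (by simp)
      cases (s.2.1.sort (· ≤ ·)).any (fun e => !lin L Z s.1 e) <;>
        cases ((s.2.1 \ s.1).sort (· ≤ ·)).any (fun t => !lin L Z s.2.2 t) <;> simp <;> omega)
    (s := (B, M, fam.headD ∅)) ⟨hB, hMS, hM, rfl, headD_mem hne _⟩ _ rfl
  refine ⟨h1, ?_⟩
  by_contra hcon
  rw [not_or] at hcon
  set s := climb (jcands L Z Z2 E K lab S fam) (jpot L Z (E.card + 1))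
    ((E.card * 4 + 4) * (E.card + 1)) (B, M, fam.headD ∅) with hs
  obtain ⟨k1, k2, k3, k4⟩ := hG' _ h1
  obtain ⟨B1, M1, B3, j1, j2, j3, j4⟩ := joint_step (W := E.card + 1) h12 h2K k4 k2 hcon.1 hSE
    (fun g f hx => (hG _ g f h1 hcon.1 hx).2) h2 h3
    (fun B' hB' => ⟨(hfam B' hB').1, (hfam B' hB').2.1, (hfam B' hB').2.2.trans k3.symm⟩) hcov h5
    (Nat.lt_succ_of_le (card_le_card k1)) (fun h => hcon.2 ⟨_, h2, h3, h4, h⟩)
  have := h6 (B1, M1, B3) (mem_jcands.2 ⟨j1.imp id fun h => ⟨hcon.1, h⟩, j2, j3⟩)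
  rw [jpot_eq, show s = (s.1, s.2.1, s.2.2) from rfl, jpot_eq] at this
  exact absurd j4 (not_lt.2 this)

/-! ### Search along a point -/

/-- Move `B` towards `D`, keeping the point `x` outside the span. -/
def ptSearch (L : List Row) (Z : List (Finset ℕ)) (D x B : Finset ℕ) : Finset ℕ :=
  climb (fun T => ((prs (D \ T) T).map (sw T)).filter fun U => isM L Z U && !inS L Z U x)
    (fun T => (T ∩ D).card) (D.card + 1) B

/-- Test for a large matching inside `S`. -/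
def okM (L : List Row) (Z : List (Finset ℕ)) (S : Finset ℕ) (k : ℕ) (M : Finset ℕ) : Bool :=
  decide (M ⊆ S) && decide (k < M.card) && isM L Z M

lemma okM_iff {k : ℕ} {M : Finset ℕ} :
    okM L Z S k M = true ↔ M ⊆ S ∧ k < M.card ∧ Mt (phi L) (spanL Z) M := by
  simp [okM, and_assoc]

lemma ptSearch_spec {D x : Finset ℕ} (hp : PtOK (phi L) (spanL Z) D (chi x))
    (hD : finrank F2 (spanL Z) + 2 * B.card + 2 ≤ finrank F2 (sp (phi L) (spanL Z) D))
    (hB : Mt (phi L) (spanL Z) B) (hpB : chi x ∉ sp (phi L) (spanL Z) B) (hBS : B ⊆ S)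
    (hDS : D ⊆ S) : ∃ T ∈ augs L Z D (ptSearch L Z D x B), okM L Z S B.card T = true := by
  obtain ⟨⟨h1, h2, h3, h4⟩, h5⟩ := climb_spec
    (cands := fun T => ((prs (D \ T) T).map (sw T)).filter fun U => isM L Z U && !inS L Z U x)
    (pot := fun T => (T ∩ D).card)
    (fun T => T ⊆ S ∧ T.card = B.card ∧ Mt (phi L) (spanL Z) T ∧ chi x ∉ sp (phi L) (spanL Z) T)
    (fun s t hs ht _ => by
      simp only [List.mem_filter, List.mem_map, mem_prs, mem_sdiff, Bool.and_eq_true, isM_iff,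
        Bool.not_eq_true', inS_false] at ht
      obtain ⟨⟨p, ⟨⟨h1, h2⟩, h3⟩, rfl⟩, h4, h5⟩ := ht
      exact ⟨sw_subset h1 hs.1 hDS, (card_swap h2 h3).trans hs.2.1, h4, h5⟩)
    (N := D.card + 1) (fun s _ => card_inter_lt _ _) (s := B) ⟨hBS, rfl, hB, hpB⟩
    (ptSearch L Z D x B) rfl
  obtain ⟨e, he, heB, hm⟩ := point_end hp (by rw [h2]; exact hD) h3 h4
    fun e he heB g hg hm hx => h5 _ (by
      simp only [List.mem_filter, List.mem_map, mem_prs, mem_sdiff, Bool.and_eq_true, isM_iff,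
        Bool.not_eq_true', inS_false]
      exact ⟨⟨(e, g), ⟨⟨he, heB⟩, hg⟩, rfl⟩, hm, hx⟩)
  refine ⟨_, mem_augs.2 ⟨e, he, heB, rfl, hm⟩, okM_iff.2 ⟨insert_subset (hDS he) h1, ?_, hm⟩⟩
  rw [card_insert_of_notMem heB, ← h2]
  exact Nat.lt_succ_self _

/-- Large matchings found from a set of `k + 2` pairs. -/
def ext (L : List Row) (Z : List (Finset ℕ)) (S : Finset ℕ) (k : ℕ) (fam : List (Finset ℕ))
    (D : Finset ℕ) : List (Finset ℕ) :=
  ((D.sort (· ≤ ·)).map (fun h => D.erase h) ++ (prs D D).flatMap fun p =>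
    (inter (Z ++ vecs L (circL L Z (D.erase p.1) \ circL L Z (D.erase p.2)))
      (Z ++ vecs L (circL L Z (D.erase p.2)))).flatMap fun x =>
        fam.flatMap fun B => augs L Z D (ptSearch L Z D x (B ∩ S))).filter (okM L Z S k)

lemma ext_ne_nil {k : ℕ} {fam : List (Finset ℕ)} {D : Finset ℕ} (hDS : D ⊆ S)
    (hc : D.card = k + 2)
    (hD : finrank F2 (spanL Z) + 2 * k + 2 ≤ finrank F2 (sp (phi L) (spanL Z) D))
    (hfam : ∀ B ∈ fam, Mt (phi L) (spanL Z) B ∧ (B ∩ S).card = k)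
    (hcov : ∀ p, p ∉ spanL Z → ∃ B ∈ fam, p ∉ sp (phi L) (spanL Z) B)
    (h : Found (phi L) (spanL Z) D) : ext L Z S k fam D ≠ [] := by
  suffices H : ∃ T, T ∈ ext L Z S k fam D from List.ne_nil_of_mem H.choose_spec
  rcases h with ⟨h, hh, hm⟩ | ⟨e, he, f, hf, h1, h2⟩
  · refine ⟨D.erase h, List.mem_filter.2 ⟨List.mem_append_left _
      (List.mem_map_of_mem ((mem_sort _).2 hh)), okM_iff.2 ⟨(erase_subset _ _).trans hDS, ?_, hm⟩⟩⟩
    rw [card_erase_of_mem hh]; omega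
  · rw [← circL_eq, ← circL_eq, ← spanL_vecs, ← spanL_vecs, ← spanL_inter] at h1 h2
    rw [spanL_le] at h1
    push Not at h1
    obtain ⟨x, hx, hxZ⟩ := h1
    obtain ⟨B, hB, hxB⟩ := hcov _ hxZ
    obtain ⟨T, hT, hok⟩ := ptSearch_spec (B := B ∩ S) (h2 _ (mem_spanL hx) hxZ)
      (by rw [(hfam B hB).2]; exact hD) ((hfam B hB).1.mono inter_subset_left)
      (fun h => hxB (sp_mono inter_subset_left h)) inter_subset_right hDS
    rw [(hfam B hB).2] at hok
    exact ⟨T, List.mem_filter.2 ⟨List.mem_append_right _ (List.mem_flatMap.2 ⟨(e, f),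
      mem_prs.2 ⟨he, hf⟩, List.mem_flatMap.2 ⟨x, hx, List.mem_flatMap.2 ⟨B, hB, hT⟩⟩⟩), hok⟩⟩

/-! ### Moving a flower towards a double flower -/

/-- Move the flower `T` with circuit `C` towards `D`. -/
def flowSearch (L : List Row) (Z : List (Finset ℕ)) (D C T : Finset ℕ) : Finset ℕ :=
  climb (fun U => ((prs (D \ U) (U \ C)).map (sw U)).filter fun U' => decide (nul L Z U' ≤ 1))
    (fun U => (U ∩ D).card) (D.card + 1) T

lemma flowSearch_spec {D T : Finset ℕ} {n : ℕ → F2 × F2} (hn : Fl (phi L) (spanL Z) T n)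
    (hTS : T ⊆ S) (hDS : D ⊆ S) :
    ∀ U, U = flowSearch L Z D (circL L Z T) T →
      U ⊆ S ∧ U.card = T.card ∧ Fl (phi L) (spanL Z) U n ∧
      ∀ e ∈ D, e ∉ U → ∀ g ∈ U, n g = 0 →
        finrank F2 (Nul (phi L) (spanL Z) (insert e (U.erase g))) ≤ 1 →
        (insert e (U.erase g) ∩ D).card ≤ (U ∩ D).card := by
  have hC : ∀ x, x ∈ circL L Z T ↔ n x ≠ 0 := fun x => by rw [circL_eq]; exact hn.mem_circ
  intro U hU
  obtain ⟨⟨h1, h2, h3⟩, h5⟩ := climb_spec
    (cands := fun U => ((prs (D \ U) (U \ circL L Z T)).map (sw U)).filter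
      fun U' => decide (nul L Z U' ≤ 1))
    (pot := fun U => (U ∩ D).card)
    (fun U => U ⊆ S ∧ U.card = T.card ∧ Fl (phi L) (spanL Z) U n)
    (fun s t hs ht _ => by
      simp only [List.mem_filter, List.mem_map, mem_prs, mem_sdiff, decide_eq_true_eq, nul_eq, hC,
        not_not] at ht
      obtain ⟨⟨p, ⟨⟨h1, h2⟩, h3, h4⟩, rfl⟩, h5⟩ := ht
      exact ⟨sw_subset h1 hs.1 hDS, (card_swap h2 h3).trans hs.2.1,
        fl_of_nul_le (Sub_mono (subset_insert _ _) (mem_Sub_erase hs.2.2.mem h4)) hn.ker hn.ne h5⟩)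
    (N := D.card + 1) (fun s _ => card_inter_lt _ _) (s := T) ⟨hTS, rfl, hn⟩ U hU
  refine ⟨h1, h2, h3, fun e he heU g hg hng hnul => h5 _ ?_⟩
  simp only [List.mem_filter, List.mem_map, mem_prs, mem_sdiff, decide_eq_true_eq, nul_eq, hC,
    not_not]
  exact ⟨⟨(e, g), ⟨⟨he, heU⟩, hg, hng⟩, rfl⟩, hnul⟩

/-- A record of a merge: a matching, an entering pair, and the labels before the merge. -/
abbrev Rec := Finset ℕ × ℕ × List ℕ

/-- A large matching is found, or two circuits meet one class. -/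
def good2 (L : List Row) (Z : List (Finset ℕ)) (S : Finset ℕ) (k : ℕ) (fam : List (Finset ℕ))
    (lb : List ℕ) (D : Finset ℕ) : Bool :=
  !(ext L Z S k fam D).isEmpty || sepLab L Z lb D

/-- Undo one merge. -/
def t2step (L : List Row) (Z : List (Finset ℕ)) (S : Finset ℕ) (k : ℕ) (fam : List (Finset ℕ))
    (D : Finset ℕ) (r : Rec) : Finset ℕ :=
  bif good2 L Z S k fam r.2.2 D then D else
    ((((D.sort (· ≤ ·)).filter fun e => !lin L Z (flowSearch L Z D
      (circL L Z (insert r.2.1 r.1 ∩ S)) (insert r.2.1 r.1 ∩ S)) e).map fun e =>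
        insert e (flowSearch L Z D (circL L Z (insert r.2.1 r.1 ∩ S))
          (insert r.2.1 r.1 ∩ S))).filter (good2 L Z S k fam r.2.2)).headD D

variable (L Z E) in
/-- The history of merges that led to a labelling. -/
def Hist : List Rec → List ℕ → Prop
  | [], lab => ∀ x ∈ E, ∀ y ∈ E, labf lab x = labf lab y → x = y
  | r :: h, lab => Hist h r.2.2 ∧ r.1 ⊆ E ∧ r.2.1 ∈ E ∧ r.2.1 ∉ r.1 ∧
      ∃ n, Fl (phi L) (spanL Z) (insert r.2.1 r.1) n ∧ n r.2.1 ≠ 0 ∧
        (∀ x ∈ E, ∀ y ∈ E, labf lab x = labf lab y → labf r.2.2 x = labf r.2.2 y ∨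
          ((∃ c, n c ≠ 0 ∧ labf r.2.2 c = labf r.2.2 x) ∧
            ∃ c, n c ≠ 0 ∧ labf r.2.2 c = labf r.2.2 y)) ∧
        (∀ x ∈ E, ∀ y ∈ E, labf r.2.2 x = labf r.2.2 y → labf lab x = labf lab y) ∧
        ∀ c, n c ≠ 0 → labf lab c = labf lab r.2.1

lemma good2_iff {k : ℕ} {fam : List (Finset ℕ)} {lb : List ℕ} {D : Finset ℕ} :
    good2 L Z S k fam lb D = true ↔
      ext L Z S k fam D ≠ [] ∨ SepLab (phi L) (spanL Z) (labf lb) D := by
  simp [good2, sepLab_iff]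

theorem t2_spec {k : ℕ} {fam : List (Finset ℕ)} (hSE : S ⊆ E)
    (hfam : ∀ B ∈ fam, Mt (phi L) (spanL Z) B ∧ (B ∩ S).card = k)
    (hcov : ∀ p, p ∉ spanL Z → ∃ B ∈ fam, p ∉ sp (phi L) (spanL Z) B)
    (hist : List Rec) (lab : List ℕ) (D : Finset ℕ) (hH : Hist L Z E hist lab)
    (hcl : ∀ x ∈ S, ∀ y ∈ E, labf lab x = labf lab y → y ∈ S)
    (hk : ∀ r ∈ hist, (r.1 ∩ S).card = k) (hDS : D ⊆ S) (hc : D.card = k + 2)
    (hD : finrank F2 (spanL Z) + 2 * k + 2 ≤ finrank F2 (sp (phi L) (spanL Z) D))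
    (hg : good2 L Z S k fam lab D = true) :
    ext L Z S k fam (hist.foldl (t2step L Z S k fam) D) ≠ [] := by
  induction hist generalizing lab D with
  | nil =>
    rcases good2_iff.1 hg with h | ⟨x, hx, y, hy, hne, -, hl⟩
    · exact h
    · exact absurd (hH x (hSE (hDS hx)) y (hSE (hDS hy)) hl) hne
  | cons r hist ih =>
    obtain ⟨B, g, lb⟩ := r
    obtain ⟨hH', hBE, hgE, hgB, n, hn, hng, h1, h2, h3⟩ := hH
    simp only at hH' hBE hgE hgB hn hng h1 h2 h3
    have hcl' : ∀ x ∈ S, ∀ y ∈ E, labf lb x = labf lb y → y ∈ S :=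
      fun x hx y hy h => hcl x hx y hy (h2 x (hSE hx) y hy h)
    have hk' : ∀ r ∈ hist, (r.1 ∩ S).card = k := fun r hr => hk r (List.mem_cons_of_mem _ hr)
    rw [List.foldl_cons]
    cases hgd : good2 L Z S k fam lb D with
    | true =>
      have : t2step L Z S k fam D (B, g, lb) = D := by simp [t2step, hgd]
      rw [this]
      exact ih lb D hH' hcl' hk' hDS hc hD hgd
    | false =>
      have hnot : ¬ (ext L Z S k fam D ≠ [] ∨ SepLab (phi L) (spanL Z) (labf lb) D) := by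
        rw [← good2_iff, hgd]; simp
      rw [not_or] at hnot
      obtain ⟨x, hx, y, hy, hne, hm, hl⟩ := (good2_iff.1 hg).resolve_left hnot.1
      obtain ⟨⟨c, hc1, hc2⟩, c', hc1', hc2'⟩ := (h1 x (hSE (hDS hx)) y (hSE (hDS hy)) hl).resolve_left
        fun h => hnot.2 ⟨x, hx, y, hy, hne, hm, h⟩
      have hE : ∀ z, n z ≠ 0 → z ∈ E := fun z hz => insert_subset hgE hBE (mem_of_ne hn.mem hz)
      have hin : ∀ z, n z ≠ 0 → z ∈ S := fun z hz => hcl x (hDS hx) z (hE z hz) (by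
        rw [h3 z hz, ← h3 c hc1]; exact (h2 c (hE c hc1) x (hSE (hDS hx)) hc2).symm)
      have hT : Fl (phi L) (spanL Z) (insert g B ∩ S) n :=
        ⟨fun z hz => by
          by_contra h0
          exact hz (mem_inter.2 ⟨mem_of_ne hn.mem h0, hin z h0⟩), hn.ker, hn.ne,
          fun ξ hξ => hn.gen ξ (Sub_mono inter_subset_left hξ)⟩
      have hTc : (insert g B ∩ S).card = k + 1 := by
        rw [insert_inter_of_mem (hin g hng), card_insert_of_notMem (fun h => hgB (mem_inter.1 h).1),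
          hk _ List.mem_cons_self]
      obtain ⟨u1, u2, u3, u4⟩ := flowSearch_spec (S := S) (D := D) hT inter_subset_right hDS _ rfl
      set U := flowSearch L Z D (circL L Z (insert g B ∩ S)) (insert g B ∩ S) with hU
      have hprop : ∀ e ∈ D, ¬ Lin (phi L) e (sp (phi L) (spanL Z) U) →
          insert e U ⊆ S ∧ (insert e U).card = k + 2 ∧
          finrank F2 (spanL Z) + 2 * k + 2 ≤ finrank F2 (sp (phi L) (spanL Z) (insert e U)) := by
        intro e he hl
        refine ⟨insert_subset (hDS he) u1, ?_, ?_⟩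
        · rw [card_insert_of_notMem (not_mem_of_not_lin hl), u2, hTc]
        · have h4 := rank_insert_lt hl
          have h5 := u3.rank
          rw [u2, hTc] at h5
          omega
      obtain ⟨e, he, hl, hfs⟩ := flower_end (lb := labf lb) u3 (by rw [u2, hTc]; omega) hm hc1 hc1'
        hc2 hc2' u4
      have hne2 : ((((D.sort (· ≤ ·)).filter fun e => !lin L Z U e).map fun e =>
          insert e U).filter (good2 L Z S k fam lb)) ≠ [] := by
        refine List.ne_nil_of_mem (a := insert e U) (List.mem_filter.2 ⟨List.mem_map_of_mem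
          (List.mem_filter.2 ⟨(mem_sort _).2 he, by simpa using hl⟩),
          good2_iff.2 (hfs.imp (fun h => ?_) id)⟩)
        exact ext_ne_nil (hprop e he hl).1 (hprop e he hl).2.1 (hprop e he hl).2.2 hfam hcov h
      have hmem := headD_mem hne2 D
      have : t2step L Z S k fam D (B, g, lb) = ((((D.sort (· ≤ ·)).filter
          fun e => !lin L Z U e).map fun e => insert e U).filter
            (good2 L Z S k fam lb)).headD D := by simp only [t2step, hgd, cond_false, hU]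
      rw [this]
      obtain ⟨hm1, hm2⟩ := List.mem_filter.1 hmem
      obtain ⟨e', he', hee⟩ := List.mem_map.1 hm1
      obtain ⟨he1, he2⟩ := List.mem_filter.1 he'
      have hp := hprop e' ((mem_sort _).1 he1) (by simpa using he2)
      rw [← hee] at hm2 ⊢
      exact ih lb _ hH' hcl' hk' hp.1 hp.2.1 hp.2.2 hm2

/-! ### Removal of pairs -/

/-- Remove `q` pairs so that a matching modulo `Z` remains. -/
def drop (L : List Row) (Z : List (Finset ℕ)) (q : ℕ) (S : Finset ℕ) : Finset ℕ :=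
  climb (fun T => ((T.sort (· ≤ ·)).map fun e => T.erase e).filter fun U =>
    decide (nul L Z U + S.card ≤ q + U.card) && decide (S.card ≤ U.card + q))
    (fun T => S.card - T.card) (S.card + 1) S

lemma drop_spec {q : ℕ} (hq : q ≤ S.card) (hn : finrank F2 (Nul (phi L) (spanL Z) S) ≤ q) :
    drop L Z q S ⊆ S ∧ Mt (phi L) (spanL Z) (drop L Z q S) ∧ (drop L Z q S).card + q = S.card := by
  obtain ⟨⟨h1, h2, h3⟩, h5⟩ := climb_spec
    (cands := fun T => ((T.sort (· ≤ ·)).map fun e => T.erase e).filter fun U =>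
      decide (nul L Z U + S.card ≤ q + U.card) && decide (S.card ≤ U.card + q))
    (pot := fun T => S.card - T.card)
    (fun T => T ⊆ S ∧ finrank F2 (Nul (phi L) (spanL Z) T) + S.card ≤ q + T.card ∧
      S.card ≤ T.card + q)
    (fun s t hs ht _ => by
      simp only [List.mem_filter, List.mem_map, mem_sort, Bool.and_eq_true, decide_eq_true_eq,
        nul_eq] at ht
      obtain ⟨⟨e, -, rfl⟩, h4, h5⟩ := ht
      exact ⟨(erase_subset _ _).trans hs.1, h4, h5⟩)
    (N := S.card + 1) (fun s _ => by omega) (s := S) ⟨Subset.rfl, by omega, by omega⟩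
    (drop L Z q S) rfl
  have h4 : (drop L Z q S).card + q = S.card := by
    by_contra hne
    obtain ⟨e, he, h6⟩ := drop_step hq h2 (by omega)
    have h7 := card_erase_of_mem he
    have h8 := card_pos.2 ⟨e, he⟩
    have h9 := card_le_card h1
    have := h5 ((drop L Z q S).erase e) (by
      simp only [List.mem_filter, List.mem_map, mem_sort, Bool.and_eq_true, decide_eq_true_eq,
        nul_eq]
      exact ⟨⟨e, he, rfl⟩, h6, by omega⟩)
    omega
  exact ⟨h1, mt_iff_nul.2 (by omega), h4⟩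

end Pool.Agent.MP_0c5eb8_lc.H40
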