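import Pool.Agent.MP_0c5eb8_lc.H40.Time

/-!
Reduction of matroid matching in hypergraphic matroids to linear matroid parity over the field
with two elements.
-/

namespace Pool.Agent.MP_0c5eb8_lc.H40

open Pool.Agent.Shared.H56 Module Finset

/-- Independence in the hypergraphic matroid. -/
def HI (h : ℕ → Finset ℕ) (T : Finset ℕ) : Prop :=
  ∀ X ⊆ T, X.Nonempty → X.card + 1 ≤ (X.biUnion h).card

/-- An independent family of hyperedges can be trimmed to a forest. -/
theorem trim (T : Finset ℕ) (h : ℕ → Finset ℕ) (hI : HI h T) :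
    ∃ h' : ℕ → Finset ℕ, (∀ j ∈ T, h' j ⊆ h j ∧ (h' j).card = 2) ∧ HI h' T := by
  induction' hn : ∑ j ∈ T, (h j).card using Nat.strong_induction_on with n ih generalizing h
  by_cases hall : ∀ j ∈ T, (h j).card ≤ 2
  · refine ⟨h, fun j hj => ⟨Subset.rfl, le_antisymm (hall j hj) ?_⟩, hI⟩
    simpa using hI {j} (by simpa using hj) (singleton_nonempty j)
  push Not at hall
  obtain ⟨e, he, h3⟩ := hall
  obtain ⟨u, v, w, hu, hv, hw, huv, huw, hvw⟩ := two_lt_card_iff.1 h3
  have step : ∀ x ∈ h e, HI (Function.update h e ((h e).erase x)) T →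
      ∃ h' : ℕ → Finset ℕ, (∀ j ∈ T, h' j ⊆ h j ∧ (h' j).card = 2) ∧ HI h' T := by
    intro x hx hI'
    obtain ⟨h', h1, h2⟩ := ih _ (by
      rw [← hn]
      refine sum_lt_sum (fun j _ => ?_) ⟨e, he, ?_⟩
      · by_cases hj : j = e
        · subst hj; simpa using card_erase_le
        · simp [hj]
      · simpa using card_erase_lt_of_mem hx) _ hI' rfl
    refine ⟨h', fun j hj => ⟨(h1 j hj).1.trans ?_, (h1 j hj).2⟩, h2⟩
    by_cases hj' : j = e
    · subst hj'; simpa using erase_subset _ _
    · simp [hj']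
  have fail : ∀ x, ¬ HI (Function.update h e ((h e).erase x)) T → ∃ X ⊆ T, e ∈ X ∧
      (X.biUnion (Function.update h e ((h e).erase x))).card ≤ X.card := by
    intro x hx
    unfold HI at hx
    push Not at hx
    obtain ⟨X, h1, h2, h4⟩ := hx
    refine ⟨X, h1, ?_, by omega⟩
    by_contra heX
    have : X.biUnion (Function.update h e ((h e).erase x)) = X.biUnion h :=
      biUnion_congr rfl fun j hj => Function.update_of_ne (by rintro rfl; exact heX hj) _ _
    have := hI X h1 h2
    rw [‹X.biUnion _ = _›] at h4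
    omega
  by_cases h1 : HI (Function.update h e ((h e).erase u)) T
  · exact step u hu h1
  by_cases h2 : HI (Function.update h e ((h e).erase v)) T
  · exact step v hv h2
  exfalso
  obtain ⟨X, hX, heX, hX'⟩ := fail u h1
  obtain ⟨Y, hY, heY, hY'⟩ := fail v h2
  set A := X.biUnion (Function.update h e ((h e).erase u))
  set B := Y.biUnion (Function.update h e ((h e).erase v))
  have memA : ∀ j ∈ X, j ≠ e → h j ⊆ A := fun j hj hje x hx =>
    mem_biUnion.2 ⟨j, hj, by rwa [Function.update_of_ne hje]⟩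
  have memB : ∀ j ∈ Y, j ≠ e → h j ⊆ B := fun j hj hje x hx =>
    mem_biUnion.2 ⟨j, hj, by rwa [Function.update_of_ne hje]⟩
  have memA' : ∀ x ∈ h e, x ≠ u → x ∈ A := fun x hx hxu =>
    mem_biUnion.2 ⟨e, heX, by simp [hx, hxu]⟩
  have memB' : ∀ x ∈ h e, x ≠ v → x ∈ B := fun x hx hxv =>
    mem_biUnion.2 ⟨e, heY, by simp [hx, hxv]⟩
  have k1 : (X ∪ Y).card + 1 ≤ (A ∪ B).card := by
    refine (hI _ (union_subset hX hY) ⟨e, mem_union_left _ heX⟩).trans (card_le_card fun x hx => ?_)
    obtain ⟨j, hj, hx⟩ := mem_biUnion.1 hx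
    by_cases hje : j = e
    · subst hje
      by_cases hxu : x = u
      · exact mem_union_right _ (memB' x hx (hxu ▸ huv))
      · exact mem_union_left _ (memA' x hx hxu)
    · rcases mem_union.1 hj with hj | hj
      exacts [mem_union_left _ (memA j hj hje hx), mem_union_right _ (memB j hj hje hx)]
  have k2 : (X ∩ Y).card ≤ (A ∩ B).card := by
    have k3 := card_erase_of_mem (mem_inter.2 ⟨heX, heY⟩)
    rcases ((X ∩ Y).erase e).eq_empty_or_nonempty with h0 | h0
    · have : 0 < (A ∩ B).card :=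
        card_pos.2 ⟨w, mem_inter.2 ⟨memA' w hw huw.symm, memB' w hw hvw.symm⟩⟩
      rw [h0, card_empty] at k3
      omega
    · have k4 := hI _ ((erase_subset _ _).trans (inter_subset_left.trans hX)) h0
      have k5 : (((X ∩ Y).erase e).biUnion h).card ≤ (A ∩ B).card := card_le_card fun x hx => by
        obtain ⟨j, hj, hx⟩ := mem_biUnion.1 hx
        obtain ⟨hje, hj⟩ := mem_erase.1 hj
        exact mem_inter.2 ⟨memA j (mem_inter.1 hj).1 hje hx, memB j (mem_inter.1 hj).2 hje hx⟩
      omega
  have k3 := card_union_add_card_inter A B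
  have k4 := card_union_add_card_inter X Y
  omega

/-- The vectors of a set of rows are linearly independent. -/
def IndepRows (R : Finset Row) : Prop :=
  ∀ c : Row → F2 × F2, ∑ r ∈ R, ((c r).1 • chi r.1 + (c r).2 • chi r.2) = 0 → ∀ r ∈ R, c r = 0

lemma phi_apply {L : List Row} {S : Finset ℕ} (hS : S ⊆ range L.length) {ξ : ℕ → F2 × F2}
    (hξ : ξ ∈ Sub F2 S) :
    phi L ξ = ∑ e ∈ S, ((ξ e).1 • chi (va L e) + (ξ e).2 • chi (vb L e)) :=
  (sum_subset hS fun e _ he => by simp [hξ e he]).symm

theorem solve_rows (L : List Row) :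
    IsGreatest {k | ∃ R ⊆ L.toFinset, IndepRows R ∧ R.card = k} (solve L) := by
  obtain ⟨⟨S, hS, hm, hc⟩, hmax⟩ := solve_spec L
  constructor
  · have hinj : Set.InjOn (fun e => L.getD e (∅, ∅)) S := by
      intro e he e' he' hee
      by_contra hne
      have := hm (Pi.single e (1, 0) - Pi.single e' (1, 0))
        (Submodule.sub_mem _ (single_mem_Sub he _) (single_mem_Sub he' _)) (by
          rw [map_sub, phi_single, phi_single, va, va, vb, vb, show L.getD e (∅, ∅) = _ from hee]
          simp)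
      have := congrFun this e
      simp [Pi.single_eq_of_ne hne] at this
    refine ⟨S.image fun e => L.getD e (∅, ∅), fun r hr => ?_, fun c hc r hr => ?_,
      (card_image_of_injOn hinj).trans hc⟩
    · obtain ⟨e, he, rfl⟩ := mem_image.1 hr
      rw [List.getD_eq_getElem _ _ (mem_range.1 (hS he))]
      simp
    · obtain ⟨e, he, rfl⟩ := mem_image.1 hr
      rw [sum_image hinj] at hc
      have h1 : (fun x => if x ∈ S then c (L.getD x (∅, ∅)) else 0) ∈ Sub F2 S :=
        fun x hx => by simp [hx]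
      have := hm _ h1 (by
        rw [phi_apply hS h1, Submodule.mem_bot, ← hc]
        exact sum_congr rfl fun x hx => by simp only [hx, if_true, va, vb])
      simpa [he] using congrFun this e
  · rintro k ⟨R, hR, hI, rfl⟩
    have hget : ∀ r ∈ R, L.getD (L.idxOf r) (∅, ∅) = r := fun r hr => by
      have := List.idxOf_lt_length_of_mem (List.mem_toFinset.1 (hR hr))
      rw [List.getD_eq_getElem _ _ this]; simp
    have hinj : Set.InjOn (fun r => L.idxOf r) R := fun r hr r' hr' h => by
      rw [← hget r hr, ← hget r' hr', show L.idxOf r = L.idxOf r' from h]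
    have hsub : R.image (fun r => L.idxOf r) ⊆ range L.length := fun e he => by
      obtain ⟨r, hr, rfl⟩ := mem_image.1 he
      exact mem_range.2 (List.idxOf_lt_length_of_mem (List.mem_toFinset.1 (hR hr)))
    refine hmax ⟨_, hsub, fun ξ hξ h0 => funext fun e => ?_, card_image_of_injOn hinj⟩
    by_cases he : e ∈ R.image fun r => L.idxOf r
    · obtain ⟨r, hr, rfl⟩ := mem_image.1 he
      rw [phi_apply hsub hξ, Submodule.mem_bot, sum_image hinj] at h0
      refine hI (fun r => ξ (L.idxOf r)) ?_ r hr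
      rw [← h0]
      exact sum_congr rfl fun x hx => by rw [va, vb, hget x hx]
    · exact hξ e he

/-- The row that selects the vertices `p.1`, `p.2` in the hyperedge `j`. -/
def edgeRow (j : ℕ) (p : ℕ × ℕ) : Row := ({2 * p.1, 2 * p.2}, {2 * j + 1})

/-- The row that leaves out the pair `q`. -/
def skipRow (q : ℕ × ℕ) : Row := ({2 * q.1 + 1}, {2 * q.2 + 1})

/-- The instance of linear matroid parity. -/
def rows (E : List (Finset ℕ)) (Q : List (ℕ × ℕ)) : List Row :=
  ((List.range E.length).flatMap fun j => ((prs (E.getD j ∅) (E.getD j ∅)).filter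
    fun p => decide (p.1 ≠ p.2)).map (edgeRow j)) ++ Q.map skipRow

lemma mem_rows {E : List (Finset ℕ)} {Q : List (ℕ × ℕ)} {r : Row} : r ∈ rows E Q ↔
    (∃ j < E.length, ∃ p : ℕ × ℕ, p.1 ∈ E.getD j ∅ ∧ p.2 ∈ E.getD j ∅ ∧ p.1 ≠ p.2 ∧
      r = edgeRow j p) ∨ ∃ q ∈ Q, r = skipRow q := by
  simp only [rows, List.mem_append, List.mem_flatMap, List.mem_range, List.mem_map,
    List.mem_filter, mem_prs, decide_eq_true_eq, and_assoc]
  simp only [eq_comm (b := r)]

lemma chi_pair {a b : ℕ} (h : a ≠ b) : chi {a, b} = chi {a} + chi {b} := by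
  funext i
  by_cases h1 : i = a <;> by_cases h2 : i = b <;> simp_all [chi]

lemma F2_add_self (x : VV) : x + x = 0 := by
  funext i
  have : ∀ y : F2, y + y = 0 := fun y => by rw [← two_mul, ← one_add_one_eq_two, one_add_one, zero_mul]
  exact this _

/-- Two distinct rows of an independent set share no vector. -/
lemma IndepRows.ne {R : Finset Row} (h : IndepRows R) {r r' : Row} (hr : r ∈ R) (hr' : r' ∈ R)
    (hne : r ≠ r') : r.2 ≠ r'.2 ∧ r.2 ≠ r'.1 := by
  constructor
  · intro e
    have := h (fun x => if x = r then (0, 1) else if x = r' then (0, 1) else 0) (by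
      rw [sum_eq_add_of_mem r r' hr hr' hne fun x _ hx => by simp [hx.1, hx.2]]
      simp [hne.symm, e, F2_add_self]) r hr
    simp at this
  · intro e
    have := h (fun x => if x = r then (0, 1) else if x = r' then (1, 0) else 0) (by
      rw [sum_eq_add_of_mem r r' hr hr' hne fun x _ hx => by simp [hx.1, hx.2]]
      simp [hne.symm, e, F2_add_self]) r hr
    simp at this

/-- The list of pairs is a partition of the indices. -/
structure Part (n : ℕ) (Q : List (ℕ × ℕ)) : Prop where
  nodup : Q.Nodup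
  lt : ∀ q ∈ Q, q.1 < n ∧ q.2 < n
  cover : ∀ j < n, ∃ q ∈ Q, j = q.1 ∨ j = q.2
  ne : ∀ q ∈ Q, ∀ q' ∈ Q, q.1 ≠ q'.2
  inj : ∀ q ∈ Q, ∀ q' ∈ Q, q.1 = q'.1 ∨ q.2 = q'.2 → q = q'

lemma part_of_perm {n : ℕ} {Q : List (ℕ × ℕ)}
    (h : (Q.flatMap fun q => [q.1, q.2]).Perm (List.range n)) : Part n Q := by
  have h1 : (Q.flatMap fun q => [q.1, q.2]).Nodup := h.nodup_iff.2 List.nodup_range
  rw [List.nodup_flatMap] at h1
  have : Std.Symm (Function.onFun List.Disjoint fun q : ℕ × ℕ => [q.1, q.2]) :=
    ⟨fun _ _ h => List.Disjoint.symm h⟩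
  have h2 : ∀ q ∈ Q, ∀ q' ∈ Q, q ≠ q' → List.Disjoint [q.1, q.2] [q'.1, q'.2] :=
    fun q hq q' hq' hne => h1.2.forall hq hq' hne
  refine ⟨h1.2.imp fun {a b} hab e => by subst e; exact hab (a := a.1) (by simp) (by simp),
    fun q hq => ⟨?_, ?_⟩, fun j hj => ?_, fun q hq q' hq' e => ?_, fun q hq q' hq' e => ?_⟩
  · exact List.mem_range.1 (h.subset (List.mem_flatMap.2 ⟨q, hq, by simp⟩))
  · exact List.mem_range.1 (h.subset (List.mem_flatMap.2 ⟨q, hq, by simp⟩))
  · simpa using h.symm.subset (List.mem_range.2 hj)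
  · by_cases hne : q = q'
    · subst hne; simpa [e] using h1.1 q hq
    · exact h2 q hq q' hq' hne (a := q.1) (by simp) (by simp [e])
  · by_contra hne
    rcases e with e | e
    · exact h2 q hq q' hq' hne (a := q.1) (by simp) (by simp [e])
    · exact h2 q hq q' hq' hne (a := q.2) (by simp) (by simp [e])

lemma upper {E : List (Finset ℕ)} {Q : List (ℕ × ℕ)} (hQ : Part E.length Q) {R : Finset Row}
    (hR : R ⊆ (rows E Q).toFinset) (hI : IndepRows R) :
    ∃ I ⊆ Q.toFinset, HI (fun j => E.getD j ∅) (I.biUnion fun q => {q.1, q.2}) ∧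
      R.card ≤ Q.length + I.card := by
  classical
  let A : ℕ → Prop := fun j => ∃ p : ℕ × ℕ, p.1 ∈ E.getD j ∅ ∧ p.2 ∈ E.getD j ∅ ∧ p.1 ≠ p.2 ∧
    edgeRow j p ∈ R
  have hrow := fun r (hr : r ∈ R) => mem_rows.1 (List.mem_toFinset.1 (hR hr))
  refine ⟨Q.toFinset.filter fun q => A q.1 ∧ A q.2, filter_subset _ _, fun X hX hne => ?_, ?_⟩
  · have hA : ∀ j ∈ X, A j := fun j hj => by
      obtain ⟨q, hq, hj⟩ := mem_biUnion.1 (hX hj)
      have := (mem_filter.1 hq).2
      rcases mem_insert.1 hj with rfl | hj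
      exacts [this.1, mem_singleton.1 hj ▸ this.2]
    choose! p hp1 hp2 hp3 hp4 using hA
    obtain ⟨j0, hj0⟩ := hne
    set U := X.biUnion fun j => E.getD j ∅ with hU
    have hU1 : ∀ j ∈ X, (p j).1 ∈ U ∧ (p j).2 ∈ U := fun j hj =>
      ⟨mem_biUnion.2 ⟨j, hj, hp1 j hj⟩, mem_biUnion.2 ⟨j, hj, hp2 j hj⟩⟩
    let t : ℕ → VV := fun x => chi {2 * x} + chi {2 * (p j0).1}
    let W : Submodule F2 VV := Submodule.span F2 ((U.erase (p j0).1).image t : Set VV)
    have ht : ∀ x ∈ U, t x ∈ W := fun x hx => by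
      by_cases h0 : x = (p j0).1
      · simp [t, h0, F2_add_self]
      · exact Submodule.subset_span (mem_coe.2 (mem_image_of_mem _ (mem_erase.2 ⟨h0, hx⟩)))
    have hw : ∀ j : X, chi (edgeRow j (p j)).1 ∈ W := fun j => by
      have : chi (edgeRow j (p j)).1 = t (p j).1 + t (p j).2 := by
        simp only [edgeRow, t]
        rw [chi_pair (by have := hp3 j j.2; omega), add_add_add_comm, F2_add_self, add_zero]
      rw [this]
      exact W.add_mem (ht _ (hU1 j j.2).1) (ht _ (hU1 j j.2).2)
    have hinj : Set.InjOn (fun j => edgeRow j (p j)) X := fun j _ j' _ h => by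
      have := congrArg Prod.snd h
      simp only [edgeRow, singleton_inj] at this
      omega
    have hli : LinearIndependent F2 fun j : X => (⟨_, hw j⟩ : W) := by
      refine LinearIndependent.of_comp W.subtype (Fintype.linearIndependent_iff.2 fun g hg j => ?_)
      let g' : ℕ → F2 := fun j => if h : j ∈ X then g ⟨j, h⟩ else 0
      have := hI (fun r => (∑ j ∈ X, if r = edgeRow j (p j) then g' j else 0, 0)) (by
        simp only [zero_smul, add_zero, sum_smul, ite_smul]
        rw [sum_comm, ← sum_coe_sort X]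
        refine Eq.trans ?_ hg
        refine sum_congr rfl fun x _ => ?_
        rw [sum_ite_eq', if_pos (hp4 x x.2)]
        simp [g']) _ (hp4 j j.2)
      have h1 := congrArg Prod.fst this
      simp only [Prod.fst_zero] at h1
      rw [sum_eq_single (j : ℕ) (fun b hb hne => if_neg fun h => hne (hinj hb j.2 h.symm))
        (fun h => (h j.2).elim)] at h1
      simpa [g'] using h1
    have h1 := hli.fintype_card_le_finrank
    have h2 : finrank F2 W ≤ (U.erase (p j0).1).card :=
      (finrank_span_finset_le_card _).trans card_image_le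
    have h3 := card_erase_of_mem (hU1 j0 hj0).1
    have h4 := card_pos.2 ⟨_, (hU1 j0 hj0).1⟩
    rw [Fintype.card_coe] at h1
    omega
  · let f : ℕ × ℕ → Finset Row := fun q =>
      R.filter fun r => r.2 = {2 * q.1 + 1} ∨ r.2 = {2 * q.2 + 1}
    have h1 : R ⊆ Q.toFinset.biUnion f := fun r hr => by
      rcases hrow r hr with ⟨j, hj, p, -, -, -, rfl⟩ | ⟨q, hq, rfl⟩
      · obtain ⟨q, hq, h⟩ := hQ.cover j hj
        exact mem_biUnion.2 ⟨q, List.mem_toFinset.2 hq, mem_filter.2 ⟨hr,
          h.imp (fun e => by rw [e]; rfl) (fun e => by rw [e]; rfl)⟩⟩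
      · exact mem_biUnion.2 ⟨q, List.mem_toFinset.2 hq, mem_filter.2 ⟨hr, Or.inr rfl⟩⟩
    have h2 : ∀ q ∈ Q.toFinset, (f q).card ≤ 1 + if A q.1 ∧ A q.2 then 1 else 0 := by
      intro q hq
      have hq' := List.mem_toFinset.1 hq
      split_ifs with hA
      · refine (card_le_card_of_injOn (t := {{2 * q.1 + 1}, {2 * q.2 + 1}}) Prod.snd
          (fun r hr => by simpa using (mem_filter.1 hr).2) fun r hr r' hr' e => ?_).trans
          card_le_two
        by_contra hne
        exact (hI.ne (mem_filter.1 hr).1 (mem_filter.1 hr').1 hne).1 e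
      · have key : ∀ r ∈ R, ∀ r' ∈ R, r.2 = {2 * q.1 + 1} → r'.2 = {2 * q.2 + 1} → False := by
          intro r hr r' hr' e e'
          have hne : r ≠ r' := fun h => by
            rw [h, e', singleton_inj] at e
            exact hQ.ne q hq' q hq' (by omega)
          refine hA ⟨?_, ?_⟩
          · rcases hrow r hr with ⟨j, -, p, k1, k2, k3, rfl⟩ | ⟨q', hq2, rfl⟩
            · obtain rfl : j = q.1 := by simp only [edgeRow, singleton_inj] at e; omega
              exact ⟨p, k1, k2, k3, hr⟩
            · simp only [skipRow, singleton_inj] at e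
              exact (hQ.ne q hq' q' hq2 (by omega)).elim
          · rcases hrow r' hr' with ⟨j, -, p, k1, k2, k3, rfl⟩ | ⟨q', hq2, rfl⟩
            · obtain rfl : j = q.2 := by simp only [edgeRow, singleton_inj] at e'; omega
              exact ⟨p, k1, k2, k3, hr'⟩
            · simp only [skipRow, singleton_inj] at e'
              obtain rfl : q' = q := hQ.inj q' hq2 q hq' (Or.inr (by omega))
              exact ((hI.ne hr hr' hne).2 e).elim
        refine card_le_one.2 fun r hr r' hr' => ?_
        obtain ⟨k1, k2⟩ := mem_filter.1 hr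
        obtain ⟨k3, k4⟩ := mem_filter.1 hr'
        by_contra hne
        rcases k2 with k2 | k2 <;> rcases k4 with k4 | k4
        · exact (hI.ne k1 k3 hne).1 (k2.trans k4.symm)
        · exact key r k1 r' k3 k2 k4
        · exact key r' k3 r k1 k4 k2
        · exact (hI.ne k1 k3 hne).1 (k2.trans k4.symm)
    refine (card_le_card h1).trans (card_biUnion_le.trans ((sum_le_sum h2).trans ?_))
    rw [sum_add_distrib, ← card_filter, sum_const, smul_eq_mul, mul_one,
      List.toFinset_card_of_nodup hQ.nodup]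

lemma lower {E : List (Finset ℕ)} {Q : List (ℕ × ℕ)} (hQ : Part E.length Q) {I : Finset (ℕ × ℕ)}
    (hI : I ⊆ Q.toFinset) (hH : HI (fun j => E.getD j ∅) (I.biUnion fun q => {q.1, q.2})) :
    ∃ R ⊆ (rows E Q).toFinset, IndepRows R ∧ R.card = Q.length + I.card := by
  classical
  set T : Finset ℕ := I.biUnion fun q => {q.1, q.2} with hT
  obtain ⟨h', h1, h2⟩ := trim T _ hH
  have hp : ∀ j ∈ T, ∃ p : ℕ × ℕ, p.1 ≠ p.2 ∧ h' j = {p.1, p.2} := fun j hj => by
    obtain ⟨x, y, hxy, e⟩ := card_eq_two.1 (h1 j hj).2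
    exact ⟨(x, y), hxy, e⟩
  choose! p hp1 hp2 using hp
  have hIQ : ∀ q ∈ I, q ∈ Q := fun q hq => List.mem_toFinset.1 (hI hq)
  have hTm : ∀ j, j ∈ T ↔ ∃ q ∈ I, j = q.1 ∨ j = q.2 := fun j => by simp [hT]
  have hout : ∀ q ∈ Q.toFinset \ I, q.1 ∉ T ∧ q.2 ∉ T := fun q hq => by
    obtain ⟨k1, k2⟩ := mem_sdiff.1 hq
    have k1' := List.mem_toFinset.1 k1
    constructor <;> rw [hTm] <;> rintro ⟨q', hq', e | e⟩
    · exact k2 (hQ.inj q k1' q' (hIQ q' hq') (Or.inl e) ▸ hq')
    · exact hQ.ne q k1' q' (hIQ q' hq') e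
    · exact hQ.ne q' (hIQ q' hq') q k1' e.symm
    · exact k2 (hQ.inj q k1' q' (hIQ q' hq') (Or.inr e) ▸ hq')
  have hinj1 : Set.InjOn (fun j => edgeRow j (p j)) T := fun j _ j' _ h => by
    have := congrArg Prod.snd h
    simp only [edgeRow, singleton_inj] at this
    omega
  have hinj2 : Set.InjOn skipRow (Q.toFinset \ I : Finset (ℕ × ℕ)) := fun q _ q' _ h => by
    simp only [skipRow, Prod.mk.injEq, singleton_inj] at h
    exact Prod.ext (by omega) (by omega)
  have hdisj : Disjoint (T.image fun j => edgeRow j (p j)) ((Q.toFinset \ I).image skipRow) := by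
    rw [disjoint_left]
    intro r hr hr'
    obtain ⟨j, hj, rfl⟩ := mem_image.1 hr
    obtain ⟨q, hq, e⟩ := mem_image.1 hr'
    have := congrArg Prod.snd e
    simp only [edgeRow, skipRow, singleton_inj] at this
    exact (hout q hq).2 (show q.2 = j by omega ▸ hj)
  refine ⟨T.image (fun j => edgeRow j (p j)) ∪ (Q.toFinset \ I).image skipRow, fun r hr => ?_,
    fun c hc => ?_, ?_⟩
  · rw [List.mem_toFinset, mem_rows]
    rcases mem_union.1 hr with hr | hr
    · obtain ⟨j, hj, rfl⟩ := mem_image.1 hr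
      refine Or.inl ⟨j, ?_, p j, (h1 j hj).1 (by simp [hp2 j hj]), (h1 j hj).1 (by simp [hp2 j hj]),
        hp1 j hj, rfl⟩
      obtain ⟨q, hq, e | e⟩ := (hTm j).1 hj
      exacts [e ▸ (hQ.lt q (hIQ q hq)).1, e ▸ (hQ.lt q (hIQ q hq)).2]
    · obtain ⟨q, hq, rfl⟩ := mem_image.1 hr
      exact Or.inr ⟨q, List.mem_toFinset.1 (mem_sdiff.1 hq).1, rfl⟩
  · rw [sum_union hdisj, sum_image hinj1, sum_image hinj2] at hc
    have odd : ∀ i, (∑ j ∈ T, if i = j then (c (edgeRow j (p j))).2 else 0) +
        ∑ q ∈ Q.toFinset \ I, ((if i = q.1 then (c (skipRow q)).1 else 0) +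
          if i = q.2 then (c (skipRow q)).2 else 0) = 0 := fun i => by
      have := congrFun hc (2 * i + 1)
      simp only [Pi.add_apply, Finset.sum_apply, Pi.smul_apply, Pi.zero_apply] at this
      refine Eq.trans ?_ this
      congr 1
      · refine sum_congr rfl fun j _ => ?_
        have e1 : 2 * i + 1 ≠ 2 * (p j).1 := by omega
        have e2 : 2 * i + 1 ≠ 2 * (p j).2 := by omega
        simp [edgeRow, chi, e1, e2]
      · exact sum_congr rfl fun q _ => by simp [skipRow, chi]
    have even : ∀ x, (∑ j ∈ T, if x ∈ h' j then (c (edgeRow j (p j))).1 else 0) = 0 := fun x => by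
      have := congrFun hc (2 * x)
      simp only [Pi.add_apply, Finset.sum_apply, Pi.smul_apply, Pi.zero_apply] at this
      rw [sum_eq_zero (s := Q.toFinset \ I) (fun q _ => by
        have e1 : 2 * x ≠ 2 * q.1 + 1 := by omega
        have e2 : 2 * x ≠ 2 * q.2 + 1 := by omega
        simp [skipRow, chi, e1, e2]), add_zero] at this
      refine Eq.trans ?_ this
      refine sum_congr rfl fun j hj => ?_
      have e1 : 2 * x ≠ 2 * j + 1 := by omega
      simp [edgeRow, chi, e1, hp2 j hj]
    intro r hr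
    rcases mem_union.1 hr with hr | hr
    · obtain ⟨j, hj, rfl⟩ := mem_image.1 hr
      refine Prod.ext ?_ ?_
      · by_contra h0
        set X := T.filter fun j => (c (edgeRow j (p j))).1 ≠ 0 with hX
        have k1 := h2 X (filter_subset _ _) ⟨j, mem_filter.2 ⟨hj, h0⟩⟩
        have k2 : ∀ x ∈ X.biUnion h', 2 ≤ (X.filter fun j => x ∈ h' j).card := by
          intro x hx
          obtain ⟨i, hi, hx⟩ := mem_biUnion.1 hx
          by_contra hlt
          have k3 := even x
          rw [sum_eq_single_of_mem i (mem_filter.1 hi).1 (fun b hb hne => ?_), if_pos hx] at k3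
          · exact (mem_filter.1 hi).2 k3
          · split_ifs with hb'
            · by_contra hb0
              exact hne (card_le_one.1 (by omega : (X.filter fun j => x ∈ h' j).card ≤ 1) b
                (mem_filter.2 ⟨mem_filter.2 ⟨hb, hb0⟩, hb'⟩) i (mem_filter.2 ⟨hi, hx⟩))
            · rfl
        have k3 := card_mul_le_card_mul' (s := X) (t := X.biUnion h') (fun j x => x ∈ h' j)
          (n := 2) (m := 2) k2 (fun j hj => by
            rw [← (h1 j (mem_filter.1 hj).1).2]
            exact card_le_card fun x hx => (mem_filter.1 hx).2)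
        omega
      · have := odd j
        rw [sum_ite_eq, if_pos hj, sum_eq_zero (fun q hq => by
          rw [if_neg fun e : j = q.1 => (hout q hq).1 (e ▸ hj),
            if_neg fun e : j = q.2 => (hout q hq).2 (e ▸ hj), add_zero]), add_zero] at this
        exact this
    · obtain ⟨q, hq, rfl⟩ := mem_image.1 hr
      have hq' := List.mem_toFinset.1 (mem_sdiff.1 hq).1
      refine Prod.ext ?_ ?_
      · have := odd q.1
        rw [sum_ite_eq, if_neg (hout q hq).1, zero_add, sum_eq_single_of_mem q hq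
          (fun b hb hne => ?_), if_pos rfl, if_neg (hQ.ne q hq' q hq'), add_zero] at this
        · exact this
        · have hb' := List.mem_toFinset.1 (mem_sdiff.1 hb).1
          rw [if_neg fun e : q.1 = b.1 => hne (hQ.inj b hb' q hq' (Or.inl e.symm)),
            if_neg (hQ.ne q hq' b hb'), add_zero]
      · have := odd q.2
        rw [sum_ite_eq, if_neg (hout q hq).2, zero_add, sum_eq_single_of_mem q hq
          (fun b hb hne => ?_), if_pos rfl, if_neg (hQ.ne q hq' q hq').symm, zero_add] at this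
        · exact this
        · have hb' := List.mem_toFinset.1 (mem_sdiff.1 hb).1
          rw [if_neg (hQ.ne b hb' q hq').symm,
            if_neg fun e : q.2 = b.2 => hne (hQ.inj b hb' q hq' (Or.inr e.symm)), add_zero]
  · rw [card_union_of_disjoint hdisj, card_image_of_injOn hinj1, card_image_of_injOn hinj2,
      card_sdiff_of_subset hI, List.toFinset_card_of_nodup hQ.nodup, hT, card_biUnion]
    · rw [sum_congr rfl (g := fun _ => 2) fun q hq => card_pair (hQ.ne q (hIQ q hq) q (hIQ q hq)),
        sum_const, smul_eq_mul]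
      have := card_le_card hI
      rw [List.toFinset_card_of_nodup hQ.nodup] at this
      omega
    · intro q hq q' hq' hne
      have k1 := hIQ q hq
      have k2 := hIQ q' hq'
      simp only [Function.onFun, disjoint_insert_left, mem_insert, mem_singleton, not_or,
        disjoint_singleton_left]
      exact ⟨⟨fun e => hne (hQ.inj q k1 q' k2 (Or.inl e)), hQ.ne q k1 q' k2⟩,
        (hQ.ne q' k2 q k1).symm, fun e => hne (hQ.inj q k1 q' k2 (Or.inr e))⟩

/-- The algorithm. -/
def answer (x : Finset ℕ × List (Finset ℕ) × List (ℕ × ℕ)) : ℕ :=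
  solve (rows x.2.1 x.2.2) - x.2.2.length

theorem pt_answer : PT answer := by
  unfold answer rows edgeRow skipRow
  fun_prop

theorem answer_spec (V : Finset ℕ) (E : List (Finset ℕ)) (Q : List (ℕ × ℕ))
    (h : (Q.flatMap fun q => [q.1, q.2]).Perm (List.range E.length)) :
    IsGreatest {k | ∃ I ⊆ Q.toFinset, I.card = k ∧
      HI (fun j => E.getD j ∅) (I.biUnion fun q => {q.1, q.2})} (answer (V, E, Q)) := by
  have hQ := part_of_perm h
  obtain ⟨⟨R, hR, hI, hc⟩, hmax⟩ := solve_rows (rows E Q)
  have hub : ∀ I ⊆ Q.toFinset, HI (fun j => E.getD j ∅) (I.biUnion fun q => {q.1, q.2}) →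
      Q.length + I.card ≤ solve (rows E Q) := fun I h1 h2 => hmax (lower hQ h1 h2)
  constructor
  · obtain ⟨I, h1, h2, h3⟩ := upper hQ hR hI
    have := hub I h1 h2
    exact ⟨I, h1, by simp only [answer]; omega, h2⟩
  · rintro k ⟨I, h1, rfl, h2⟩
    have := hub I h1 h2
    simp only [answer]; omega

end Pool.Agent.MP_0c5eb8_lc.H40
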