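import Pool.Agent.MP_0c5eb8_lc.H40.Lin

/-!
Tests used by the matroid parity algorithm, their meaning, and their running time.
-/

namespace Pool.Agent.MP_0c5eb8_lc.H40

open Pool.Agent.Shared.H56 Polynomial Module Finset

/-- First vector of the pair with index `e`. -/
def va (L : List Row) (e : ℕ) : Finset ℕ := (L.getD e (∅, ∅)).1

/-- Second vector of the pair with index `e`. -/
def vb (L : List Row) (e : ℕ) : Finset ℕ := (L.getD e (∅, ∅)).2

/-- The linear map of a list of pairs. -/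
def phi (L : List Row) : (ℕ → F2 × F2) →ₗ[F2] VV where
  toFun ξ := ∑ e ∈ range L.length, ((ξ e).1 • chi (va L e) + (ξ e).2 • chi (vb L e))
  map_add' ξ η := by
    rw [← sum_add_distrib]
    refine sum_congr rfl fun e _ => ?_
    simp only [Pi.add_apply, Prod.fst_add, Prod.snd_add, add_smul]; abel
  map_smul' c ξ := by
    rw [RingHom.id_apply, smul_sum]
    refine sum_congr rfl fun e _ => ?_
    simp only [Pi.smul_apply, Prod.smul_fst, Prod.smul_snd, smul_eq_mul, smul_add, mul_smul]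

lemma phi_single (L : List Row) (e : ℕ) (y : F2 × F2) :
    phi L (Pi.single e y) = y.1 • chi (va L e) + y.2 • chi (vb L e) := by
  show ∑ x ∈ range L.length, _ = _
  rw [sum_eq_single e (fun b _ hb => by simp [Pi.single_eq_of_ne hb]) fun h => ?_]
  · simp
  · have : L.getD e (∅, ∅) = (∅, ∅) := List.getD_eq_default _ _ (by simpa using h)
    rw [va, vb, this]; simp

lemma lin_phi {L : List Row} {e : ℕ} {T : Submodule F2 VV} :
    Lin (phi L) e T ↔ chi (va L e) ∈ T ∧ chi (vb L e) ∈ T := by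
  constructor
  · intro h
    have h1 := h (1, 0)
    have h2 := h (0, 1)
    rw [phi_single] at h1 h2
    exact ⟨by simpa using h1, by simpa using h2⟩
  · intro h y
    rw [phi_single]
    exact T.add_mem (T.smul_mem _ h.1) (T.smul_mem _ h.2)

/-- The vectors of the pairs with index in `S`. -/
def vecs (L : List Row) (S : Finset ℕ) : List (Finset ℕ) :=
  (S.sort (· ≤ ·)).flatMap fun e => [va L e, vb L e]

lemma spanL_vecs (L : List Row) (Z : List (Finset ℕ)) (S : Finset ℕ) :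
    spanL (Z ++ vecs L S) = sp (phi L) (spanL Z) S := by
  rw [spanL_append]
  refine le_antisymm (sup_le (le_sp _) (spanL_le.2 fun v hv => ?_))
    (sp_le le_sup_left fun e he => lin_phi.2 ⟨?_, ?_⟩)
  · obtain ⟨e, he, hv⟩ := List.mem_flatMap.1 hv
    have := lin_phi.1 (lin_sp (φ := phi L) (Z := spanL Z) ((mem_sort _).1 he))
    simp only [List.mem_cons, List.not_mem_nil, or_false] at hv
    rcases hv with rfl | rfl
    exacts [this.1, this.2]
  · exact Submodule.mem_sup_right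
      (mem_spanL (List.mem_flatMap.2 ⟨e, (mem_sort _).2 he, by simp⟩))
  · exact Submodule.mem_sup_right
      (mem_spanL (List.mem_flatMap.2 ⟨e, (mem_sort _).2 he, by simp⟩))

lemma spanL_vecs' (L : List Row) (S : Finset ℕ) : spanL (vecs L S) = sp (phi L) ⊥ S := by
  simpa using spanL_vecs L [] S

/-- Matching test. -/
def isM (L : List Row) (Z : List (Finset ℕ)) (S : Finset ℕ) : Bool :=
  decide (rk (Z ++ vecs L S) = rk Z + 2 * S.card)

/-- Span test for a vector. -/
def inS (L : List Row) (Z : List (Finset ℕ)) (S x : Finset ℕ) : Bool := inSp x (Z ++ vecs L S)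

/-- Span test for a pair. -/
def lin (L : List Row) (Z : List (Finset ℕ)) (S : Finset ℕ) (e : ℕ) : Bool :=
  inS L Z S (va L e) && inS L Z S (vb L e)

/-- Nullity. -/
def nul (L : List Row) (Z : List (Finset ℕ)) (S : Finset ℕ) : ℕ :=
  rk Z + 2 * S.card - rk (Z ++ vecs L S)

/-- Span test for a subspace. -/
def leS (L : List Row) (Z : List (Finset ℕ)) (S : Finset ℕ) (K : List (Finset ℕ)) : Bool :=
  K.all fun x => inS L Z S x

variable {L : List Row} {Z K : List (Finset ℕ)} {S E B : Finset ℕ}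

@[simp] lemma isM_iff : isM L Z S = true ↔ Mt (phi L) (spanL Z) S := by
  rw [isM, decide_eq_true_eq, rk_eq, rk_eq, spanL_vecs, mt_iff_rank]

@[simp] lemma inS_iff {x : Finset ℕ} : inS L Z S x = true ↔ chi x ∈ sp (phi L) (spanL Z) S := by
  rw [inS, inSp_iff, spanL_vecs]

@[simp] lemma lin_iff {e : ℕ} : lin L Z S e = true ↔ Lin (phi L) e (sp (phi L) (spanL Z) S) := by
  simp [lin, lin_phi]

lemma nul_eq : nul L Z S = finrank F2 (Nul (phi L) (spanL Z) S) := by
  have := rank_nul (φ := phi L) (Z := spanL Z) S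
  rw [nul, rk_eq, rk_eq, spanL_vecs]; omega

@[simp] lemma leS_iff : leS L Z S K = true ↔ spanL K ≤ sp (phi L) (spanL Z) S := by
  simp [leS, spanL_le]

@[simp] lemma isM_false : isM L Z S = false ↔ ¬ Mt (phi L) (spanL Z) S := by
  rw [← isM_iff, Bool.not_eq_true]

@[simp] lemma inS_false {x : Finset ℕ} :
    inS L Z S x = false ↔ chi x ∉ sp (phi L) (spanL Z) S := by
  rw [← inS_iff, Bool.not_eq_true]

@[simp] lemma lin_false {e : ℕ} :
    lin L Z S e = false ↔ ¬ Lin (phi L) e (sp (phi L) (spanL Z) S) := by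
  rw [← lin_iff, Bool.not_eq_true]

@[simp] lemma leS_false : leS L Z S K = false ↔ ¬ spanL K ≤ sp (phi L) (spanL Z) S := by
  rw [← leS_iff, Bool.not_eq_true]

/-- Replace `p.2` by `p.1`. -/
def sw (B : Finset ℕ) (p : ℕ × ℕ) : Finset ℕ := insert p.1 (B.erase p.2)

/-- All pairs of elements. -/
def prs (S T : Finset ℕ) : List (ℕ × ℕ) := S.sort (· ≤ ·) ×ˢ T.sort (· ≤ ·)

@[simp] lemma mem_prs {S T : Finset ℕ} {p : ℕ × ℕ} : p ∈ prs S T ↔ p.1 ∈ S ∧ p.2 ∈ T := by
  obtain ⟨x, y⟩ := p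
  simp [prs]

lemma sw_subset {B S U : Finset ℕ} {p : ℕ × ℕ} (h : p.1 ∈ S) (hB : B ⊆ U) (hS : S ⊆ U) :
    sw B p ⊆ U := insert_subset (hS h) ((erase_subset _ _).trans hB)

/-- Labels are stored in a list. -/
def labf (l : List ℕ) (x : ℕ) : ℕ := l.getD x 0

/-- All exchanges. -/
def exch (L : List Row) (Z : List (Finset ℕ)) (E B : Finset ℕ) : List (ℕ × ℕ) :=
  (prs E B).filter fun p => !lin L Z B p.1 && isM L Z (sw B p)

/-- All augmentations by one pair. -/
def augs (L : List Row) (Z : List (Finset ℕ)) (E B : Finset ℕ) : List (Finset ℕ) :=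
  (((E \ B).sort (· ≤ ·)).map fun g => insert g B).filter fun T => isM L Z T

/-- All exchanges that lose `K` or join two labels. -/
def bad (L : List Row) (Z : List (Finset ℕ)) (E : Finset ℕ) (K : List (Finset ℕ)) (lab : List ℕ)
    (B : Finset ℕ) : List (ℕ × ℕ) :=
  (exch L Z E B).filter fun p => !leS L Z (sw B p) K || decide (labf lab p.2 ≠ labf lab p.1)

/-- The stopping test. -/
def stop (L : List Row) (Z : List (Finset ℕ)) (E : Finset ℕ) (K : List (Finset ℕ)) (lab : List ℕ)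
    (B : Finset ℕ) : Bool :=
  !(augs L Z E B).isEmpty || !(bad L Z E K lab B).isEmpty

/-- The matchings reached by one exchange, unless the stopping test holds. -/
def nbrs (L : List Row) (Z : List (Finset ℕ)) (E : Finset ℕ) (K : List (Finset ℕ)) (lab : List ℕ)
    (B : Finset ℕ) : List (Finset ℕ) :=
  bif stop L Z E K lab B then [] else (exch L Z E B).map (sw B)

lemma mem_exch {p : ℕ × ℕ} : p ∈ exch L Z E B ↔ Exch (phi L) (spanL Z) E B p.1 p.2 := by
  simp only [exch, List.mem_filter, mem_prs, Bool.and_eq_true, Bool.not_eq_true', lin_false,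
    isM_iff]
  exact ⟨fun h => ⟨h.1.1, h.2.1, h.1.2, h.2.2⟩, fun h => ⟨⟨h.mem, h.memf⟩, h.out, h.mt⟩⟩

lemma mem_augs {T : Finset ℕ} :
    T ∈ augs L Z E B ↔ ∃ g ∈ E, g ∉ B ∧ T = insert g B ∧ Mt (phi L) (spanL Z) T := by
  simp only [augs, List.mem_filter, List.mem_map, mem_sort, mem_sdiff, isM_iff]
  constructor
  · rintro ⟨⟨g, ⟨h1, h2⟩, rfl⟩, h3⟩; exact ⟨g, h1, h2, rfl, h3⟩
  · rintro ⟨g, h1, h2, rfl, h3⟩; exact ⟨⟨g, ⟨h1, h2⟩, rfl⟩, h3⟩

lemma mem_bad {lab : List ℕ} {p : ℕ × ℕ} :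
    p ∈ bad L Z E K lab B ↔ Exch (phi L) (spanL Z) E B p.1 p.2 ∧
      (¬ spanL K ≤ sp (phi L) (spanL Z) (sw B p) ∨ labf lab p.2 ≠ labf lab p.1) := by
  simp [bad, mem_exch]

lemma stop_iff {lab : List ℕ} :
    stop L Z E K lab B = true ↔ Stop (phi L) (spanL Z) E (spanL K) (labf lab) B := by
  simp only [stop, Bool.or_eq_true, Bool.not_eq_true', List.isEmpty_eq_false_iff_exists_mem,
    mem_augs, mem_bad, Stop]
  refine or_congr ⟨?_, ?_⟩ ⟨?_, ?_⟩
  · rintro ⟨_, g, h1, h2, rfl, h3⟩; exact ⟨g, h1, h2, h3⟩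
  · rintro ⟨g, h1, h2, h3⟩; exact ⟨_, g, h1, h2, rfl, h3⟩
  · rintro ⟨p, h⟩; exact ⟨p.1, p.2, h⟩
  · rintro ⟨g, f, h⟩; exact ⟨(g, f), h⟩

lemma mem_nbrs {lab : List ℕ} {T : Finset ℕ} :
    T ∈ nbrs L Z E K lab B ↔ ¬ Stop (phi L) (spanL Z) E (spanL K) (labf lab) B ∧
      ∃ g f, Exch (phi L) (spanL Z) E B g f ∧ T = insert g (B.erase f) := by
  rw [← stop_iff, nbrs]
  cases stop L Z E K lab B
  · simp only [cond_false, List.mem_map, mem_exch, Bool.false_eq_true, not_false_eq_true, true_and]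
    exact ⟨fun ⟨p, h, e⟩ => ⟨p.1, p.2, h, e.symm⟩, fun ⟨g, f, h, e⟩ => ⟨(g, f), h, e.symm⟩⟩
  · simp

/-- The pairs whose removal leaves a matching. -/
def circL (L : List Row) (Z : List (Finset ℕ)) (T : Finset ℕ) : Finset ℕ :=
  T.filter fun x => isM L Z (T.erase x) = true

lemma circL_eq {T : Finset ℕ} : circL L Z T = circ (phi L) (spanL Z) T := by
  ext x; simp [circL, circ]

/-- Two pairs of equal label whose removal leaves a matching. -/
def sepLab (L : List Row) (Z : List (Finset ℕ)) (lb : List ℕ) (D : Finset ℕ) : Bool :=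
  (prs D D).any fun p => decide (p.1 ≠ p.2) && isM L Z ((D.erase p.1).erase p.2) &&
    decide (labf lb p.1 = labf lb p.2)

lemma sepLab_iff {lb : List ℕ} {D : Finset ℕ} :
    sepLab L Z lb D = true ↔ SepLab (phi L) (spanL Z) (labf lb) D := by
  simp only [sepLab, List.any_eq_true, mem_prs, Bool.and_eq_true, decide_eq_true_eq, isM_iff,
    SepLab]
  exact ⟨fun ⟨p, h, h'⟩ => ⟨p.1, h.1, p.2, h.2, h'.1.1, h'.1.2, h'.2⟩,
    fun ⟨x, h1, y, h2, h3, h4, h5⟩ => ⟨(x, y), ⟨h1, h2⟩, ⟨h3, h4⟩, h5⟩⟩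

/-! ### Polynomial time -/

section
variable {α : Type} [N487b59b3 α] {L : α → List Row} {Z K : α → List (Finset ℕ)}
  {S T E B x : α → Finset ℕ} {e : α → ℕ} {lab : α → List ℕ}

@[fun_prop] theorem pt_va (hL : PT L) (he : PT e) : PT fun a => va (L a) (e a) := by
  unfold va; fun_prop

@[fun_prop] theorem pt_vb (hL : PT L) (he : PT e) : PT fun a => vb (L a) (e a) := by
  unfold vb; fun_prop

@[fun_prop] theorem pt_vecs (hL : PT L) (hS : PT S) : PT fun a => vecs (L a) (S a) := by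
  unfold vecs; fun_prop

@[fun_prop] theorem pt_isM (hL : PT L) (hZ : PT Z) (hS : PT S) :
    PT fun a => isM (L a) (Z a) (S a) := by
  unfold isM; fun_prop

@[fun_prop] theorem pt_inS (hL : PT L) (hZ : PT Z) (hS : PT S) (hx : PT x) :
    PT fun a => inS (L a) (Z a) (S a) (x a) := by
  unfold inS; fun_prop

@[fun_prop] theorem pt_lin (hL : PT L) (hZ : PT Z) (hS : PT S) (he : PT e) :
    PT fun a => lin (L a) (Z a) (S a) (e a) := by
  unfold lin; fun_prop

@[fun_prop] theorem pt_nul (hL : PT L) (hZ : PT Z) (hS : PT S) :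
    PT fun a => nul (L a) (Z a) (S a) := by
  unfold nul; fun_prop

@[fun_prop] theorem pt_leS (hL : PT L) (hZ : PT Z) (hS : PT S) (hK : PT K) :
    PT fun a => leS (L a) (Z a) (S a) (K a) := by
  unfold leS; fun_prop

@[fun_prop] theorem pt_sw {p : α → ℕ × ℕ} (hB : PT B) (hp : PT p) :
    PT fun a => sw (B a) (p a) := by
  unfold sw; fun_prop

@[fun_prop] theorem pt_prs (hS : PT S) (hT : PT T) : PT fun a => prs (S a) (T a) := by
  unfold prs; fun_prop

@[fun_prop] theorem pt_labf (hl : PT lab) (he : PT e) : PT fun a => labf (lab a) (e a) := by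
  unfold labf; fun_prop

@[fun_prop] theorem pt_exch (hL : PT L) (hZ : PT Z) (hE : PT E) (hB : PT B) :
    PT fun a => exch (L a) (Z a) (E a) (B a) := by
  unfold exch; fun_prop

@[fun_prop] theorem pt_augs (hL : PT L) (hZ : PT Z) (hE : PT E) (hB : PT B) :
    PT fun a => augs (L a) (Z a) (E a) (B a) := by
  unfold augs; fun_prop

@[fun_prop] theorem pt_bad (hL : PT L) (hZ : PT Z) (hE : PT E) (hK : PT K) (hl : PT lab)
    (hB : PT B) : PT fun a => bad (L a) (Z a) (E a) (K a) (lab a) (B a) := by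
  unfold bad; fun_prop

@[fun_prop] theorem pt_stop (hL : PT L) (hZ : PT Z) (hE : PT E) (hK : PT K) (hl : PT lab)
    (hB : PT B) : PT fun a => stop (L a) (Z a) (E a) (K a) (lab a) (B a) := by
  unfold stop; fun_prop

@[fun_prop] theorem pt_nbrs (hL : PT L) (hZ : PT Z) (hE : PT E) (hK : PT K) (hl : PT lab)
    (hB : PT B) : PT fun a => nbrs (L a) (Z a) (E a) (K a) (lab a) (B a) := by
  unfold nbrs; fun_prop

@[fun_prop] theorem pt_circL (hL : PT L) (hZ : PT Z) (hT : PT T) :
    PT fun a => circL (L a) (Z a) (T a) := by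
  unfold circL
  refine pt_filter ?_ hT
  have : PT fun p : α × ℕ => isM (L p.1) (Z p.1) ((T p.1).erase p.2) := by fun_prop
  exact this.congr fun p => by simp

@[fun_prop] theorem pt_sepLab (hL : PT L) (hZ : PT Z) (hl : PT lab) (hT : PT T) :
    PT fun a => sepLab (L a) (Z a) (lab a) (T a) := by
  unfold sepLab; fun_prop

end

end Pool.Agent.MP_0c5eb8_lc.H40
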