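import Pool.Agent.MP_0c5eb8_lc.H40.Level0

/-!
The matroid parity algorithm runs in polynomial time.
-/

namespace Pool.Agent.MP_0c5eb8_lc.H40

open Pool.Agent.Shared.H56 Polynomial Module Finset

section
variable {L : List Row} {Z Z2 K : List (Finset ℕ)} {S E B : Finset ℕ} {lab : List ℕ}

lemma nbrs_subset {T U : Finset ℕ} (h : T ∈ nbrs L Z E K lab B) (hB : B ⊆ U) (hE : E ⊆ U) :
    T ⊆ U := by
  obtain ⟨-, g, f, hx, rfl⟩ := mem_nbrs.1 h
  exact insert_subset (hE hx.mem) ((erase_subset _ _).trans hB)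

lemma joint_subset {fam : List (Finset ℕ)} {M : Finset ℕ} :
    joint L Z Z2 E K lab S fam B M ⊆ B ∪ E := by
  refine climb_inv (fun s : Finset ℕ × Finset ℕ × Finset ℕ => s.1 ⊆ B ∪ E)
    (fun s t hs ht _ => ?_) _ subset_union_left
  rcases (mem_jcands.1 ht).1 with h1 | ⟨-, g, f, hx, h1⟩
  · exact h1 ▸ hs
  · exact h1 ▸ insert_subset (mem_union_right _ hx.mem) ((erase_subset _ _).trans hs)

lemma swaps_subset {A C T U t : Finset ℕ} {q : Finset ℕ → Bool}
    (h : t ∈ ((prs A C).map (sw T)).filter q) (hT : T ⊆ U) (hA : A ⊆ U) : t ⊆ U := by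
  obtain ⟨p, hp, rfl⟩ := List.mem_map.1 (List.mem_filter.1 h).1
  exact sw_subset (mem_prs.1 hp).1 hT hA

lemma flowSearch_subset {D C T : Finset ℕ} : flowSearch L Z D C T ⊆ T ∪ D :=
  climb_inv (fun U => U ⊆ T ∪ D)
    (fun _ _ hs ht _ => swaps_subset ht hs (sdiff_subset.trans subset_union_right)) _
    subset_union_left

lemma headD_cases {β : Type} (l : List β) (d : β) : l.headD d = d ∨ l.headD d ∈ l := by
  cases l <;> simp

lemma t2step_subset {k : ℕ} {fam : List (Finset ℕ)} {D U : Finset ℕ} {r : Rec} (hD : D ⊆ U)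
    (hS : S ⊆ U) : t2step L Z S k fam D r ⊆ U := by
  unfold t2step
  cases good2 L Z S k fam r.2.2 D
  · rw [cond_false]
    rcases headD_cases _ D with h | h
    · rw [h]; exact hD
    · obtain ⟨e, he, h'⟩ := List.mem_map.1 (List.mem_filter.1 h).1
      rw [← h']
      exact insert_subset (hD ((mem_sort _).1 (List.mem_filter.1 he).1))
        (flowSearch_subset.trans (union_subset (inter_subset_right.trans hS) hD))
  · exact hD

lemma sz_headD_le (fam : List (Finset ℕ)) : sz (fam.headD ∅) ≤ sz fam := by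
  rcases headD_cases fam ∅ with h | h
  · rw [h, sz_finset]; simp
  · exact sz_le_of_mem h

end

variable {α : Type} [N487b59b3 α] {L : α → List Row} {Z Z2 K fam : α → List (Finset ℕ)}
  {S T E B B' M D C x : α → Finset ℕ} {k : α → ℕ} {lab : α → List ℕ}

@[fun_prop] theorem pt_align (hL : PT L) (hE : PT E) (hK : PT K) (hB' : PT B') (hB : PT B) :
    PT fun a => align (L a) (E a) (K a) (B' a) (B a) :=
  pt_climb (cands := fun a => nbrs (L a) [] (E a) (K a) []) (pot := fun a T => (T ∩ B' a).card)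
    (by fun_prop) (by fun_prop) (by fun_prop) hB (fun a T => T ⊆ B a ∪ E a)
    (fun a => sz (B a ∪ E a)) (PB.sz (by fun_prop)) (fun _ => subset_union_left)
    (fun _ _ _ hs ht _ => nbrs_subset ht hs subset_union_right) fun _ _ h => sz_mono h

@[fun_prop] theorem pt_joint (hL : PT L) (hZ : PT Z) (hZ2 : PT Z2) (hE : PT E) (hK : PT K)
    (hl : PT lab) (hS : PT S) (hf : PT fam) (hB : PT B) (hM : PT M) :
    PT fun a => joint (L a) (Z a) (Z2 a) (E a) (K a) (lab a) (S a) (fam a) (B a) (M a) := by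
  refine PT.fst (pt_climb
    (cands := fun a => jcands (L a) (Z a) (Z2 a) (E a) (K a) (lab a) (S a) (fam a))
    (pot := fun a => jpot (L a) (Z a) ((E a).card + 1))
    (by unfold jcands; fun_prop) (by unfold jpot; fun_prop) (by fun_prop) (by fun_prop)
    (fun a s => s.1 ⊆ B a ∪ E a ∧ s.2.1 ⊆ M a ∪ S a ∧ sz s.2.2 ≤ sz (fam a))
    (fun a => 2 * sz (B a ∪ E a) + 1 + (2 * sz (M a ∪ S a) + 1 + sz (fam a)))
    ((((PB.const 2).mul (PB.sz (by fun_prop))).add (PB.const 1)).add
      ((((PB.const 2).mul (PB.sz (by fun_prop))).add (PB.const 1)).add (PB.sz hf)))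
    (fun a => ⟨subset_union_left, subset_union_left, sz_headD_le _⟩) (fun a s t hs ht _ => ?_)
    fun a s h => ?_)
  · obtain ⟨h1, h2, h3⟩ := mem_jcands.1 ht
    refine ⟨?_, ?_, sz_le_of_mem h3⟩
    · rcases h1 with h1 | ⟨-, g, f, hx, h1⟩
      · exact h1 ▸ hs.1
      · exact h1 ▸ insert_subset (mem_union_right _ hx.mem) ((erase_subset _ _).trans hs.1)
    · rcases h2 with h2 | ⟨h, hS, -, f, -, h2, -⟩
      · exact h2 ▸ hs.2.1
      · exact h2 ▸ insert_subset (mem_union_right _ hS) ((erase_subset _ _).trans hs.2.1)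
  · have h1 := sz_mono h.1
    have h2 := sz_mono h.2.1
    have h3 := h.2.2
    rw [show s = (s.1, s.2.1, s.2.2) from rfl, sz_pair, sz_pair]
    omega

@[fun_prop] theorem pt_ptSearch (hL : PT L) (hZ : PT Z) (hD : PT D) (hx : PT x) (hB : PT B) :
    PT fun a => ptSearch (L a) (Z a) (D a) (x a) (B a) :=
  pt_climb (cands := fun a T => ((prs (D a \ T) T).map (sw T)).filter
      fun U => isM (L a) (Z a) U && !inS (L a) (Z a) U (x a)) (pot := fun a T => (T ∩ D a).card)
    (by fun_prop) (by fun_prop) (by fun_prop) hB (fun a T => T ⊆ B a ∪ D a)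
    (fun a => sz (B a ∪ D a)) (PB.sz (by fun_prop)) (fun _ => subset_union_left)
    (fun _ _ _ hs ht _ => swaps_subset ht hs (sdiff_subset.trans subset_union_right))
    fun _ _ h => sz_mono h

@[fun_prop] theorem pt_okM (hL : PT L) (hZ : PT Z) (hS : PT S) (hk : PT k) (hM : PT M) :
    PT fun a => okM (L a) (Z a) (S a) (k a) (M a) := by
  unfold okM; fun_prop

@[fun_prop] theorem pt_ext (hL : PT L) (hZ : PT Z) (hS : PT S) (hk : PT k) (hf : PT fam)
    (hD : PT D) : PT fun a => ext (L a) (Z a) (S a) (k a) (fam a) (D a) := by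
  unfold ext; fun_prop

@[fun_prop] theorem pt_flowSearch (hL : PT L) (hZ : PT Z) (hD : PT D) (hC : PT C) (hT : PT T) :
    PT fun a => flowSearch (L a) (Z a) (D a) (C a) (T a) :=
  pt_climb (cands := fun a U => ((prs (D a \ U) (U \ C a)).map (sw U)).filter
      fun U' => decide (nul (L a) (Z a) U' ≤ 1)) (pot := fun a U => (U ∩ D a).card)
    (by fun_prop) (by fun_prop) (by fun_prop) hT (fun a U => U ⊆ T a ∪ D a)
    (fun a => sz (T a ∪ D a)) (PB.sz (by fun_prop)) (fun _ => subset_union_left)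
    (fun _ _ _ hs ht _ => swaps_subset ht hs (sdiff_subset.trans subset_union_right))
    fun _ _ h => sz_mono h

@[fun_prop] theorem pt_good2 (hL : PT L) (hZ : PT Z) (hS : PT S) (hk : PT k) (hf : PT fam)
    (hl : PT lab) (hD : PT D) :
    PT fun a => good2 (L a) (Z a) (S a) (k a) (fam a) (lab a) (D a) := by
  unfold good2; fun_prop

@[fun_prop] theorem pt_t2step {r : α → Rec} (hL : PT L) (hZ : PT Z) (hS : PT S) (hk : PT k)
    (hf : PT fam) (hD : PT D) (hr : PT r) :
    PT fun a => t2step (L a) (Z a) (S a) (k a) (fam a) (D a) (r a) := by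
  unfold t2step; fun_prop

@[fun_prop] theorem pt_t2fold {h : α → List Rec} (hL : PT L) (hZ : PT Z) (hS : PT S) (hk : PT k)
    (hf : PT fam) (hD : PT D) (hh : PT h) :
    PT fun a => (h a).foldl (t2step (L a) (Z a) (S a) (k a) (fam a)) (D a) :=
  pt_foldl_inv (f := fun a => t2step (L a) (Z a) (S a) (k a) (fam a)) (by fun_prop) hD hh
    (fun a U => U ⊆ D a ∪ S a) (fun a => sz (D a ∪ S a)) (PB.sz (by fun_prop))
    (fun _ => subset_union_left) (fun _ _ _ _ hs => t2step_subset hs subset_union_right)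
    fun _ _ h => sz_mono h

@[fun_prop] theorem pt_drop (hL : PT L) (hZ : PT Z) (hk : PT k) (hS : PT S) :
    PT fun a => drop (L a) (Z a) (k a) (S a) := by
  have h1 : PT fun p : α × Finset ℕ => ((p.2.sort (· ≤ ·)).map fun e => p.2.erase e).filter
      fun U => decide (nul (L p.1) (Z p.1) U + (S p.1).card ≤ k p.1 + U.card) &&
        decide ((S p.1).card ≤ U.card + k p.1) := by
    refine PT.filter (PT.and (PT.decLe ?_ ?_) (PT.decLe ?_ ?_)) ?_ <;> fun_prop
  have h2 : PT fun p : α × Finset ℕ => (S p.1).card - p.2.card := by fun_prop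
  have h3 : PT fun a => un ((S a).card + 1) := by fun_prop
  have h4 := pt_climb (cands := fun a T => ((T.sort (· ≤ ·)).map fun e => T.erase e).filter fun U =>
      decide (nul (L a) (Z a) U + (S a).card ≤ k a + U.card) && decide ((S a).card ≤ U.card + k a))
    (pot := fun a T => (S a).card - T.card) (N := fun a => (S a).card + 1)
    h1 h2 h3 hS (fun a T => T ⊆ S a)
    (fun a => sz (S a)) (PB.sz hS) (fun _ => Subset.rfl) (fun a s t hs ht _ => by
      obtain ⟨e, -, he⟩ := List.mem_map.1 (List.mem_filter.1 ht).1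
      rw [← he]
      exact (erase_subset e s).trans hs)
    fun _ _ h => sz_mono h
  exact h4

@[fun_prop] theorem pt_cls (hE : PT E) (hl : PT lab) (hk : PT k) :
    PT fun a => cls (E a) (lab a) (k a) := by
  unfold cls; fun_prop

@[fun_prop] theorem pt_classM {h : α → List Rec} (hL : PT L) (hZ : PT Z) (hf : PT fam) (hh : PT h)
    (hB : PT B) (hS : PT S) : PT fun a => classM (L a) (Z a) (fam a) (h a) (B a) (S a) := by
  unfold classM; fun_prop

variable {s : α → List Rec × List ℕ}

@[fun_prop] theorem pt_finals1 (hL : PT L) (hZ : PT Z) (hE : PT E) (hf : PT fam) (hs : PT s) :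
    PT fun a => finals1 (L a) (Z a) (E a) (fam a) (s a) := by
  unfold finals1; fun_prop

@[fun_prop] theorem pt_augs1 (hL : PT L) (hZ : PT Z) (hE : PT E) (hf : PT fam) (hs : PT s) :
    PT fun a => augs1 (L a) (Z a) (E a) (fam a) (s a) := by
  unfold augs1; fun_prop

@[fun_prop] theorem pt_relab (hL : PT L) (hl : PT lab) (hC : PT C) (hk : PT k) :
    PT fun a => relab (L a) (lab a) (C a) (k a) := by
  unfold relab; fun_prop

@[fun_prop] theorem pt_cands1 (hL : PT L) (hZ : PT Z) (hE : PT E) (hf : PT fam) (hs : PT s) :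
    PT fun a => cands1 (L a) (Z a) (E a) (fam a) (s a) := by
  unfold cands1; fun_prop

@[fun_prop] theorem pt_pot1 (hE : PT E) (hs : PT s) : PT fun a => pot1 (E a) (s a) := by
  unfold pot1; fun_prop

/-- Small lists of labels. -/
def SmallLab (m : ℕ) (l : List ℕ) : Prop := l.length ≤ m ∧ ∀ y ∈ l, y ≤ m

lemma SmallLab.labf_le {m : ℕ} {l : List ℕ} (h : SmallLab m l) (x : ℕ) : labf l x ≤ m := by
  unfold labf
  by_cases hx : x < l.length
  · rw [List.getD_eq_getElem _ _ hx]; exact h.2 _ (List.getElem_mem _)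
  · rw [List.getD_eq_default _ _ (not_lt.1 hx)]; exact Nat.zero_le _

lemma SmallLab.sz_le {m : ℕ} {l : List ℕ} (h : SmallLab m l) : sz l ≤ m * (2 * m + 1) :=
  sz_list_le h.1 fun y hy => (sz_nat_le_self y).trans (h.2 y hy)

lemma pb_length {β : Type} [N487b59b3 β] {l : α → List β} (hl : PT l) :
    PB fun a => (l a).length := by
  obtain ⟨P, hP⟩ := hl.size
  exact ⟨P, fun a => (length_le_sz _).trans (hP a)⟩

@[fun_prop] theorem pt_level1 (hL : PT L) (hZ : PT Z) (hE : PT E) (hf : PT fam) :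
    PT fun a => level1 (L a) (Z a) (E a) (fam a) := by
  have hm : PB fun a => (L a).length * (2 * (L a).length + 1) :=
    (pb_length hL).mul (((PB.const 2).mul (pb_length hL)).add (PB.const 1))
  have hU : PT fun a => (fam a).headD ∅ ∪ E a := by fun_prop
  refine pt_augs1 hL hZ hE hf (pt_climb (cands := fun a => cands1 (L a) (Z a) (E a) (fam a))
    (pot := fun a => pot1 (E a)) (by fun_prop) (by fun_prop) (by fun_prop) (by fun_prop)
    (fun a s => s.1.length ≤ pot1 (E a) s ∧ SmallLab (L a).length s.2 ∧ ∀ r ∈ s.1,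
      r.1 ⊆ (fam a).headD ∅ ∪ E a ∧ r.2.1 ∈ E a ∧ SmallLab (L a).length r.2.2)
    (fun a => 2 * (sz (E a) * (2 * (2 * sz ((fam a).headD ∅ ∪ E a) + 1 + (2 * sz (E a) + 1 +
      (L a).length * (2 * (L a).length + 1))) + 1)) + 1 + (L a).length * (2 * (L a).length + 1))
    ((((PB.const 2).mul ((PB.sz hE).mul (((PB.const 2).mul
      ((((PB.const 2).mul (PB.sz hU)).add (PB.const 1)).add
        ((((PB.const 2).mul (PB.sz hE)).add (PB.const 1)).add hm))).add (PB.const 1)))).add
          (PB.const 1)).add hm)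
    (fun a => ⟨Nat.zero_le _, ⟨by simp, fun y hy => (List.mem_range.1 hy).le⟩, by simp⟩)
    (fun a s t hs ht hp => ?_) fun a s h => ?_)
  · obtain ⟨-, T, hT, p, hp', rfl⟩ := mem_cands1.1 ht
    refine ⟨by simp only [List.length_cons]; omega, ⟨by simp [relab], fun y hy => ?_⟩,
      fun r hr => ?_⟩
    · obtain ⟨x, -, rfl⟩ := List.mem_map.1 hy
      cases ((circL (L a) (Z a) (insert p.1 T)).sort (· ≤ ·)).any
        (fun c => decide (labf s.2 c = labf s.2 x)) <;> exact hs.2.1.labf_le _
    · rcases List.mem_cons.1 hr with rfl | hr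
      · obtain ⟨e, -, hT⟩ := List.mem_flatMap.1 hT
        obtain ⟨M, -, rfl⟩ := List.mem_map.1 hT
        exact ⟨joint_subset, (mem_bad.1 hp').1.mem, hs.2.1⟩
      · exact hs.2.2 r hr
  · have h1 : s.1.length ≤ sz (E a) :=
      h.1.trans ((Nat.sub_le _ _).trans (card_le_sz _))
    have h2 := sz_list_le (k := 2 * sz ((fam a).headD ∅ ∪ E a) + 1 + (2 * sz (E a) + 1 +
      (L a).length * (2 * (L a).length + 1))) h1 fun r hr => by
        obtain ⟨k1, k2, k3⟩ := h.2.2 r hr
        have j1 := sz_mono k1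
        have j2 : sz r.2.1 ≤ sz (E a) := sz_le_of_mem ((mem_sort (· ≤ ·)).2 k2)
        have j3 := k3.sz_le
        rw [show r = (r.1, r.2.1, r.2.2) from rfl, sz_pair, sz_pair]
        omega
    have h3 := h.2.1.sz_le
    rw [show s = (s.1, s.2) from rfl, sz_pair]
    omega

@[fun_prop] theorem pt_kof (hL : PT L) (hf : PT fam) : PT fun a => kof (L a) (fam a) := by
  have hW : PT fun a => (fam a).flatMap (vecs (L a)) := by fun_prop
  have hi : PT fun a => vecs (L a) ((fam a).headD ∅) := by fun_prop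
  refine pt_foldl_inv (f := fun a K B => inter K (vecs (L a) B)) (by fun_prop) hi hf
    (fun a K => K = vecs (L a) ((fam a).headD ∅) ∨
      (K.length ≤ ((fam a).flatMap (vecs (L a))).length ∧
        ∀ v ∈ K, v ⊆ unionL ((fam a).flatMap (vecs (L a)))))
    (fun a => sz (vecs (L a) ((fam a).headD ∅)) + ((fam a).flatMap (vecs (L a))).length *
      (2 * sz (unionL ((fam a).flatMap (vecs (L a)))) + 1))
    ((PB.sz hi).add ((pb_length hW).mul (((PB.const 2).mul (PB.sz (by fun_prop))).add (PB.const 1))))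
    (fun _ => Or.inl rfl) (fun a K B hB _ => Or.inr ⟨?_, fun v hv => ?_⟩) fun a K h => ?_
  · exact (inter_bound _ _).1.trans (List.sublist_flatten_of_mem (List.mem_map_of_mem hB)).length_le
  · refine ((inter_bound _ _).2 v hv).trans fun y hy => ?_
    simp only [unionL, List.mem_toFinset, List.mem_flatMap] at hy ⊢
    obtain ⟨u, hu, hy⟩ := hy
    exact ⟨u, ⟨B, hB, hu⟩, hy⟩
  · rcases h with h | h
    · rw [h]; omega
    · have := sz_list_le h.1 fun v hv => sz_mono (h.2 v hv)
      omega

@[fun_prop] theorem pt_bof (hL : PT L) (hf : PT fam) : PT fun a => bof (L a) (fam a) := by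
  unfold bof; fun_prop

@[fun_prop] theorem pt_eof (hL : PT L) (hf : PT fam) : PT fun a => eof (L a) (fam a) := by
  unfold eof; fun_prop

@[fun_prop] theorem pt_zof (hL : PT L) (hf : PT fam) : PT fun a => zof (L a) (fam a) := by
  unfold zof; fun_prop

@[fun_prop] theorem pt_alignAll (hL : PT L) (hf : PT fam) (hB : PT B) :
    PT fun a => alignAll (L a) (fam a) (B a) := by
  unfold alignAll; fun_prop

@[fun_prop] theorem pt_famOf (hL : PT L) (hf : PT fam) : PT fun a => famOf (L a) (fam a) := by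
  unfold famOf; fun_prop

@[fun_prop] theorem pt_lifts (hL : PT L) (hf : PT fam) : PT fun a => lifts (L a) (fam a) := by
  unfold lifts; fun_prop

@[fun_prop] theorem pt_finals0 (hL : PT L) (hf : PT fam) : PT fun a => finals0 (L a) (fam a) := by
  unfold finals0; fun_prop

@[fun_prop] theorem pt_cands0 (hL : PT L) (hf : PT fam) : PT fun a => cands0 (L a) (fam a) := by
  unfold cands0; fun_prop

@[fun_prop] theorem pt_pot0 (hL : PT L) (hf : PT fam) : PT fun a => pot0 (L a) (fam a) := by
  unfold pot0; fun_prop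

@[fun_prop] theorem pt_solve (hL : PT L) : PT fun a => solve (L a) := by
  have hm : PB fun a => ((L a).length + 1) * (2 * (L a).length + 1) :=
    ((pb_length hL).add (PB.const 1)).mul (((PB.const 2).mul (pb_length hL)).add (PB.const 1))
  have hr : PT fun a => range (L a).length := by fun_prop
  refine pt_card (PT.headD (pt_climb (cands := fun a => cands0 (L a)) (pot := fun a => pot0 (L a))
    (by fun_prop) (by fun_prop) (by fun_prop) (by fun_prop)
    (fun a fam => Inv0 (L a) fam ∧ fam.length ≤ pot0 (L a) fam + 1)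
    (fun a => ((L a).length + 1) * (2 * (L a).length + 1) * (2 * sz (range (L a).length) + 1))
    (hm.mul (((PB.const 2).mul (PB.sz hr)).add (PB.const 1)))
    (fun a => ⟨⟨by simp, fun B hB => by
      rw [List.mem_singleton.1 hB]; exact ⟨empty_subset _, mt_empty, rfl⟩⟩, by simp⟩)
    (fun a s t hs ht hp => ⟨(cands0_spec hs.1 ht).1, ?_⟩) fun a s h => ?_) (PT.const _))
  · obtain ⟨B, -, ⟨T, -, rfl⟩ | ⟨p, -, rfl⟩⟩ := mem_cands0.1 ht
    · simp
    · have := hs.2
      simp only [List.length_append, List.length_singleton]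
      omega
  · refine sz_list_le (h.2.trans ?_) fun v hv => sz_mono (h.1.mem v hv).1
    have h1 := card_le_card (good_head h.1).sub
    rw [card_range] at h1
    exact (lex_lt (c' := 0) (Nat.lt_succ_of_le h1) (by omega)).trans_le (by simp)

end Pool.Agent.MP_0c5eb8_lc.H40
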